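import Pool.Agent.P.MP_a14ce1_nt.IV.St

/-! Passing between global functions and windows. -/

open Finset Filter
open scoped ComplexConjugate

namespace Pool.Agent.P.MP_a14ce1_nt.IV

open Pool.Agent.P.MP_e30989_nt.W (UCM)

namespace WinP

theorem gn_le {z : ℂ} (u : ℂ) (hz : ‖z‖ ≤ 1) : gn z u ≤ 1 := by
  rw [gn_eq]
  nlinarith [norm_nonneg z, sq_nonneg ‖z - u‖]

theorem le_gn {z u : ℂ} (hz : ‖z‖ ≤ 1) (hu : ‖u‖ ≤ 1) : -3 ≤ gn z u := by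
  have h1 : |(z * conj u).re| ≤ 1 := (Complex.abs_re_le_norm _).trans (by
    rw [norm_mul, RCLike.norm_conj]; exact mul_le_one₀ hz (norm_nonneg _) hu)
  unfold gn
  nlinarith [norm_nonneg u, (abs_le.1 h1).1]

theorem abs_gn {z u : ℂ} (hz : ‖z‖ ≤ 1) (hu : ‖u‖ ≤ 1) : |gn z u| ≤ 3 :=
  abs_le.2 ⟨le_gn hz hu, (gn_le u hz).trans (by norm_num)⟩

theorem gn_zero (z : ℂ) : gn z 0 = 0 := by simp [gn]

theorem sum_gn {f : ℕ → ℂ} (hf : UCM f) (Ψ : ℕ → ℂ) (X : ℕ) :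
    ∑ n ∈ Icc 1 X, gn (f n) (Ψ n) / n = ∑ n ∈ Icc 1 X, 1 / (n : ℝ) - dst X f Ψ := by
  rw [dst, ← sum_sub_distrib]
  refine sum_congr rfl fun n hn => ?_
  rw [gn_eq, hf.2 n (by have := (mem_Icc.1 hn).1; omega)]
  ring

theorem wa_le {ρ b : ℝ} (hρ : 1 ≤ ρ) (hb : 0 ≤ b) {j : ℕ} {φ ψ : ℕ → ℝ}
    (h : ∀ m ∈ cell ρ j, φ m ≤ ψ m + b) : wa ρ j φ ≤ wa ρ j ψ + 2 * b := by
  have h0 : 0 < ρ := by linarith
  have h1 := sum_le_sum h
  rw [sum_add_distrib, sum_const, nsmul_eq_mul] at h1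
  have h2 : ((cell ρ j).card : ℝ) * b ≤ ρ * (2 * b) := by
    have := card_cell_le h0.le j
    nlinarith
  simp only [wa, smul_eq_mul]
  calc _ ≤ 1 / ρ * (∑ m ∈ cell ρ j, ψ m + ρ * (2 * b)) := by gcongr; linarith
    _ = _ := by field_simp

/-- comparison of two window sums off a bad set of cells -/
theorem ws_le {ρ b : ℝ} (hρ : 1 ≤ ρ) (hb : 0 ≤ b) (J : ℕ) (p : ℕ → Prop) [DecidablePred p]
    {φ ψ : ℕ → ℕ → ℝ} (h1 : ∀ j, ¬ p j → ∀ m ∈ cell ρ j, φ j m ≤ ψ j m)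
    (h2 : ∀ j m, φ j m ≤ ψ j m + b) :
    ws ρ J φ ≤ ws ρ J ψ + 2 * b * ∑ j ∈ (Ico 1 J).filter p, 1 / (j : ℝ) := by
  rw [ws, ws, sum_filter, mul_sum, ← sum_add_distrib]
  refine sum_le_sum fun j _ => ?_
  have h0 : (0 : ℝ) ≤ 1 / j := by positivity
  split_ifs with hp
  · have := mul_le_mul_of_nonneg_left (wa_le hρ hb (j := j) fun m _ => h2 j m) h0
    linarith
  · have := mul_le_mul_of_nonneg_left
      (wa_le hρ le_rfl (j := j) fun m hm => (h1 j hp m hm).trans_eq (add_zero _).symm) h0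
    linarith

theorem J_le {ρ : ℝ} {J X : ℕ} (hρ : 1 ≤ ρ) (h : J * ρ ≤ X) : Real.log J ≤ Real.log X := by
  rcases Nat.eq_zero_or_pos J with rfl | hJ
  · simpa using Real.log_natCast_nonneg X
  · have : (0 : ℝ) < J := by exact_mod_cast hJ
    exact Real.log_le_log this (by nlinarith)

open Classical in
theorem bad_le (hB : S_Bad) {ρ ρ' σ t : ℝ} {J X : ℕ} (hσ : 1 ≤ σ) (h0 : 0 < ρ') (h1 : ρ' ≤ t * ρ)
    (ht : 0 < t) (ht' : t ≤ 1 / 2) (h : J * σ ≤ X) :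
    ∑ j ∈ (Ico 1 J).filter (fun j => ¬ good (ρ' / ρ) j), 1 / (j : ℝ) ≤
      2 * t * (1 + Real.log X) := by
  have hρ : 0 < ρ := by nlinarith
  have h2 : ρ' / ρ ≤ t := by rwa [div_le_iff₀ hρ]
  refine (hB _ J (div_pos h0 hρ) (h2.trans ht')).trans ?_
  have := Real.log_natCast_nonneg J
  have := J_le hσ h
  gcongr

theorem ws_le_sum {ρ : ℝ} (hρ : 1 ≤ ρ) {J X : ℕ} (h : J * ρ ≤ X) {ψ : ℕ → ℝ} (hψ : ∀ m, 0 ≤ ψ m) :
    ws ρ J (fun _ => ψ) ≤ 2 * ∑ m ∈ Icc 1 X, ψ m / m := by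
  have h0 : 0 < ρ := by linarith
  have hd : Set.PairwiseDisjoint (Ico 1 J : Finset ℕ) (cell ρ) := fun i _ j _ hij =>
    disjoint_left.2 fun m hi hj =>
      hij (((mem_cell_floor h0).1 hi).symm.trans ((mem_cell_floor h0).1 hj))
  have key : ∀ j ∈ Ico 1 J, ∀ m ∈ cell ρ j, (1 : ℝ) ≤ m ∧ (m : ℝ) ≤ X ∧ (m : ℝ) ≤ 2 * (j * ρ) :=
    fun j hj m hm => by
      obtain ⟨a1, a2⟩ := mem_Ico.1 hj
      obtain ⟨b1, b2⟩ := mem_cell.1 hm
      have c1 : (1 : ℝ) ≤ j := by exact_mod_cast a1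
      have c2 : (j : ℝ) + 1 ≤ J := by exact_mod_cast a2
      refine ⟨by nlinarith, by nlinarith, by nlinarith⟩
  calc _ ≤ ∑ j ∈ Ico 1 J, ∑ m ∈ cell ρ j, 2 * (ψ m / m) := by
        refine sum_le_sum fun j hj => ?_
        simp only [wa, smul_eq_mul]
        rw [← mul_assoc, mul_sum]
        refine sum_le_sum fun m hm => ?_
        obtain ⟨a1, -, a3⟩ := key j hj m hm
        have c1 : (1 : ℝ) ≤ j := by exact_mod_cast (mem_Ico.1 hj).1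
        have : 1 / (j : ℝ) * (1 / ρ) ≤ 2 / m := by
          rw [one_div_mul_one_div, div_le_div_iff₀ (by positivity) (by linarith)]; linarith
        calc _ ≤ 2 / (m : ℝ) * ψ m := mul_le_mul_of_nonneg_right this (hψ m)
          _ = _ := by ring
    _ = ∑ m ∈ (Ico 1 J).biUnion (cell ρ), 2 * (ψ m / m) := (sum_biUnion hd).symm
    _ ≤ ∑ m ∈ Icc 1 X, 2 * (ψ m / m) := by
        refine sum_le_sum_of_subset_of_nonneg (fun m hm => ?_) fun m _ _ =>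
          mul_nonneg zero_le_two (div_nonneg (hψ m) (Nat.cast_nonneg m))
        obtain ⟨j, hj, hm⟩ := mem_biUnion.1 hm
        obtain ⟨a1, a2, -⟩ := key j hj m hm
        exact mem_Icc.2 ⟨by exact_mod_cast a1, by exact_mod_cast a2⟩
    _ = _ := (mul_sum _ _ _).symm

theorem cut {ψ : ℕ → ℝ} (hψ : ∀ m, ψ m ≤ 1) {a b X : ℕ} (ha : 1 ≤ a) (hab : a ≤ b) (hb : b ≤ X) :
    ∑ m ∈ Icc 1 X, ψ m / m ≤ ∑ m ∈ Ico a b, ψ m / m +
      (3 + Real.log (a - 1 : ℕ) + (Real.log X - Real.log b)) := by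
  have e1 : ∀ (n : ℕ) (φ : ℕ → ℝ), ∑ m ∈ Icc 1 n, φ m = ∑ m ∈ Ico 1 (n + 1), φ m := fun n φ => by
    rw [Ico_add_one_right_eq_Icc]
  have e2 : ∀ s : Finset ℕ, ∑ m ∈ s, ψ m / m ≤ ∑ m ∈ s, 1 / (m : ℝ) := fun s =>
    sum_le_sum fun m _ => div_le_div_of_nonneg_right (hψ m) (Nat.cast_nonneg m)
  have h1 := harm_le (a - 1)
  have h2 := harm_le X
  have h3 := le_harm b
  rw [e1, Nat.sub_add_cancel ha] at h1
  rw [e1, ← sum_Ico_consecutive _ (show 1 ≤ b by omega) (show b ≤ X + 1 by omega)] at h2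
  rw [e1, sum_Ico_succ_top (show 1 ≤ b by omega)] at h3
  have h4 : 1 / (b : ℝ) ≤ 1 := by
    rw [div_le_one (by exact_mod_cast (show 0 < b by omega))]
    exact_mod_cast (show 1 ≤ b by omega)
  rw [e1, ← sum_Ico_consecutive _ (show 1 ≤ b by omega) (show b ≤ X + 1 by omega),
    ← sum_Ico_consecutive _ ha hab]
  linarith [e2 (Ico 1 a), e2 (Ico b (X + 1))]

end WinP

open WinP

theorem w1 (hB : S_Bad) (hC : S_Conv) : S_W1 := by
  classical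
  intro XX hX f Ψ ρ ρ' t K X J hf hΨ h1 h2 ht ht' hJ h3 h4
  have hρ : 0 < ρ := by nlinarith
  have hJ' : (1 : ℝ) ≤ J := by exact_mod_cast hJ
  have hb := hΨ.bd hX hρ
  have a1 := le_harm X
  have a2 := sum_gn hf Ψ X
  have a3 := cut (ψ := fun m => gn (f m) (Ψ m)) (fun m => gn_le _ (hf.1.bd m))
    (a := ⌈ρ'⌉₊) (b := ⌈(J : ℝ) * ρ'⌉₊) (X := X) (Nat.one_le_ceil_iff.2 (by linarith))
    (Nat.ceil_mono (by nlinarith)) (Nat.ceil_le.2 h3)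
  have a4 := (abs_le.1 (hC ρ' 3 J (fun m => gn (f m) (Ψ m)) h1 hJ
    fun m => abs_gn (hf.1.bd m) (hb m))).1
  have a5 := ws_le h1 (b := 4) (by norm_num) J (fun j => ¬ good (ρ' / ρ) j)
    (φ := fun _ m => gn (f m) (Ψ m)) (ψ := fun j m => gn (f m) (loc XX Ψ ρ' j m))
    (fun j hj m hm => by rw [loc_eq hρ hΨ (not_not.1 hj) hm])
    (fun j m => by
      linarith [gn_le (Ψ m) (hf.1.bd m), le_gn (hf.1.bd m) (hX.bd _ (loc_mem hX Ψ ρ' j) m)])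
  have a6 := bad_le hB h1 (by linarith) h2 ht ht' h3
  have b0 : 0 ≤ Real.log ρ' := Real.log_nonneg h1
  have b1 : Real.log (⌈ρ'⌉₊ - 1 : ℕ) ≤ Real.log ρ' := by
    rcases Nat.eq_zero_or_pos (⌈ρ'⌉₊ - 1) with h | h
    · rw [h]; simpa using b0
    · refine Real.log_le_log (by exact_mod_cast h) ?_
      rw [Nat.cast_sub (by omega), Nat.cast_one]
      linarith [Nat.ceil_lt_add_one (show 0 ≤ ρ' by linarith)]
  have c1 : 1 ≤ (J : ℝ) * ρ' := by nlinarith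
  have hK : 1 ≤ K := by nlinarith
  have b2 : 0 ≤ Real.log K := Real.log_nonneg hK
  have b3 : Real.log X ≤ Real.log K + Real.log ⌈(J : ℝ) * ρ'⌉₊ := by
    have := Nat.le_ceil ((J : ℝ) * ρ')
    rw [← Real.log_mul (by linarith) (by linarith)]
    exact Real.log_le_log (by linarith) (by nlinarith)
  have b4 : 0 ≤ t * (1 + Real.log X) := by have := Real.log_natCast_nonneg X; positivity
  linarith

theorem w2 (hB : S_Bad) : S_W2 := by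
  classical
  intro XX hX f Ψ Ψ1 ρ ρ1 ρ' t X J p hf hΨ hΨ1 h1 h2 h3 ht ht' hp h4
  have hp' : (0 : ℝ) < p := by exact_mod_cast hp
  have h0 : 0 < p * ρ' := by positivity
  have hρ : 0 < ρ := by nlinarith
  have hρ1 : 0 < ρ1 := by nlinarith
  have a1 := ws_le h1 (b := 4) (by norm_num) J
    (fun j => ¬ good (ρ' / ρ1) j ∨ ¬ good (p * ρ' / ρ) j)
    (φ := fun j m => ‖loc XX Ψ1 ρ' j m - conj (f p) * loc XX Ψ (p * ρ') j (p * m)‖ ^ 2)
    (ψ := fun _ m => ‖Ψ1 m - Up f p Ψ m‖ ^ 2)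
    (fun j hj m hm => by
      rw [not_or, not_not, not_not] at hj
      rw [loc_eq hρ1 hΨ1 hj.1 hm, loc_eq hρ hΨ hj.2 ((mem_cell_div hp).1
        (by rwa [mul_div_cancel_left₀ _ hp'.ne'])), Up])
    (fun j m => by
      have b1 := hX.bd _ (loc_mem hX Ψ1 ρ' j) m
      have b2 : ‖conj (f p) * loc XX Ψ (p * ρ') j (p * m)‖ ≤ 1 := by
        rw [norm_mul, RCLike.norm_conj]
        exact mul_le_one₀ (hf.1.bd p) (norm_nonneg _) (hX.bd _ (loc_mem hX Ψ _ j) _)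
      have b3 := norm_sub_le (loc XX Ψ1 ρ' j m) (conj (f p) * loc XX Ψ (p * ρ') j (p * m))
      have b4 : ‖loc XX Ψ1 ρ' j m - conj (f p) * loc XX Ψ (p * ρ') j (p * m)‖ ^ 2 ≤ 2 ^ 2 :=
        pow_le_pow_left₀ (norm_nonneg _) (by linarith) 2
      linarith [sq_nonneg ‖Ψ1 m - Up f p Ψ m‖])
  have a2 := ws_le_sum h1 h4 (ψ := fun m => ‖Ψ1 m - Up f p Ψ m‖ ^ 2) fun m => sq_nonneg _
  have a3 := bad_le hB h1 (by linarith) h2 ht ht' h4
  have a4 := bad_le hB h1 h0 h3 ht ht' h4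
  have a5 : ∑ j ∈ (Ico 1 J).filter (fun j => ¬ good (ρ' / ρ1) j ∨ ¬ good (p * ρ' / ρ) j),
      1 / (j : ℝ) ≤ ∑ j ∈ (Ico 1 J).filter (fun j => ¬ good (ρ' / ρ1) j), 1 / (j : ℝ) +
      ∑ j ∈ (Ico 1 J).filter (fun j => ¬ good (p * ρ' / ρ) j), 1 / (j : ℝ) := by
    rw [filter_or, ← sum_union_inter]
    exact le_add_of_nonneg_right (sum_nonneg fun _ _ => by positivity)
  unfold dst
  linarith

theorem w3 (hC : S_Conv) : S_W3 := by
  intro XX hX f u ρ X J hf hu h1 h2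
  have h0 : 0 < ρ := by linarith
  set Ψ : ℕ → ℂ := fun n => if ⌊(n : ℝ) / ρ⌋₊ ∈ Ico 1 J then u ⌊(n : ℝ) / ρ⌋₊ n else 0 with hΨ
  have hG : Gr XX ρ Ψ := fun j => by
    by_cases hj : j ∈ Ico 1 J
    · exact ⟨u j, hu j, fun n hn => by simp only [hΨ, (mem_cell_floor h0).1 hn, if_pos hj]⟩
    · exact ⟨0, hX.zero, fun n hn => by
        simp only [hΨ, (mem_cell_floor h0).1 hn, if_neg hj, Pi.zero_apply]⟩
  refine ⟨Ψ, hG, ?_⟩
  have a1 := harm_le X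
  have a2 := sum_gn hf Ψ X
  have a3 : (ws ρ J fun j m => gn (f m) (u j m)) = ws ρ J fun _ m => gn (f m) (Ψ m) := by
    refine sum_congr rfl fun j hj => ?_
    unfold wa
    congr 2
    refine sum_congr rfl fun m hm => ?_
    simp only [hΨ, (mem_cell_floor h0).1 hm, if_pos hj]
  have a4 : ∑ m ∈ Ico ⌈ρ⌉₊ ⌈(J : ℝ) * ρ⌉₊, gn (f m) (Ψ m) / m =
      ∑ m ∈ Icc 1 X, gn (f m) (Ψ m) / m := by
    refine sum_subset (fun m hm => ?_) fun m _ hm => ?_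
    · obtain ⟨b1, b2⟩ := mem_Ico.1 hm
      exact mem_Icc.2 ⟨(Nat.one_le_ceil_iff.2 h0).trans b1, b2.le.trans (Nat.ceil_le.2 h2)⟩
    · have : ⌊(m : ℝ) / ρ⌋₊ ∉ Ico 1 J := fun h => hm (by
        rw [mem_Ico, Nat.one_le_floor_iff, Nat.floor_lt (by positivity), one_le_div h0,
          div_lt_iff₀ h0] at h
        rw [mem_Ico, Nat.ceil_le, Nat.lt_ceil]
        exact h)
      simp only [hΨ, if_neg this, gn_zero, zero_div]
  rcases Nat.eq_zero_or_pos J with rfl | hJ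
  · simp only [Nat.cast_zero, zero_mul, Nat.ceil_zero, Ico_eq_empty_of_le (Nat.zero_le _),
      sum_empty] at a4
    have : (ws ρ 0 fun j m => gn (f m) (u j m)) = 0 := by simp [ws]
    linarith
  · have a5 := (abs_le.1 (hC ρ 3 J (fun m => gn (f m) (Ψ m)) h1 hJ
      fun m => abs_gn (hf.1.bd m) (hG.bd hX h0 m))).2
    linarith

end Pool.Agent.P.MP_a14ce1_nt.IV
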