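import Pool.Agent.P.MP_a14ce1_nt.IV.St

/-! The tilted step: the inequality without parameters. -/

open Finset Filter
open scoped ComplexConjugate

namespace Pool.Agent.P.MP_a14ce1_nt.IV

open Ch (rs om)
open Pool.Agent.P.MP_e30989_nt.W (UCM RMRH)

namespace TiltP

section ew

variable {ι : Type} [Fintype ι] [DecidableEq ι] {P : ι → Finset ℕ}

theorem Ew_le {Φ Ψ : (ι → ℕ) → ℝ} (h : ∀ a ∈ Fintype.piFinset P, Φ a ≤ Ψ a) :
    Ew P Φ ≤ Ew P Ψ :=
  sum_le_sum fun a ha => smul_le_smul_of_nonneg_left (h a ha) (prod_nonneg fun k _ => by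
    have : 0 ≤ rs (P k) := sum_nonneg fun _ _ => by positivity
    positivity)

theorem Ew_add (Φ Ψ : (ι → ℕ) → ℝ) : Ew P (fun a => Φ a + Ψ a) = Ew P Φ + Ew P Ψ := by
  simp only [Ew, smul_add, sum_add_distrib]

theorem Ew_mul (r : ℝ) (Φ : (ι → ℕ) → ℝ) : Ew P (fun a => r * Φ a) = r * Ew P Φ := by
  simp only [Ew, smul_eq_mul, mul_sum]
  exact sum_congr rfl fun a _ => by ring

theorem Ew_sum {κ : Type*} (s : Finset κ) (Φ : κ → (ι → ℕ) → ℝ) :
    Ew P (fun a => ∑ j ∈ s, Φ j a) = ∑ j ∈ s, Ew P (Φ j) := by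
  simp only [Ew, smul_sum]
  exact sum_comm

theorem Ew_re (Φ : (ι → ℕ) → ℂ) : (Ew P Φ).re = Ew P fun a => (Φ a).re := by
  simp only [Ew, Complex.re_sum, Complex.smul_re]

theorem Ew_ws (ρ : (ι → ℕ) → ℝ) (J : ℕ) (φ : (ι → ℕ) → ℕ → ℕ → ℝ) :
    Ew P (fun a => ws (ρ a) J (φ a)) =
      ∑ j ∈ Ico 1 J, (1 / (j : ℝ)) * Ew P fun a => wa (ρ a) j (φ a j) := by
  simp only [ws, Ew_sum, Ew_mul]

end ew

theorem wa_re (ρ : ℝ) (j : ℕ) (φ : ℕ → ℂ) : (wa ρ j φ).re = wa ρ j fun m => (φ m).re := by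
  simp only [wa, Complex.smul_re, Complex.re_sum]

theorem wa_lin {ρ : ℝ} (hρ : 1 ≤ ρ) (j : ℕ) {φ ψ χ : ℕ → ℝ} {x y z : ℝ} (hx : 0 ≤ x)
    (h : ∀ m ∈ cell ρ j, φ m ≤ x + y * ψ m + z * χ m) :
    wa ρ j φ ≤ 2 * x + y * wa ρ j ψ + z * wa ρ j χ := by
  have h0 : 0 < ρ := by linarith
  have h1 := sum_le_sum h
  rw [sum_add_distrib, sum_add_distrib, ← mul_sum, ← mul_sum, sum_const, nsmul_eq_mul] at h1
  have h2 : ((cell ρ j).card : ℝ) * x ≤ 2 * ρ * x :=
    mul_le_mul_of_nonneg_right ((card_cell_le h0.le j).trans (by linarith)) hx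
  simp only [wa, smul_eq_mul]
  have h3 := mul_le_mul_of_nonneg_left (h1.trans (add_le_add_left (add_le_add_left h2 _) _))
    (one_div_pos.2 h0).le
  refine h3.trans (le_of_eq ?_)
  field_simp

theorem harm_Ico {J X : ℕ} (h : J ≤ X) : ∑ j ∈ Ico 1 J, 1 / (j : ℝ) ≤ 1 + Real.log X :=
  (sum_le_sum_of_subset_of_nonneg (fun j hj => by
    rw [mem_Ico] at hj; exact mem_Icc.2 ⟨hj.1, by omega⟩) fun _ _ _ => by positivity).trans
    (harm_le X)

open Classical in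
/-- a member of XX that equals u (n / d) on the multiples of d -/
noncomputable def ud (XX : Set (ℕ → ℂ)) (d : ℕ) (u : ℕ → ℂ) : ℕ → ℂ :=
  if h : ∃ ψ ∈ XX, ∀ n, ψ (d * n) = u n then h.choose else 0

theorem ud_mem {XX : Set (ℕ → ℂ)} (h : Hull XX) (d : ℕ) (u : ℕ → ℂ) : ud XX d u ∈ XX := by
  unfold ud
  split_ifs with h1
  exacts [h1.choose_spec.1, h.zero]

theorem ud_eq {XX : Set (ℕ → ℂ)} (h : Hull XX) {d : ℕ} (hd : 0 < d) {u : ℕ → ℂ} (hu : u ∈ XX)
    (n : ℕ) : ud XX d u (d * n) = u n := by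
  have h1 := h.und u hu d hd
  rw [ud, dif_pos h1]
  exact h1.choose_spec.2 n

theorem point {z c u w : ℂ} {τ : ℝ} (hτ : 0 < τ) (hz : ‖z‖ ≤ 1) (hc : ‖c‖ = 1) :
    gn z u ≤ τ + 2 * (c * z * conj w).re + 1 / τ * ‖c * u - w‖ ^ 2 := by
  have h1 : z * conj u = c * z * conj w + c * z * conj (c * u - w) := by
    have : c * conj c = 1 := by rw [Complex.mul_conj, Complex.normSq_eq_norm_sq, hc]; simp
    rw [map_sub, map_mul]
    linear_combination (-(z * conj u)) * this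
  have h2 : (c * z * conj (c * u - w)).re ≤ ‖c * u - w‖ := by
    refine (Complex.re_le_norm _).trans ?_
    rw [norm_mul, norm_mul, hc, one_mul, RCLike.norm_conj]
    exact mul_le_of_le_one_left (norm_nonneg _) hz
  have h3 : 2 * ‖c * u - w‖ ≤ τ + 1 / τ * ‖c * u - w‖ ^ 2 := by
    have : 0 ≤ 1 / τ * (‖c * u - w‖ - τ) ^ 2 := by positivity
    have e : 1 / τ * (‖c * u - w‖ - τ) ^ 2 =
      1 / τ * ‖c * u - w‖ ^ 2 - 2 * ‖c * u - w‖ + τ := by field_simp; ring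
    linarith
  rw [gn, h1, Complex.add_re]
  nlinarith [sq_nonneg ‖u‖]

theorem core (hW1 : S_W1) (hW2 : S_W2) (hE : S_Ew) {XX : Set (ℕ → ℂ)} (hX : Hull XX) {f : ℕ → ℂ}
    (hf : UCM f) {ι : Type} [Fintype ι] [DecidableEq ι] {P : ι → Finset ℕ} {X J l0 : ℕ}
    {R ρ Pm τ e η Q H : ℝ} {Ψ Ψ1 : ℕ → ℂ} {cT : Finset ι → ℂ} (hrs : ∀ k, 0 < rs (P k))
    (hP : ∀ k, ∀ p ∈ P k, 0 < p ∧ (p : ℝ) ≤ Pm) (hPm : 2 ≤ Pm) (hτ : 0 < τ) (hQ : 0 < Q)
    (hΨ : Gr XX (ρ * Pm ^ 2) Ψ) (hΨ1 : Gr XX ρ Ψ1) (hJ : 1 ≤ J) (hJX : J ≤ X)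
    (ha : ∀ a ∈ Fintype.piFinset P, 1 ≤ R / pS univ a ∧ R / pS univ a ≤ 1 / Pm * ρ ∧
      J * (R / pS univ a) ≤ X ∧ X ≤ 2 * Pm * (J * (R / pS univ a)) ∧ R / pS univ a ≤ H)
    (hη : ∀ k, Ep (P k) (fun p => dst X Ψ1 (Up f p Ψ)) ≤ η)
    (hES : ∀ (j : ℕ) (F : (ι → ℕ) → ℕ → ℂ) (G : ι → (ι → ℕ) → ℕ → ℂ), (∀ a, F a ∈ XX) →
      (∀ k a, G k a ∈ XX) → (∀ k a p, G k (Function.update a k p) = G k a) →
      ∃ M : Finset ι → (ι → ℕ) → ℕ → ℂ, (∀ T a, M T a ∈ XX) ∧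
        (∀ T a a', (∀ k ∈ T, a k = a' k) → M T a = M T a') ∧
        Ew P (fun a => wa (R / pS univ a) j fun m => ‖F a (pS univ a * m) -
            ∑ T, cT T * M T a (pS univ a * m)‖ ^ 2) ≤
          (∑ k, Ew P fun a => wa (R / pS univ a) j fun m =>
            ‖F a (pS univ a * m) - G k a (pS univ a * m)‖ ^ 2) / (l0 + 1) + 1 / Q)
    (hL : ∀ M : ℕ → Finset ι → (ι → ℕ) → ℕ → ℂ, (∀ j T a, M j T a ∈ XX) →
      (∀ j T a a', (∀ k ∈ T, a k = a' k) → M j T a = M j T a') →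
      ∑ j ∈ Ico 1 J, (1 / (j : ℝ)) * ‖Ew P fun a => wa (R / pS univ a) j fun m =>
        f (pS univ a * m) * conj (∑ T, cT T * M j T a (pS univ a * m))‖ ≤ e) :
    Real.log X - dst X f Ψ1 -
        30 * (1 / Pm * (1 + Real.log X) + Real.log H + Real.log (2 * Pm) + 1) ≤
      2 * τ * (1 + Real.log X) + 2 * e + 1 / τ * (Fintype.card ι *
        (2 * η + 32 * (1 / Pm) * (1 + Real.log X)) / (l0 + 1) + 1 / Q * (1 + Real.log X)) := by
  obtain ⟨E1, -, E3, -⟩ := hE ι P hrs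
  have t0 : 0 < 1 / Pm := by positivity
  have t1 : 1 / Pm ≤ 1 / 2 := one_div_le_one_div_of_le two_pos hPm
  have pos : ∀ a ∈ Fintype.piFinset P, ∀ S, 0 < pS S a := fun a ha S =>
    prod_pos fun k _ => (hP k _ (Fintype.mem_piFinset.1 ha k)).1
  let F : ℕ → (ι → ℕ) → ℕ → ℂ := fun j a =>
    ud XX (pS univ a) fun m => f (pS univ a) * loc XX Ψ1 (R / pS univ a) j m
  let G : ℕ → ι → (ι → ℕ) → ℕ → ℂ := fun j k a => ud XX (pS (univ.erase k) a) fun m =>
    f (pS (univ.erase k) a) * loc XX Ψ (R / pS (univ.erase k) a) j m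
  have hG : ∀ j k a p, G j k (Function.update a k p) = G j k a := fun j k a p => by
    have : pS (univ.erase k) (Function.update a k p) = pS (univ.erase k) a :=
      prod_congr rfl fun i hi => Function.update_of_ne (ne_of_mem_erase hi) _ _
    simp only [G, this]
  choose M M1 M2 M3 using fun j => hES j (F j) (G j) (fun a => ud_mem hX _ _)
    (fun k a => ud_mem hX _ _) (hG j)
  have eF : ∀ j, ∀ a ∈ Fintype.piFinset P, ∀ m, F j a (pS univ a * m) =
      f (pS univ a) * loc XX Ψ1 (R / pS univ a) j m := fun j a ha m =>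
    ud_eq hX (pos a ha _) (hX.sc _ (loc_mem hX _ _ _) _ (hf.1.bd _)) m
  have A1 : Real.log X - dst X f Ψ1 -
      30 * (1 / Pm * (1 + Real.log X) + Real.log H + Real.log (2 * Pm) + 1) ≤
      Ew P fun a => ws (R / pS univ a) J fun j m => gn (f m) (loc XX Ψ1 (R / pS univ a) j m) := by
    rw [← E1 ℝ (Real.log X - _ - _)]
    refine Ew_le fun a h => ?_
    obtain ⟨a1, a2, a3, a4, a5⟩ := ha a h
    refine le_trans ?_ (hW1 XX hX f Ψ1 ρ _ _ _ X J hf hΨ1 a1 a2 t0 t1 hJ a3 a4)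
    linarith [Real.log_le_log (by linarith) a5]
  have A2 : ∀ k, ∑ j ∈ Ico 1 J, (1 / (j : ℝ)) * Ew P (fun a => wa (R / pS univ a) j fun m =>
      ‖F j a (pS univ a * m) - G j k a (pS univ a * m)‖ ^ 2) ≤
      2 * η + 32 * (1 / Pm) * (1 + Real.log X) := fun k => by
    rw [← Ew_ws (fun a => R / pS univ a) J fun a j m =>
      ‖F j a (pS univ a * m) - G j k a (pS univ a * m)‖ ^ 2]
    refine le_trans (Ew_le (Ψ := fun a => 2 * dst X Ψ1 (Up f (a k) Ψ) +
      32 * (1 / Pm) * (1 + Real.log X)) fun a h => ?_) ?_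
    · obtain ⟨a1, a2, a3, -, -⟩ := ha a h
      obtain ⟨p0, p1⟩ := hP k _ (Fintype.mem_piFinset.1 h k)
      have c0 := pos a h (univ.erase k)
      have e1 : pS univ a = pS (univ.erase k) a * a k := (prod_erase_mul _ _ (mem_univ k)).symm
      have e2 : R / pS (univ.erase k) a = a k * (R / pS univ a) := by
        have : (a k : ℝ) ≠ 0 := by exact_mod_cast p0.ne'
        have : (pS (univ.erase k) a : ℝ) ≠ 0 := by exact_mod_cast c0.ne'
        rw [e1]; push_cast; field_simp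
      refine le_trans (le_of_eq ?_) (hW2 XX hX f Ψ Ψ1 _ ρ _ _ X J (a k) hf hΨ hΨ1 a1 a2 ?_ t0 t1 p0 a3)
      · congr 1
        ext j m
        have e3 : G j k a (pS univ a * m) =
            f (pS (univ.erase k) a) * loc XX Ψ (R / pS (univ.erase k) a) j (a k * m) := by
          rw [e1, mul_assoc]
          exact ud_eq hX c0 (hX.sc _ (loc_mem hX _ _ _) _ (hf.1.bd _)) _
        have n1 := hf.2 _ c0.ne'
        have n2 := hf.2 _ p0.ne'
        have n3 : f (a k) * conj (f (a k)) = 1 := by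
          rw [Complex.mul_conj, Complex.normSq_eq_norm_sq, n2]; simp
        have e4 : F j a (pS univ a * m) - G j k a (pS univ a * m) =
            f (pS (univ.erase k) a) * f (a k) * (loc XX Ψ1 (R / pS univ a) j m -
              conj (f (a k)) * loc XX Ψ (a k * (R / pS univ a)) j (a k * m)) := by
          rw [eF j a h, e3, e2, ← hf.1.mul _ _ c0.ne' p0.ne', ← e1, mul_sub, e1,
            hf.1.mul _ _ c0.ne' p0.ne', ← e1]
          linear_combination (f (pS (univ.erase k) a) *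
            loc XX Ψ (a k * (R / pS univ a)) j (a k * m)) * n3
        rw [e4, norm_mul, norm_mul, n1, n2, one_mul, one_mul]
      · calc _ ≤ Pm * (1 / Pm * ρ) := mul_le_mul p1 a2 (by linarith) (by linarith)
          _ = 1 / Pm * (ρ * Pm) := by ring
          _ ≤ _ := by
            have : 0 ≤ ρ := by
              by_contra q
              nlinarith
            gcongr
            nlinarith
    · rw [Ew_add, Ew_mul, E1, E3 k fun p => dst X Ψ1 (Up f p Ψ)]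
      linarith [hη k]
  have A3 : ∀ j ∈ Ico 1 J, Ew P (fun a => wa (R / pS univ a) j fun m =>
      gn (f m) (loc XX Ψ1 (R / pS univ a) j m)) ≤ 2 * τ +
      2 * ‖Ew P fun a => wa (R / pS univ a) j fun m =>
        f (pS univ a * m) * conj (∑ T, cT T * M j T a (pS univ a * m))‖ +
      1 / τ * ((∑ k, Ew P fun a => wa (R / pS univ a) j fun m =>
        ‖F j a (pS univ a * m) - G j k a (pS univ a * m)‖ ^ 2) / (l0 + 1) + 1 / Q) := by
    intro j hj
    refine le_trans (Ew_le fun a h => wa_lin (ha a h).1 j hτ.le (y := 2) (z := 1 / τ)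
      (ψ := fun m => (f (pS univ a * m) * conj (∑ T, cT T * M j T a (pS univ a * m))).re)
      (χ := fun m => ‖F j a (pS univ a * m) - ∑ T, cT T * M j T a (pS univ a * m)‖ ^ 2)
      fun m hm => ?_) ?_
    · have m0 : m ≠ 0 := by
        rintro rfl
        have h1 := (mem_cell.1 hm).1
        have h2 : (1 : ℝ) ≤ j := by exact_mod_cast (mem_Ico.1 hj).1
        have h3 := (ha a h).1
        push_cast at h1
        nlinarith
      rw [eF j a h, hf.1.mul _ _ (pos a h _).ne' m0]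
      exact point hτ (hf.1.bd _) (hf.2 _ (pos a h _).ne')
    · rw [Ew_add, Ew_add, E1, Ew_mul, Ew_mul]
      simp only [← wa_re]
      rw [← Ew_re]
      exact add_le_add (add_le_add le_rfl (mul_le_mul_of_nonneg_left (Complex.re_le_norm _)
        zero_le_two)) (mul_le_mul_of_nonneg_left (M3 j) (by positivity))
  rw [Ew_ws (fun a => R / pS univ a) J fun a j m => gn (f m) (loc XX Ψ1 (R / pS univ a) j m)] at A1
  refine A1.trans ((sum_le_sum fun j hj => mul_le_mul_of_nonneg_left (A3 j hj)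
    (by positivity)).trans ?_)
  have B1 := harm_Ico hJX
  have B2 := hL M M1 M2
  have B3 := sum_le_sum fun k (_ : k ∈ univ) => A2 k
  rw [sum_comm, sum_const, card_univ, nsmul_eq_mul] at B3
  simp only [← mul_sum] at B3
  have e : ∀ x y z : ℝ, x * (2 * τ + 2 * y + 1 / τ * (z / (l0 + 1) + 1 / Q)) =
      2 * τ * x + 2 * (x * y) + 1 / τ * (1 / (l0 + 1) * (x * z) + 1 / Q * x) := fun x y z => by ring
  simp only [e, sum_add_distrib, ← mul_sum]
  rw [div_eq_inv_mul (Fintype.card ι * _ : ℝ), ← one_div]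
  gcongr

end TiltP

end Pool.Agent.P.MP_a14ce1_nt.IV
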