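import Pool.Agent.P.MP_a14ce1_nt.IV.St

/-!
The last step: atoms do not correlate with f on long windows against divisor weights.
-/

open Finset Filter
open scoped ComplexConjugate

set_option linter.unusedSectionVars false

namespace Pool.Agent.P.MP_a14ce1_nt.IV

open Ch (rs om)
open Pool.Agent.P.MP_e30989_nt.W (UCM RMRH)

namespace EndP

variable {ι : Type} [Fintype ι] [DecidableEq ι] {P : ι → Finset ℕ}

/-- the divisor weight -/
noncomputable def nu (P : ι → Finset ℕ) (S : Finset ι) (n : ℕ) : ℝ :=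
  ∏ k ∈ S, om (P k) n / rs (P k)

theorem Ew_congr {E : Type} [AddCommGroup E] [Module ℝ E] {Φ Ψ : (ι → ℕ) → E}
    (h : ∀ a ∈ Fintype.piFinset P, Φ a = Ψ a) : Ew P Φ = Ew P Ψ :=
  sum_congr rfl fun a ha => by rw [h a ha]

theorem wa_dvd {p : ℕ} (hp : 0 < p) (Λ : ℝ) (j : ℕ) (Θ : ℕ → ℂ) :
    (wa (Λ / p) j fun m => Θ (p * m)) = wa Λ j fun n => (if p ∣ n then (p : ℝ) else 0) • Θ n := by
  have e : ∑ m ∈ cell (Λ / p) j, Θ (p * m) = ∑ n ∈ (cell Λ j).filter (p ∣ ·), Θ n :=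
    sum_bij (fun m _ => p * m) (fun m hm => mem_filter.2 ⟨(mem_cell_div hp).1 hm, dvd_mul_right _ _⟩)
      (fun _ _ _ _ h => Nat.eq_of_mul_eq_mul_left hp h)
      (fun n hn => by
        obtain ⟨h1, m, rfl⟩ := mem_filter.1 hn
        exact ⟨m, (mem_cell_div hp).2 h1, rfl⟩) fun _ _ => rfl
  simp only [wa, ite_smul, zero_smul, ← sum_filter, ← smul_sum, e, smul_smul]
  congr 1
  rw [one_div_div, div_eq_mul_one_div, mul_comm]

theorem key (hp : ∀ a ∈ Fintype.piFinset P, ∀ S, 0 < pS S a) {S : Finset ι}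
    (h4 : ∀ n, Ew P (fun a => if pS S a ∣ n then (pS S a : ℝ) else 0) = nu P S n) (Λ : ℝ) (j : ℕ)
    (Θ : ℕ → ℂ) : (Ew P fun a => wa (Λ / pS S a) j fun m => Θ (pS S a * m)) =
      wa Λ j fun n => nu P S n • Θ n := by
  rw [Ew_congr fun a ha => wa_dvd (hp a ha S) Λ j Θ]
  simp only [← h4, Ew, wa, smul_sum, sum_smul, smul_eq_mul, smul_smul]
  rw [sum_comm]
  exact sum_congr rfl fun n _ => sum_congr rfl fun a _ => by rw [mul_left_comm]

theorem pS_piecewise {S S2 : Finset ι} (h : S2 ⊆ S) (a a' : ι → ℕ) :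
    pS S (S2.piecewise a a') = pS S2 a * pS (S \ S2) a' := by
  unfold pS
  rw [← prod_sdiff h, mul_comm]
  congr 1
  · exact prod_congr rfl fun k hk => piecewise_eq_of_mem _ _ _ hk
  · exact prod_congr rfl fun k hk => piecewise_eq_of_notMem _ _ _ (mem_sdiff.1 hk).2

theorem om_le {Q : Finset ℕ} {x δ A : ℝ} (hx : 1 < x) (hδ : 0 < δ)
    (hQ : ∀ p ∈ Q, p.Prime ∧ x ^ δ < p) {n : ℕ} (h0 : n ≠ 0) (hn : (n : ℝ) ≤ x ^ A) :
    om Q n ≤ A / δ := by
  have h1 : ∏ p ∈ Q.filter (· ∣ n), p ∣ n := prod_primes_dvd _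
    (fun p hp => (hQ p (mem_filter.1 hp).1).1.prime) fun p hp => (mem_filter.1 hp).2
  have h2 : ((∏ p ∈ Q.filter (· ∣ n), p : ℕ) : ℝ) ≤ n := by
    exact_mod_cast Nat.le_of_dvd (Nat.pos_of_ne_zero h0) h1
  have h3 : (x ^ δ) ^ (Q.filter (· ∣ n)).card ≤ ((∏ p ∈ Q.filter (· ∣ n), p : ℕ) : ℝ) := by
    rw [Nat.cast_prod, ← prod_const]
    exact prod_le_prod (fun _ _ => by positivity) fun p hp => (hQ p (mem_filter.1 hp).1).2.le
  rw [← Real.rpow_natCast, ← Real.rpow_mul (by positivity)] at h3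
  rw [le_div_iff₀' hδ]
  exact (Real.rpow_le_rpow_left_iff hx).1 (h3.trans (h2.trans hn))

theorem nu_nonneg (hP : ∀ k, 0 < rs (P k)) (S : Finset ι) (n : ℕ) : 0 ≤ nu P S n :=
  prod_nonneg fun k _ => div_nonneg (Nat.cast_nonneg _) (hP k).le

theorem nu_le {lam E : ℝ} (hl : 0 < lam) (hP : ∀ k, lam ≤ rs (P k)) (S : Finset ι) {n : ℕ}
    (h : ∀ k, om (P k) n ≤ E) : nu P S n ≤ max 1 (E / lam) ^ Fintype.card ι := by
  refine le_trans ?_ (pow_le_pow_right₀ (le_max_left _ _) (card_le_univ S))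
  rw [← prod_const]
  have h0 : ∀ k, 0 ≤ om (P k) n := fun k => Nat.cast_nonneg _
  exact prod_le_prod (fun k _ => div_nonneg (h0 k) (hl.le.trans (hP k))) fun k _ =>
    le_max_of_le_right (div_le_div₀ ((h0 k).trans (h k)) (h k) hl (hP k))

/-- a type II form on a cell -/
theorem tii {MM : Finset ℕ} (hM : ∀ m ∈ MM, 0 < m) {Λ c B : ℝ} (hΛ : 0 < Λ) {j : ℕ} (hj : 1 ≤ j)
    {φ : ℤ → ℂ} (h : Nil.TII MM ⌈(j : ℝ) * Λ⌉₊ (cell Λ j).card φ c) {f : ℕ → ℂ} (hf : UCM f)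
    (hB : 0 < B) {b g : ℕ → ℝ} (hb : ∀ m ∈ MM, |b m| ≤ B)
    (hg : ∀ u : ℕ, u ≠ 0 → (u : ℝ) < (j + 1) * Λ → |g u| ≤ B) :
    ‖∑ m ∈ MM, ∑ u ∈ cell (Λ / m) j, (b m * g u) • (f (m * u) * conj (φ ((m * u : ℕ) : ℤ)))‖ ≤
      B ^ 2 * c := by
  classical
  have hj' : (1 : ℝ) ≤ j := by exact_mod_cast hj
  have e : ⌈(j : ℝ) * Λ⌉₊ + (cell Λ j).card = ⌈((j : ℝ) + 1) * Λ⌉₊ := by
    rw [cell, Nat.card_Ico, Nat.add_sub_cancel' (Nat.ceil_mono (by nlinarith))]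
  have k : ∀ (t : ℝ) (n : ℕ), ‖conj (f n) * ((if |t| ≤ B then t / B else 0 : ℝ) : ℂ)‖ ≤ 1 :=
    fun t n => by
      rw [norm_mul, RCLike.norm_conj, Complex.norm_real, Real.norm_eq_abs]
      refine mul_le_one₀ (hf.1.bd n) (abs_nonneg _) ?_
      split_ifs with c
      · rwa [abs_div, abs_of_pos hB, div_le_one hB]
      · simp
  have h1 := h _ _ (fun u => k (g u) u) fun m => k (b m) m
  refine le_trans (le_of_eq ?_) (mul_le_mul_of_nonneg_left h1 (sq_nonneg B))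
  rw [← RCLike.norm_conj, ← Real.norm_of_nonneg (sq_nonneg B), ← norm_smul, sum_sigma', map_sum,
    smul_sum]
  congr 1
  have hp : ∀ {a : ℕ × ℕ}, a ∈ Nil.pairs MM ⌈(j : ℝ) * Λ⌉₊ (cell Λ j).card ↔
      a.1 ∈ MM ∧ a.2 ∈ cell (Λ / a.1) j := fun {a} => by
    rw [Nil.mem_pairs hM, e]
    exact and_congr_right fun ha => by rw [mem_cell_div (hM _ ha), cell, mem_Ico, mul_comm a.1]
  refine sum_bij' (fun a _ => (a.1, a.2)) (fun a _ => ⟨a.1, a.2⟩)
    (fun a ha => hp.2 (mem_sigma.1 ha)) (fun a ha => mem_sigma.2 (hp.1 ha)) (fun _ _ => rfl)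
    (fun _ _ => rfl) fun ⟨m, u⟩ ha => ?_
  obtain ⟨h2, h3⟩ := mem_sigma.1 ha
  have h4 := hM m h2
  have h5 := mem_cell.1 ((mem_cell_div h4).1 h3)
  have h6 : u ≠ 0 := by
    rintro rfl
    have := h5.1
    simp only [mul_zero, Nat.cast_zero] at this
    nlinarith
  have h7 : (u : ℝ) < (j + 1) * Λ :=
    lt_of_le_of_lt (by exact_mod_cast Nat.le_mul_of_pos_left u h4) h5.2
  have h8 : (B : ℂ) ≠ 0 := by exact_mod_cast hB.ne'
  simp only [if_pos (hb m h2), if_pos (hg u h6 h7), hf.1.mul _ _ h4.ne' h6, Complex.real_smul,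
    map_mul, Complex.conj_ofReal, Complex.conj_conj, mul_comm u m]
  push_cast
  field_simp

/-- the type II part of a window -/
theorem two (hE : S_Ew) (hP : ∀ k, 0 < rs (P k)) (hd : ∀ k k', k ≠ k' → Disjoint (P k) (P k'))
    (hp : ∀ k, ∀ p ∈ P k, p.Prime) {S S2 : Finset ι} (hS : S2 ⊆ S) {MM : Finset ℕ}
    (hM : ∀ m ∈ MM, 0 < m) (hm : ∀ a ∈ Fintype.piFinset P, pS S2 a ∈ MM) {Λ c B : ℝ} (hΛ : 0 < Λ)
    {j : ℕ} (hj : 1 ≤ j) {φ : ℤ → ℂ} (h : Nil.TII MM ⌈(j : ℝ) * Λ⌉₊ (cell Λ j).card φ c)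
    {f : ℕ → ℂ} (hf : UCM f) (hB : 0 < B) (hM' : ∀ m ∈ MM, (m : ℝ) ≤ Λ)
    (hn : ∀ T, ∀ u : ℕ, u ≠ 0 → (u : ℝ) < (j + 1) * Λ → nu P T u ≤ B) :
    ‖Ew P fun a => wa (Λ / pS S a) j fun m =>
      f (pS S a * m) * conj (φ ((pS S a * m : ℕ) : ℤ))‖ ≤ B ^ 2 * c / Λ := by
  classical
  obtain ⟨-, E2, -, E4⟩ := hE ι P hP
  have hj' : (1 : ℝ) ≤ j := by exact_mod_cast hj
  have h0 : ∀ a ∈ Fintype.piFinset P, ∀ S, 0 < pS S a := fun a ha S =>
    prod_pos fun k _ => (hp k _ (Fintype.mem_piFinset.1 ha k)).pos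
  have hw : ∀ a : ι → ℕ, 0 ≤ ∏ k, 1 / ((a k : ℝ) * rs (P k)) := fun a =>
    prod_nonneg fun k _ => by have := hP k; positivity
  have h1 := tii hM hΛ hj h hf hB (b := fun m => Ew P fun a => if pS S2 a = m then (m : ℝ) else 0)
    (g := nu P (S \ S2)) (fun m hm' => by
      rw [abs_of_nonneg (sum_nonneg fun a _ => smul_nonneg (hw a) (by positivity))]
      refine le_trans ?_ (hn S2 m (hM m hm').ne' (by nlinarith [hM' m hm']))
      rw [nu, ← E4 hd hp S2 m]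
      refine sum_le_sum fun a _ => smul_le_smul_of_nonneg_left ?_ (hw a)
      beta_reduce
      split_ifs with c1 c2
      exacts [by rw [c1], (c2 (c1 ▸ dvd_rfl)).elim, by positivity, le_rfl])
    fun u h1 h2 => by rw [abs_of_nonneg (nu_nonneg hP _ _)]; exact hn _ u h1 h2
  refine le_trans (le_of_eq ?_) (div_le_div_of_nonneg_right h1 hΛ.le)
  rw [div_eq_inv_mul _ Λ, ← Real.norm_of_nonneg (inv_pos.2 hΛ).le, ← norm_smul, E2 ℂ _ S2]
  congr 1
  rw [Ew_congr fun a _ => show _ = wa (Λ / pS S2 a) j fun u => nu P (S \ S2) u •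
      (f (pS S2 a * u) * conj (φ ((pS S2 a * u : ℕ) : ℤ))) by
    rw [← key h0 (E4 hd hp (S \ S2))]
    simp only [pS_piecewise hS, Nat.cast_mul, div_div, mul_assoc]]
  simp only [Ew, smul_eq_mul, sum_mul, sum_smul, smul_sum]
  rw [← sum_fiberwise_of_maps_to hm]
  refine sum_congr rfl fun m _ => ?_
  rw [sum_comm, sum_filter]
  refine sum_congr rfl fun a _ => ?_
  split_ifs with c
  · simp only [c, wa, smul_sum, smul_smul]
    refine sum_congr rfl fun u _ => ?_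
    congr 1
    rw [one_div_div]
    ring
  · simp

end EndP

open EndP in
theorem endp (hE : S_Ew) (hM : S_Maj) : S_End := by
  rintro AA ⟨C, hC⟩
  refine ⟨2 * C + 2, fun f l hl hf hm ι _ _ δ ε lam hδ hε hlam => ?_⟩
  set B : ℝ := max 1 ((1 + 1 / δ) / δ / lam) ^ Fintype.card ι with hBd
  have hB : 0 < B := by positivity
  have hd : 0 < min δ 1 := lt_min hδ one_pos
  obtain ⟨W, Z0, hW, hZ⟩ := hC (ε / (8 * B ^ 2)) (by positivity) (2 * ⌈1 / δ / min δ 1⌉₊)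
  filter_upwards [hM f l hl hf hm ι W δ (ε / 2) lam hW hδ (by positivity) hlam,
    hl (eventually_ge_atTop 4), hl (((tendsto_rpow_atTop hd).comp
      tendsto_natCast_atTop_atTop).eventually_ge_atTop ((max Z0 2 : ℕ) : ℝ))] with X hX h4 hz
  intro P S S2 Λ J ψ hdis hp hrs hS ha hΛ hJ hψ
  have hP : ∀ k, 0 < rs (P k) := fun k => hlam.trans_le (hrs k)
  have hX4 : (4 : ℝ) ≤ X := by exact_mod_cast h4
  have hX0 : (0 : ℝ) < X := by linarith
  have hX1 : (1 : ℝ) ≤ X := by linarith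
  have hlog : 1 ≤ Real.log X := by
    rw [Real.le_log_iff_exp_le hX0]
    linarith [Real.exp_one_lt_d9]
  have hc : (1 : ℝ) ≤ (X : ℝ) ^ (2 * C) := one_le_pow₀ hX1
  have hΛ1 : (X : ℝ) ^ (2 * C) * X ^ 2 ≤ Λ := by
    obtain ⟨a, ha'⟩ : (Fintype.piFinset P).Nonempty := Fintype.piFinset_nonempty.2 fun k =>
      nonempty_iff_ne_empty.2 fun c => by simpa [c, rs] using hP k
    obtain ⟨k1, k2⟩ := ha a ha'
    have k3 : (1 : ℝ) ≤ pS S2 a := by exact_mod_cast (Nat.one_le_pow _ _ (by omega)).trans k1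
    rw [← pow_add]
    exact (le_mul_of_one_le_left (by positivity) k3).trans k2
  have hΛ2 : 4 * (X : ℝ) ≤ Λ := by nlinarith
  have hΛ0 : 0 < Λ := by linarith
  set z := ⌊(X : ℝ) ^ min δ 1⌋₊ with hzd
  have z1 : max Z0 2 ≤ z := Nat.le_floor hz
  have z2 : (z : ℝ) ≤ (X : ℝ) ^ min δ 1 := Nat.floor_le (by positivity)
  have z3 : z ≤ X ^ 2 := by
    have := z2.trans (Real.rpow_le_rpow_of_exponent_le hX1 (min_le_right _ _))
    rw [Real.rpow_one] at this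
    exact le_trans (by exact_mod_cast this) (Nat.le_self_pow two_ne_zero X)
  set M2 := ⌊Λ / (X : ℝ) ^ (2 * C + 2)⌋₊ with hM2
  have m1 : (M2 : ℝ) * (X : ℝ) ^ (2 * C + 2) ≤ Λ :=
    (le_div_iff₀ (by positivity)).1 (Nat.floor_le (by positivity))
  have m2 : (M2 : ℝ) ≤ Λ := (le_mul_of_one_le_right (by positivity) (one_le_pow₀ hX1)).trans m1
  have m3 : M2 ≤ z ^ (2 * ⌈1 / δ / min δ 1⌉₊) := by
    have k1 : (X : ℝ) ^ min δ 1 ≤ (z : ℝ) ^ 2 := by
      have k2 : (2 : ℝ) ≤ z := by exact_mod_cast (le_max_right _ _).trans z1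
      nlinarith [Nat.lt_floor_add_one ((X : ℝ) ^ min δ 1)]
    have : (M2 : ℝ) ≤ (z : ℝ) ^ (2 * ⌈1 / δ / min δ 1⌉₊) := by
      rw [pow_mul]
      refine (m2.trans hΛ).trans (le_trans ?_ (pow_le_pow_left₀ (by positivity) k1 _))
      rw [← Real.rpow_natCast, ← Real.rpow_mul hX0.le]
      exact Real.rpow_le_rpow_of_exponent_le hX1 ((div_le_iff₀' hd).1 (Nat.le_ceil _))
    exact_mod_cast this
  have hex : ∀ j : ℕ, ∃ (χ : ℤ → ℂ) (D : Finset ℤ), (∀ n, ‖χ n‖ ≤ 1) ∧ Nil.Maj W D χ ∧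
      (D.card + 1) * (X : ℝ) ≤ Λ ∧ (j ∈ Ico 1 J → Nil.TII (Nil.roughs z (X ^ (2 * C + 2)) M2)
        ⌈(j : ℝ) * Λ⌉₊ (cell Λ j).card (fun n => ψ j n - χ n)
        (ε / (8 * B ^ 2) * (cell Λ j).card)) := fun j => by
    by_cases hj : j ∈ Ico 1 J
    · have k1 := le_card_cell hΛ0.le j
      have k2 : (j : ℝ) + 1 ≤ X := by exact_mod_cast le_trans (mem_Ico.1 hj).2 hJ
      obtain ⟨χ, D, d1, d2, d3, d4⟩ := hZ (X ^ 2) z ⌈(j : ℝ) * Λ⌉₊ (cell Λ j).card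
        (X ^ (2 * C + 2)) M2 ((le_max_left _ _).trans z1) z3
        (by rw [← pow_mul]; exact Nat.pow_le_pow_right (by omega) (by omega)) m3
        (by
          have : (M2 : ℝ) * ((X : ℝ) ^ 2) ^ C ≤ (cell Λ j).card := by
            rw [pow_add, ← mul_assoc] at m1
            rw [← pow_mul]
            have k3 : (0 : ℝ) ≤ M2 * (X : ℝ) ^ (2 * C) := by positivity
            have k4 : (2 : ℝ) ≤ (X : ℝ) ^ 2 := by nlinarith
            nlinarith
          exact_mod_cast this)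
        (Nat.ceil_le.2 (by
          push_cast
          calc (j : ℝ) * Λ ≤ X * (2 * (cell Λ j).card) :=
                mul_le_mul (by linarith) (by linarith) hΛ0.le hX0.le
            _ = X * 2 * (cell Λ j).card := by ring
            _ ≤ X * X * (cell Λ j).card := by gcongr; linarith
            _ = _ := by ring)) (ψ j) (hψ j)
      refine ⟨χ, D, d1, d3, le_trans ?_ hΛ1, fun _ => d4⟩
      push_cast at d2
      rw [← pow_mul] at d2
      calc (D.card + 1) * (X : ℝ) ≤ ((X : ℝ) ^ (2 * C) * X) * X := by gcongr; nlinarith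
        _ = _ := by ring
    · exact ⟨0, ∅, by simp, fun _ _ _ _ _ => rfl, by simpa using by linarith, fun c => (hj c).elim⟩
  choose χ D d1 d2 d3 d4 using hex
  have h0 : ∀ a ∈ Fintype.piFinset P, ∀ S, 0 < pS S a := fun a ha S =>
    prod_pos fun k _ => (hp k _ (Fintype.mem_piFinset.1 ha k)).1.pos
  have hII : ∀ j ∈ Ico 1 J, ‖Ew P fun a => wa (Λ / pS S a) j fun m =>
      f (pS S a * m) * conj (ψ j ((pS S a * m : ℕ) : ℤ) - χ j ((pS S a * m : ℕ) : ℤ))‖ ≤ ε / 4 :=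
    fun j hj => by
    have k2 : (j : ℝ) + 1 ≤ X := by exact_mod_cast le_trans (mem_Ico.1 hj).2 hJ
    refine (two hE hP hdis (fun k p h => (hp k p h).1) hS
      (fun m h => (Nat.pow_pos (by omega)).trans_le (Nil.mem_roughs.1 h).1.1)
      (fun a h => Nil.mem_roughs.2 ⟨⟨(ha a h).1, Nat.le_floor ((le_div_iff₀ (by positivity)).2
        (ha a h).2)⟩, fun q hq hqz hd => ?_⟩) hΛ0 (mem_Ico.1 hj).1 (d4 j hj) hf hB
      (fun m h => le_trans (Nat.cast_le.2 (Nil.mem_roughs.1 h).1.2) m2)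
      fun T u h1 h2 => nu_le hlam hrs T fun k => om_le (by linarith) hδ (hp k) h1 ?_).trans ?_
    · obtain ⟨k, -, hk⟩ := (hq.prime.dvd_finsetProd_iff _).1 hd
      obtain ⟨k1, k3⟩ := hp k _ (Fintype.mem_piFinset.1 h k)
      rw [← (Nat.prime_dvd_prime_iff_eq hq k1).1 hk] at k3
      have k4 : (q : ℝ) ≤ z := by exact_mod_cast hqz
      linarith [Real.rpow_le_rpow_of_exponent_le hX1 (min_le_left δ 1)]
    · rw [Real.rpow_add hX0, Real.rpow_one]
      exact h2.le.trans (by gcongr)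
    · rw [div_le_iff₀ hΛ0, ← mul_assoc, show B ^ 2 * (ε / (8 * B ^ 2)) = ε / 8 by field_simp]
      nlinarith [card_cell_le hΛ0.le j]
  have h1 := hX P S Λ J χ D hp hrs hΛ hJ d1 d2 d3
  have h2 : ∑ j ∈ Ico 1 J, 1 / (j : ℝ) ≤ 2 * Real.log X :=
    (sum_le_sum_of_subset_of_nonneg (fun j hj => mem_Icc.2 ⟨(mem_Ico.1 hj).1,
      (mem_Ico.1 hj).2.le.trans hJ⟩) fun _ _ _ => by positivity).trans
      ((harm_le X).trans (by linarith))
  calc _ ≤ ∑ j ∈ Ico 1 J, ((1 / (j : ℝ)) * ‖wa Λ j fun n =>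
        f n * ((∏ k ∈ S, om (P k) n / rs (P k) : ℝ) : ℂ) * conj (χ j n)‖ + 1 / (j : ℝ) * (ε / 4)) := by
        refine sum_le_sum fun j hj => ?_
        rw [← mul_add]
        refine mul_le_mul_of_nonneg_left (le_trans (le_of_eq ?_)
          (norm_add_le_of_le le_rfl (hII j hj))) (by positivity)
        have e : (fun n : ℕ => f n * ((∏ k ∈ S, om (P k) n / rs (P k) : ℝ) : ℂ) * conj (χ j n)) =
            fun n : ℕ => nu P S n • (f n * conj (χ j n)) := funext fun n => by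
          rw [Complex.real_smul, nu]; ring
        rw [e, ← key h0 ((hE ι P hP).2.2.2 hdis (fun k p h => (hp k p h).1) S)]
        simp only [Ew, wa, ← sum_add_distrib, ← smul_add, ← mul_add, map_sub, add_sub_cancel]
    _ ≤ ε / 2 * Real.log X + 2 * Real.log X * (ε / 4) := by
        rw [sum_add_distrib, ← sum_mul]
        gcongr
    _ = _ := by ring

end Pool.Agent.P.MP_a14ce1_nt.IV
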