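import Pool.Agent.P.MP_a14ce1_nt.IV.St

/-!
The first step: if many windows correlate with an atom then f is closer than trivially to the
functions that are structured on a grid.
-/

open Finset Filter
open scoped ComplexConjugate

namespace Pool.Agent.P.MP_a14ce1_nt.IV

open Pool.Agent.P.MP_e30989_nt.W (UCM)

namespace InitP

theorem cell_nat (h j : ℕ) : cell (h : ℝ) j = Ico (j * h) ((j + 1) * h) := by
  ext n
  rw [mem_cell, mem_Ico]
  norm_cast

theorem sum_cells (φ : ℕ → ℂ) (h : ℕ) {a b : ℕ} (hab : a ≤ b) :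
    ∑ n ∈ Ico (a * h) (b * h), φ n = ∑ j ∈ Ico a b, ∑ n ∈ cell (h : ℝ) j, φ n := by
  induction b, hab using Nat.le_induction with
  | base => simp
  | succ b hab ih =>
    rw [sum_Ico_succ_top hab, ← ih, cell_nat, sum_Ico_consecutive _ (Nat.mul_le_mul_right _ hab)
      (Nat.mul_le_mul_right _ (Nat.le_succ b))]

theorem norm_Ico_le {φ : ℕ → ℂ} (hφ : ∀ n, n ≠ 0 → ‖φ n‖ ≤ 1) {a b h : ℕ} (ha : 1 ≤ a)
    (hb : b ≤ a + h) : ‖∑ n ∈ Ico a b, φ n‖ ≤ h := by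
  refine (norm_sum_le _ _).trans ((sum_le_card_nsmul _ _ 1 fun n hn => hφ n ?_).trans ?_)
  · have := (mem_Ico.1 hn).1
    omega
  · rw [Nat.card_Ico, nsmul_eq_mul, mul_one]
    exact_mod_cast (by omega : b - a ≤ h)

/-- a window is covered by cells up to two short pieces -/
theorem window {φ : ℕ → ℂ} (hφ : ∀ n, n ≠ 0 → ‖φ n‖ ≤ 1) {x H h : ℕ} (hx : 1 ≤ x) (h0 : 0 < h)
    (hh : h ≤ H) : ‖∑ n ∈ Ico x (x + H), φ n‖ ≤
      ∑ j ∈ Ico (x / h + 1) ((x + H) / h), ‖∑ n ∈ cell (h : ℝ) j, φ n‖ + 2 * h := by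
  have h1 : x / h + 1 ≤ (x + H) / h := by
    rw [← Nat.add_div_right x h0]
    exact Nat.div_le_div_right (by omega)
  have h2 : x < (x / h + 1) * h := by
    rw [mul_comm]
    exact Nat.lt_mul_div_succ x h0
  have h3 : (x / h + 1) * h ≤ x + h := by
    rw [add_mul, one_mul]
    exact Nat.add_le_add_right (Nat.div_mul_le_self x h) h
  have h4 : (x + H) / h * h ≤ x + H := Nat.div_mul_le_self _ _
  have h5 : x + H ≤ (x + H) / h * h + h := (Nat.lt_div_mul_add h0).le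
  have h6 : (x / h + 1) * h ≤ (x + H) / h * h := Nat.mul_le_mul_right _ h1
  rw [← sum_Ico_consecutive _ h2.le (h6.trans h4), ← sum_Ico_consecutive _ h6 h4, sum_cells φ h h1]
  have e1 := norm_Ico_le hφ hx h3
  have e2 := norm_Ico_le hφ (by omega : 1 ≤ (x + H) / h * h) h5
  have e3 := norm_sum_le (Ico (x / h + 1) ((x + H) / h)) fun j => ∑ n ∈ cell (h : ℝ) j, φ n
  refine (norm_add_le _ _).trans ?_
  have e4 := norm_add_le (∑ j ∈ Ico (x / h + 1) ((x + H) / h), ∑ n ∈ cell (h : ℝ) j, φ n)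
    (∑ n ∈ Ico ((x + H) / h * h) (x + H), φ n)
  linarith

/-- double counting -/
theorem count {s : ℕ → ℝ} (hs : ∀ j, 0 ≤ s j) {G : Finset ℕ} {H h X : ℕ} (h0 : 0 < h)
    (hH : 0 < H) (hG : ∀ x ∈ G, H ≤ x ∧ x + H ≤ X) {b : ℝ}
    (hb : ∀ x ∈ G, b * H ≤ ∑ j ∈ Ico (x / h + 1) ((x + H) / h), s j) :
    b / 2 * ∑ x ∈ G, 1 / (x : ℝ) ≤ ∑ j ∈ Ico 1 (X / h), 1 / (j : ℝ) * (s j / h) := by
  have hH' : (0 : ℝ) < H := by exact_mod_cast hH
  have hh' : (0 : ℝ) < h := by exact_mod_cast h0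
  have e1 : ∀ x ∈ G, b * H * (1 / (x : ℝ)) ≤ ∑ j ∈ Ico 1 (X / h),
      if j ∈ Ico (x / h + 1) ((x + H) / h) then 2 * (1 / (j : ℝ) * (s j / h)) else 0 := by
    intro x hx
    obtain ⟨h1, h2⟩ := hG x hx
    have hx0 : (0 : ℝ) < x := by exact_mod_cast hH.trans_le h1
    rw [← sum_filter, filter_mem_eq_inter, inter_eq_right.2
      (Ico_subset_Ico (Nat.le_add_left _ _) (Nat.div_le_div_right h2))]
    refine (mul_le_mul_of_nonneg_right (hb x hx) (by positivity)).trans ?_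
    rw [sum_mul]
    refine sum_le_sum fun j hj => ?_
    rw [mem_Ico] at hj
    have h3 : j * h ≤ 2 * x :=
      ((Nat.mul_le_mul_right _ hj.2.le).trans (Nat.div_mul_le_self _ _)).trans (by omega)
    have h4 : (j : ℝ) * h ≤ 2 * x := by exact_mod_cast h3
    have h5 : (0 : ℝ) < j := by exact_mod_cast (Nat.succ_pos _).trans_le hj.1
    have h6 : 1 / (x : ℝ) ≤ 2 / (j * h) := by
      rw [div_le_div_iff₀ hx0 (by positivity)]
      linarith
    calc s j * (1 / (x : ℝ)) ≤ s j * (2 / (j * h)) := mul_le_mul_of_nonneg_left h6 (hs j)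
      _ = _ := by field_simp
  have e2 := sum_le_sum e1
  rw [← mul_sum, sum_comm] at e2
  have e3 : ∀ j ∈ Ico 1 (X / h), (∑ x ∈ G, if j ∈ Ico (x / h + 1) ((x + H) / h) then
      2 * (1 / (j : ℝ) * (s j / h)) else 0) ≤ H * (2 * (1 / (j : ℝ) * (s j / h))) := by
    intro j _
    rw [← sum_filter, sum_const, nsmul_eq_mul]
    refine mul_le_mul_of_nonneg_right ?_ (by have := hs j; positivity)
    have h1 : G.filter (fun x => j ∈ Ico (x / h + 1) ((x + H) / h)) ⊆ Ico (j * h - H) (j * h) := by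
      intro x hx
      have h2 := mem_Ico.1 (mem_filter.1 hx).2
      have h3 : x < j * h := (Nat.div_lt_iff_lt_mul h0).1 h2.1
      have h4 : j * h ≤ x + H := (Nat.mul_le_mul_right _ h2.2.le).trans (Nat.div_mul_le_self _ _)
      rw [mem_Ico]
      omega
    have h2 := card_le_card h1
    rw [Nat.card_Ico] at h2
    exact_mod_cast h2.trans (by omega)
  have e4 := e2.trans (sum_le_sum e3)
  rw [← mul_sum, ← mul_sum] at e4
  refine le_of_mul_le_mul_left ?_ (show (0 : ℝ) < 2 * H by positivity)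
  linarith

/-- the gain on one cell -/
theorem gain {XX : Set (ℕ → ℂ)} (hX : Hull XX) (f : ℕ → ℂ) {b : ℕ → ℂ} (hb : b ∈ XX) {τ : ℝ}
    (h0 : 0 ≤ τ) (h1 : τ ≤ 1) {h : ℕ} (hh : 0 < h) (j : ℕ) : ∃ u ∈ XX,
      2 * τ * (‖∑ n ∈ cell (h : ℝ) j, Ax.pc f b n‖ / h) - τ ^ 2 ≤
        wa (h : ℝ) j fun m => gn (f m) (u m) := by
  have hh' : (0 : ℝ) < h := by exact_mod_cast hh
  obtain ⟨w, hw, hw'⟩ := Complex.exists_norm_eq_mul_self (∑ n ∈ cell (h : ℝ) j, Ax.pc f b n)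
  have hn : ‖(τ : ℂ) * conj w‖ = τ := by
    rw [norm_mul, RCLike.norm_conj, hw, mul_one, Complex.norm_real, Real.norm_of_nonneg h0]
  refine ⟨_, hX.sc b hb (τ * conj w) (hn.trans_le h1), ?_⟩
  have e1 : ∀ m, 2 * τ * (w * Ax.pc f b m).re - τ ^ 2 ≤ gn (f m) (τ * conj w * b m) := by
    intro m
    have e2 : f m * conj (τ * conj w * b m) = τ * (w * Ax.pc f b m) := by
      simp only [map_mul, Complex.conj_ofReal, Complex.conj_conj, Ax.pc]
      ring
    have e3 : ‖(τ : ℂ) * conj w * b m‖ ≤ τ := by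
      rw [norm_mul, hn]
      exact mul_le_of_le_one_right h0 (hX.bd b hb m)
    rw [gn, e2, Complex.re_ofReal_mul]
    have := pow_le_pow_left₀ (norm_nonneg _) e3 2
    linarith
  have e2 := sum_le_sum fun m (_ : m ∈ cell (h : ℝ) j) => e1 m
  have e3 : (cell (h : ℝ) j).card = h := by
    rw [cell_nat, Nat.card_Ico, add_mul, one_mul, Nat.add_sub_cancel_left]
  rw [sum_sub_distrib, ← mul_sum, ← Complex.re_sum, ← mul_sum, ← hw', Complex.ofReal_re, sum_const,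
    e3, nsmul_eq_mul] at e2
  rw [wa, smul_eq_mul, one_div, ← div_eq_inv_mul, le_div_iff₀ hh']
  refine le_trans (le_of_eq ?_) e2
  field_simp

end InitP

open InitP in
theorem init (hH : S_Hull) (h3 : S_W3) : S_Init := by
  classical
  intro A c ε hA hc hε
  have hX := hH A hA
  obtain ⟨c1, hc0, hc1, hc2⟩ : ∃ c1 : ℝ, 0 < c1 ∧ c1 ≤ c ∧ c1 ≤ 1 :=
    ⟨min c 1, lt_min hc one_pos, min_le_left _ _, min_le_right _ _⟩
  obtain ⟨τ, hτ0, hτ1, hτ2⟩ : ∃ τ : ℝ, 0 < τ ∧ τ ≤ 1 ∧ τ ≤ c1 * ε / 32 :=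
    ⟨min 1 (c1 * ε / 32), lt_min one_pos (by positivity), min_le_left _ _, min_le_right _ _⟩
  refine ⟨τ * (c1 * ε) / 16, by positivity, fun H1 => ⟨⌈4 * (H1 + 1) / c1⌉₊, fun H hH0 => ?_⟩⟩
  obtain ⟨h, hh1, hh2⟩ : ∃ h : ℕ, H1 + 1 ≤ h ∧ (h : ℝ) ≤ c1 * H / 4 := by
    refine ⟨⌊c1 * H / 4⌋₊, Nat.le_floor ?_, Nat.floor_le (by positivity)⟩
    have := Nat.ceil_le.1 hH0
    rw [div_le_iff₀ hc0] at this
    push_cast
    linarith
  have hH' : (0 : ℝ) ≤ H := Nat.cast_nonneg H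
  have hhH : h ≤ H := by
    have : (h : ℝ) ≤ H := by nlinarith
    exact_mod_cast this
  have h0 : 0 < h := by omega
  refine ⟨h, by omega, ?_⟩
  have hlog : Tendsto (fun X : ℕ => Real.log X) atTop atTop :=
    Real.tendsto_log_atTop.comp tendsto_natCast_atTop_atTop
  filter_upwards [hlog.eventually_ge_atTop (4 * H / ε),
    hlog.eventually_gt_atTop (14 / (τ * (c1 * ε) / 16))] with X hX1 hX2 f hf hd
  rw [div_le_iff₀ hε] at hX1
  rw [div_lt_iff₀ (by positivity)] at hX2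
  have hL : 0 ≤ Real.log X := Real.log_natCast_nonneg X
  by_contra hcon
  rw [not_le] at hcon
  set G := (Icc 1 X).filter
    (fun x => ∃ a ∈ A, c * H ≤ ‖∑ n ∈ Ico x (x + H), Ax.pc f a n‖) with hG
  have hne : G.Nonempty := by
    rw [nonempty_iff_ne_empty]
    intro e
    rw [e, sum_empty] at hcon
    exact absurd hcon (not_lt.2 (by positivity))
  have ha : ∀ x, ∃ a ∈ A, x ∈ G → c * H ≤ ‖∑ n ∈ Ico x (x + H), Ax.pc f a n‖ := fun x => by
    by_cases hx : x ∈ G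
    · obtain ⟨a, h1, h2⟩ := (mem_filter.1 hx).2
      exact ⟨a, h1, fun _ => h2⟩
    · obtain ⟨a, h1⟩ := hA.ne
      exact ⟨a, h1, fun h2 => absurd h2 hx⟩
  choose a haA ha using ha
  have hy : ∀ j, ∃ y ∈ G, ∀ x ∈ G, ‖∑ n ∈ cell (h : ℝ) j, Ax.pc f (a x) n‖ ≤
      ‖∑ n ∈ cell (h : ℝ) j, Ax.pc f (a y) n‖ := fun j => G.exists_max_image _ hne
  choose y _ hy using hy
  let s : ℕ → ℝ := fun j => ‖∑ n ∈ cell (h : ℝ) j, Ax.pc f (a (y j)) n‖
  have e1 := count (s := s) (fun j => norm_nonneg _) (G := G.filter fun x => H ≤ x ∧ x + H ≤ X)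
    (X := X) h0 (h0.trans_le hhH) (fun x hx => (mem_filter.1 hx).2) (b := c1 / 2) fun x hx => by
      have hxG := (mem_filter.1 hx).1
      have h1 := window (φ := Ax.pc f (a x)) (fun n hn => by
        rw [Ax.pc, norm_mul, hf.2 n hn, one_mul, RCLike.norm_conj]
        exact hA.bd _ (haA x) n) (mem_Icc.1 (mem_filter.1 hxG).1).1 h0 hhH
      have h2 := sum_le_sum fun j (_ : j ∈ Ico (x / h + 1) ((x + H) / h)) => hy j x hxG
      have h4 := ha x hxG
      have h5 := mul_le_mul_of_nonneg_right hc1 hH'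
      simp only [s]
      linarith
  have e2 : ∑ x ∈ G.filter (fun x => ¬(H ≤ x ∧ x + H ≤ X)), 1 / (x : ℝ) ≤ 2 * H := by
    have h1 : G.filter (fun x => ¬(H ≤ x ∧ x + H ≤ X)) ⊆ range H ∪ Ioc (X - H) X := by
      intro x hx
      have h1 := (mem_filter.1 hx).2
      have h2 := mem_Icc.1 (mem_filter.1 (mem_filter.1 hx).1).1
      rw [mem_union, mem_range, mem_Ioc]
      omega
    have h2 := (card_le_card h1).trans (card_union_le _ _)
    rw [card_range, Nat.card_Ioc] at h2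
    refine (sum_le_card_nsmul _ _ 1 fun x _ => ?_).trans ?_
    · rw [one_div]
      exact Nat.cast_inv_le_one x
    · rw [nsmul_eq_mul, mul_one]
      exact_mod_cast h2.trans (by omega)
  have e3 := sum_filter_add_sum_filter_not G (fun x => H ≤ x ∧ x + H ≤ X) fun x => 1 / (x : ℝ)
  have e4 : c1 * ε / 8 * Real.log X ≤ ∑ j ∈ Ico 1 (X / h), 1 / (j : ℝ) * (s j / h) := by
    refine le_trans ?_ e1
    have : ε / 2 * Real.log X ≤
        ∑ x ∈ G.filter (fun x => H ≤ x ∧ x + H ≤ X), 1 / (x : ℝ) := by linarith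
    nlinarith
  choose u hu hu' using fun j => gain hX f (subset_convexHull ℝ A (haA (y j))) hτ0.le hτ1 h0 j
  have e5 := (h3 _ hX f u h X (X / h) hf hu (by exact_mod_cast h0)
    (by exact_mod_cast Nat.div_mul_le_self X h)).dst_le h0
  have e6 : ∑ j ∈ Ico 1 (X / h), 1 / (j : ℝ) * (2 * τ * (s j / h) - τ ^ 2) ≤
      ws h (X / h) fun j m => gn (f m) (u j m) :=
    sum_le_sum fun j _ => mul_le_mul_of_nonneg_left (hu' j) (by positivity)
  have e7 : ∑ j ∈ Ico 1 (X / h), 1 / (j : ℝ) * (2 * τ * (s j / h) - τ ^ 2) =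
      2 * τ * ∑ j ∈ Ico 1 (X / h), 1 / (j : ℝ) * (s j / h) -
        τ ^ 2 * ∑ j ∈ Ico 1 (X / h), 1 / (j : ℝ) := by
    rw [mul_sum, mul_sum, ← sum_sub_distrib]
    exact sum_congr rfl fun j _ => by ring
  have e8 : ∑ j ∈ Ico 1 (X / h), 1 / (j : ℝ) ≤ 1 + Real.log X := by
    refine le_trans (sum_le_sum_of_subset_of_nonneg (fun j hj => ?_) fun _ _ _ => by positivity)
      (harm_le X)
    have h1 := mem_Ico.1 hj
    exact mem_Icc.2 ⟨h1.1, h1.2.le.trans (Nat.div_le_self _ _)⟩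
  have e9 := mul_le_mul_of_nonneg_left e4 (show 0 ≤ 2 * τ by positivity)
  have e10 := mul_le_mul_of_nonneg_left e8 (sq_nonneg τ)
  have e11 : τ ^ 2 ≤ 1 := pow_le_one₀ hτ0.le hτ1
  have e12 : τ ^ 2 * Real.log X ≤ τ * (c1 * ε / 32) * Real.log X :=
    mul_le_mul_of_nonneg_right (by nlinarith) hL
  have e13 : 0 ≤ τ * (c1 * ε) * Real.log X := by positivity
  linarith

end Pool.Agent.P.MP_a14ce1_nt.IV
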