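import Pool.Agent.P.MP_a14ce1_nt.IV.St

/-!
The low part of the decomposition does not correlate with f.
-/

open Finset Filter
open scoped ComplexConjugate

namespace Pool.Agent.P.MP_a14ce1_nt.IV

open Ch (rs om)
open Pool.Agent.P.MP_e30989_nt.W (UCM RMRH)

namespace LowP

variable {ι : Type} [Fintype ι] [DecidableEq ι] {P : ι → Finset ℕ}

theorem wt_nonneg (hP : ∀ k, 0 < rs (P k)) (a : ι → ℕ) :
    0 ≤ ∏ k, 1 / ((a k : ℝ) * rs (P k)) :=
  prod_nonneg fun k _ => by have := hP k; positivity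

theorem norm_Ew_le (hP : ∀ k, 0 < rs (P k)) (Φ : (ι → ℕ) → ℂ) :
    ‖Ew P Φ‖ ≤ Ew P fun a => ‖Φ a‖ := by
  refine (norm_sum_le _ _).trans (le_of_eq (sum_congr rfl fun a _ => ?_))
  rw [norm_smul, Real.norm_of_nonneg (wt_nonneg hP a), smul_eq_mul]

theorem Ew_mono (hP : ∀ k, 0 < rs (P k)) {Φ Ψ : (ι → ℕ) → ℝ}
    (h : ∀ a ∈ Fintype.piFinset P, Φ a ≤ Ψ a) : Ew P Φ ≤ Ew P Ψ :=
  sum_le_sum fun a ha => mul_le_mul_of_nonneg_left (h a ha) (wt_nonneg hP a)

theorem Ew_congr {Φ Ψ : (ι → ℕ) → ℂ} (h : ∀ a ∈ Fintype.piFinset P, Φ a = Ψ a) :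
    Ew P Φ = Ew P Ψ :=
  sum_congr rfl fun a ha => by rw [h a ha]

theorem Ew_sum {κ : Type} (s : Finset κ) (c : κ → ℝ) (Φ : κ → (ι → ℕ) → ℝ) :
    ∑ j ∈ s, c j * Ew P (Φ j) = Ew P fun a => ∑ j ∈ s, c j * Φ j a := by
  simp only [Ew, smul_eq_mul, mul_sum]
  rw [sum_comm]
  exact sum_congr rfl fun a _ => sum_congr rfl fun j _ => by ring

/-- the correlation as a real linear functional -/
noncomputable def LL (P : ι → Finset ℕ) (f : ℕ → ℂ) (S : Finset ι) (Λ : ℝ) (j : ℕ) :
    (ℕ → ℂ) →ₗ[ℝ] ℂ where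
  toFun u := Ew P fun a => wa (Λ / pS S a) j fun m => f (pS S a * m) * conj (u (pS S a * m))
  map_add' u v := by
    simp only [Ew, wa, Pi.add_apply, map_add, mul_add, sum_add_distrib, smul_add]
  map_smul' c u := by
    simp only [Ew, wa, Pi.smul_apply, RingHom.id_apply, smul_sum, Complex.real_smul, map_mul,
      Complex.conj_ofReal]
    exact sum_congr rfl fun a _ => sum_congr rfl fun m _ => by ring

theorem exists_atom {AA : Set (ℤ → ℂ)} {u : ℕ → ℂ} (hu : u ∈ Ax.hull (Ax.res AA))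
    (L : (ℕ → ℂ) →ₗ[ℝ] ℂ) : ∃ ψ ∈ AA, ‖L u‖ ≤ ‖L fun n : ℕ => ψ n‖ := by
  have h := (convexOn_univ_norm (E := ℂ)).comp_linearMap L
  obtain ⟨_, ⟨ψ, hψ, rfl⟩, h1⟩ := h.exists_ge_of_mem_convexHull (fun _ _ => Set.mem_univ _) hu
  exact ⟨ψ, hψ, h1⟩

theorem split (f : ℕ → ℂ) (R : ℝ) (j : ℕ) (c : Finset ι → ℝ) (M : Finset ι → (ι → ℕ) → ℕ → ℂ) :
    (Ew P fun a => wa (R / pS univ a) j fun m =>
      f (pS univ a * m) * conj (∑ T, (c T : ℂ) * M T a (pS univ a * m))) =
    ∑ T, c T • Ew P fun a => wa (R / pS univ a) j fun m =>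
      f (pS univ a * m) * conj (M T a (pS univ a * m)) := by
  simp only [Ew, wa, smul_sum, Complex.real_smul, map_mul, map_sum, mul_sum, Complex.conj_ofReal]
  rw [sum_comm]
  refine sum_congr rfl fun a _ => ?_
  rw [sum_comm]
  exact sum_congr rfl fun T _ => sum_congr rfl fun m _ => by ring

theorem pS_piecewise (T : Finset ι) (b a : ι → ℕ) :
    pS univ (T.piecewise b a) = pS T b * pS Tᶜ a := by
  unfold pS
  rw [← prod_mul_prod_compl T]
  congr 1
  · exact prod_congr rfl fun k hk => piecewise_eq_of_mem _ _ _ hk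
  · exact prod_congr rfl fun k hk => piecewise_eq_of_notMem _ _ _ (mem_compl.1 hk)

theorem pS_bounds {y : ℝ} (hy : 0 ≤ y) (hp : ∀ k, ∀ p ∈ P k, p.Prime ∧ y < p ∧ (p : ℝ) ≤ y ^ 2)
    {a : ι → ℕ} (ha : a ∈ Fintype.piFinset P) (S : Finset ι) :
    0 < pS S a ∧ y ^ S.card ≤ pS S a ∧ (pS S a : ℝ) ≤ y ^ (2 * S.card) := by
  have h := fun k => hp k _ (Fintype.mem_piFinset.1 ha k)
  refine ⟨prod_pos fun k _ => (h k).1.pos, ?_, ?_⟩
  · rw [pS, Nat.cast_prod, ← prod_const]
    exact prod_le_prod (fun _ _ => hy) fun k _ => (h k).2.1.le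
  · rw [pS, Nat.cast_prod, pow_mul, ← prod_const]
    exact prod_le_prod (fun _ _ => by positivity) fun k _ => (h k).2.2

/-- freezing the coordinates in T -/
theorem freeze {f : ℕ → ℂ} (hf : UCM f) {R : ℝ} (hR : 0 < R) {j : ℕ} (hj : 1 ≤ j)
    (hp : ∀ a ∈ Fintype.piFinset P, ∀ S, 0 < pS S a) (T : Finset ι) (M : (ι → ℕ) → ℕ → ℂ)
    (hM : ∀ a a', (∀ k ∈ T, a k = a' k) → M a = M a') {b : ι → ℕ} (hb : b ∈ Fintype.piFinset P) :
    ‖Ew P fun a => wa (R / pS univ (T.piecewise b a)) j fun m =>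
      f (pS univ (T.piecewise b a) * m) *
        conj (M (T.piecewise b a) (pS univ (T.piecewise b a) * m))‖ ≤
    ‖LL P f Tᶜ (R / pS T b) j fun n => M b (pS T b * n)‖ := by
  have h1 : (Ew P fun a => wa (R / pS univ (T.piecewise b a)) j fun m =>
      f (pS univ (T.piecewise b a) * m) *
        conj (M (T.piecewise b a) (pS univ (T.piecewise b a) * m))) =
      f (pS T b) * LL P f Tᶜ (R / pS T b) j fun n => M b (pS T b * n) := by
    have h2 : f (pS T b) * LL P f Tᶜ (R / pS T b) j (fun n => M b (pS T b * n)) =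
        Ew P fun a => wa (R / pS T b / pS Tᶜ a) j fun m =>
          f (pS T b) * f (pS Tᶜ a * m) * conj (M b (pS T b * (pS Tᶜ a * m))) := by
      simp only [LL, LinearMap.coe_mk, AddHom.coe_mk, Ew, wa, smul_sum, mul_sum, Complex.real_smul]
      exact sum_congr rfl fun a _ => sum_congr rfl fun m _ => by ring
    rw [h2]
    refine Ew_congr fun a ha => ?_
    rw [hM (T.piecewise b a) b fun k hk => piecewise_eq_of_mem _ _ _ hk, pS_piecewise,
      Nat.cast_mul, ← div_div]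
    unfold wa
    congr 1
    refine sum_congr rfl fun m hm => ?_
    have h3 := hp b hb T
    have h4 := hp a ha Tᶜ
    have hm0 : m ≠ 0 := by
      have h5 := (mem_cell.1 hm).1
      have h6 : (0 : ℝ) < j * (R / pS T b / pS Tᶜ a) := by positivity
      exact_mod_cast (h6.trans_le h5).ne'
    beta_reduce
    rw [mul_assoc (pS T b), hf.1.mul _ _ h3.ne' (Nat.mul_ne_zero h4.ne' hm0)]
  rw [h1, norm_mul]
  exact mul_le_of_le_one_left (norm_nonneg _) (hf.1.bd _)

end LowP

open LowP in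
theorem low (hH : S_Hull) (hE : S_Ew) : S_Low := by
  intro AA hA ⟨C, hC⟩
  have hX := hH _ hA
  refine ⟨C, fun f l hl hf hm n δ ε lam hδ hε hlam => ?_⟩
  have h4 : (0 : ℝ) < 4 ^ (10 * n) := by positivity
  filter_upwards [hC f l hl hf hm (Fin (10 * n)) δ (ε / 4 ^ (10 * n)) lam hδ (by positivity) hlam,
    hl (eventually_ge_atTop 1)] with X hEnd hX1
  intro P y R J M hdis hy hyC hp hrs hR1 hR2 hJ hM hMT
  have hX1' : (1 : ℝ) ≤ X := by exact_mod_cast hX1
  have hy1 : 1 ≤ y := (Real.one_le_rpow hX1' hδ.le).trans hy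
  have hy0 : 0 < y := by linarith
  have hR0 : 0 < R := lt_of_lt_of_le (by positivity) hR1
  have hP : ∀ k, 0 < rs (P k) := fun k => hlam.trans_le (hrs k)
  obtain ⟨E1, E2, -⟩ := hE _ P hP
  have hb := fun a (ha : a ∈ Fintype.piFinset P) => pS_bounds hy0.le hp ha
  have hlog : 0 ≤ Real.log X := Real.log_nonneg hX1'
  have key : ∀ T : Finset (Fin (10 * n)), T.card ≤ n →
      ∑ j ∈ Ico 1 J, (1 / (j : ℝ)) * ‖Ew P fun a => wa (R / pS univ a) j fun m =>
        f (pS univ a * m) * conj (M j T a (pS univ a * m))‖ ≤ ε / 4 ^ (10 * n) * Real.log X := by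
    intro T hT
    obtain ⟨S2, hS2, hc2⟩ : ∃ S2 ⊆ Tᶜ, S2.card = 2 * n :=
      exists_subset_card_eq (by rw [card_compl, Fintype.card_fin]; omega)
    calc _ ≤ ∑ j ∈ Ico 1 J, (1 / (j : ℝ)) * Ew P fun b => ‖Ew P fun a =>
          wa (R / pS univ (T.piecewise b a)) j fun m => f (pS univ (T.piecewise b a) * m) *
            conj (M j T (T.piecewise b a) (pS univ (T.piecewise b a) * m))‖ := by
          refine sum_le_sum fun j _ => mul_le_mul_of_nonneg_left ?_ (by positivity)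
          rw [E2 ℂ _ T]
          exact norm_Ew_le hP _
      _ ≤ Ew P fun _ => ε / 4 ^ (10 * n) * Real.log X := by
          rw [Ew_sum]
          refine Ew_mono hP fun b hb' => ?_
          obtain ⟨b0, -, b2⟩ := hb b hb' T
          have b0' : (0 : ℝ) < pS T b := by exact_mod_cast b0
          have b1' : (1 : ℝ) ≤ pS T b := by exact_mod_cast b0
          choose ψ hψ hle using fun j => exists_atom (hX.dil _ (hM j T b) _ b0)
            (LL P f Tᶜ (R / pS T b) j)
          refine le_trans (sum_le_sum fun j hj => mul_le_mul_of_nonneg_left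
            ((freeze hf hR0 (mem_Ico.1 hj).1 (fun a ha S => (hb a ha S).1) T (M j T) (hMT j T)
              hb').trans (hle j)) (by positivity)) ?_
          refine hEnd P Tᶜ S2 (R / pS T b) J ψ hdis
            (fun k p hk => ⟨(hp k p hk).1, hy.trans_lt (hp k p hk).2.1⟩) hrs hS2 (fun a ha => ?_)
            ((div_le_self hR0.le b1').trans hR2) hJ hψ
          obtain ⟨-, a1, a2⟩ := hb a ha S2
          rw [hc2] at a1 a2
          constructor
          · have : (X : ℝ) ^ C ≤ pS S2 a :=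
              (hyC.trans (pow_le_pow_right₀ hy1 (by omega))).trans a1
            exact_mod_cast this
          · rw [le_div_iff₀ b0']
            calc _ ≤ y ^ (2 * (2 * n)) * y ^ n * y ^ (2 * T.card) := by gcongr
              _ = y ^ (2 * (2 * n) + n + 2 * T.card) := by rw [pow_add, pow_add]
              _ ≤ y ^ (10 * n) := pow_le_pow_right₀ hy1 (by omega)
              _ ≤ R := hR1
      _ = _ := E1 ℝ _
  set c := Nil.ES.cf (Nil.ES.lo (Fin (10 * n)) n) with hc
  calc _ ≤ ∑ j ∈ Ico 1 J, (1 / (j : ℝ)) * ∑ T, |c T| * ‖Ew P fun a => wa (R / pS univ a) j fun m =>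
        f (pS univ a * m) * conj (M j T a (pS univ a * m))‖ := by
        refine sum_le_sum fun j _ => mul_le_mul_of_nonneg_left ?_ (by positivity)
        rw [split]
        refine (norm_sum_le _ _).trans (le_of_eq (sum_congr rfl fun T _ => ?_))
        rw [norm_smul, Real.norm_eq_abs]
    _ = ∑ T, |c T| * ∑ j ∈ Ico 1 J, (1 / (j : ℝ)) * ‖Ew P fun a => wa (R / pS univ a) j fun m =>
        f (pS univ a * m) * conj (M j T a (pS univ a * m))‖ := by
        simp only [mul_sum]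
        rw [sum_comm]
        exact sum_congr rfl fun T _ => sum_congr rfl fun j _ => by ring
    _ ≤ ∑ T, |c T| * (ε / 4 ^ (10 * n) * Real.log X) := by
        refine sum_le_sum fun T _ => ?_
        by_cases h0 : c T = 0
        · simp [h0]
        · exact mul_le_mul_of_nonneg_left (key T (Nil.ES.cf_lo_ne_zero h0)) (abs_nonneg _)
    _ ≤ 4 ^ (10 * n) * (ε / 4 ^ (10 * n) * Real.log X) := by
        rw [← sum_mul]
        refine mul_le_mul_of_nonneg_right ?_ (by positivity)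
        simpa using Nil.ES.sum_abs_cf_le (Nil.ES.lo (Fin (10 * n)) n)
    _ = _ := by field_simp

end Pool.Agent.P.MP_a14ce1_nt.IV
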