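import Pool.Agent.P.MP_a14ce1_nt.IV.TiltA

/-! The tilted step: choice of the parameters. -/

open Finset Filter

namespace Pool.Agent.P.MP_a14ce1_nt.IV

open Ch (rs om)
open Pool.Agent.P.MP_e30989_nt.W (UCM RMRH)

namespace TiltP

theorem arith {c C β x d D Pm lH lP η r n Q : ℝ} (hc : 0 < c) (hc1 : c ≤ 1) (hC : 0 < C)
    (hβ : 0 < β) (h1 : β * (140 * C + 700) ≤ c / 64 * (c / 8)) (hx : 1 ≤ x) (hx' : 1 ≤ β * x)
    (hd : d = (1 - c) * x) (hPm : 0 < Pm) (hr : 1 ≤ r) (hrP : r / Pm ≤ β) (hD : D ≤ d + C * (r / Pm * (1 + x) + 1))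
    (hH : lH ≤ 2 * β * x) (hP : lP ≤ 2 * β * x) (hη0 : 0 ≤ η) (hη : η ≤ 7 * C * β * x) (hn : 0 ≤ n)
    (hQ : 1 / Q ≤ β)
    (h : x - D - 30 * (1 / Pm * (1 + x) + lH + lP + 1) ≤ 2 * (c / 64) * (1 + x) + 2 * (c / 16 * x) +
      1 / (c / 64) * (10 * n * (2 * η + 32 * (1 / Pm) * (1 + x)) / (n + 1) + 1 / Q * (1 + x))) :
    False := by
  have a1 : 1 / Pm ≤ β := (div_le_div_of_nonneg_right hr hPm.le).trans hrP
  have a0 : 0 < 1 / Pm := by positivity
  have a2 : 1 / Pm * (1 + x) ≤ β * (2 * x) := by gcongr; linarith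
  have a3 : r / Pm * (1 + x) ≤ β * (2 * x) := by gcongr; linarith
  have a4 : 1 / Q * (1 + x) ≤ β * (2 * x) := by gcongr; linarith
  have a5 : 10 * n * (2 * η + 32 * (1 / Pm) * (1 + x)) / (n + 1) ≤
      10 * (2 * η + 32 * (1 / Pm * (1 + x))) := by
    rw [div_le_iff₀ (by linarith), mul_assoc 32]
    have : 0 ≤ 2 * η + 32 * (1 / Pm * (1 + x)) := by positivity
    nlinarith
  have a6 : 1 / (c / 64) * (10 * n * (2 * η + 32 * (1 / Pm) * (1 + x)) / (n + 1) +
      1 / Q * (1 + x)) ≤ c / 8 * x := by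
    rw [one_div_mul_eq_div, div_le_iff₀ (by positivity)]
    have := mul_le_mul_of_nonneg_right h1 (show 0 ≤ x by linarith)
    nlinarith
  have a7 : C * (r / Pm * (1 + x) + 1) ≤ C * (3 * (β * x)) := by gcongr; linarith
  have a8 : β * (140 * C + 700) * x ≤ c / 512 * x := by
    gcongr
    nlinarith
  have a9 : 0 < c * x := by positivity
  have b1 : 0 < C * (β * x) := by positivity
  nlinarith

theorem ev_log (k : ℕ) {δ : ℝ} (hδ : 0 < δ) (K : ℝ) : ∀ᶠ X : ℕ in atTop,
    2 ≤ X ∧ K ≤ Real.log X ∧ Real.log X ^ k ≤ (X : ℝ) ^ δ := by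
  have h1 := (isLittleO_log_rpow_rpow_atTop (k : ℝ) hδ).bound one_pos
  have h2 := Real.tendsto_log_atTop.eventually_ge_atTop K
  filter_upwards [eventually_ge_atTop 2, tendsto_natCast_atTop_atTop.eventually h1,
    tendsto_natCast_atTop_atTop.eventually h2] with X a b c
  refine ⟨a, c, ?_⟩
  rw [Real.rpow_natCast, one_mul, Real.norm_of_nonneg (by positivity),
    Real.norm_of_nonneg (by positivity)] at b
  exact b

end TiltP

open TiltP

theorem tilt (h1 : S_Sec1) (hW1 : S_W1) (hW2 : S_W2) (hE : S_Ew) : S_TiltA := by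
  intro XX hX ⟨CW, hES⟩ ⟨CL, hL⟩ f l hl hf hR c0 hc0
  obtain ⟨C, s0, hC, h1⟩ := h1
  set c := min c0 1 with hc
  have c1 : 0 < c := lt_min hc0 one_pos
  have c2 : c ≤ 1 := min_le_right _ _
  set β : ℝ := c / 64 * (c / 8) / (140 * C + 700) with hβ
  have β0 : 0 < β := by positivity
  have β1 : β * (140 * C + 700) ≤ c / 64 * (c / 8) := le_of_eq (div_mul_cancel₀ _ (by positivity))
  have β2 : β ≤ 1 / 2 := by nlinarith
  refine ⟨β, β0, fun κ κ0 κ1 => ?_⟩
  set r : ℕ := ⌈1 / β⌉₊ with hr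
  have r0 : 1 ≤ r := Nat.ceil_pos.2 (by positivity)
  have r1 : (1 : ℝ) ≤ r := by exact_mod_cast r0
  have r2 : 1 / (r : ℝ) ≤ β := by
    rw [div_le_iff₀' (by positivity), ← div_le_iff₀ β0]; exact Nat.le_ceil _
  set L : ℕ := r ^ 2 with hLd
  set E : ℕ := 2 * r + (2 * CW + 2) with hEd
  have E0 : (1 : ℝ) ≤ E := by exact_mod_cast (show 1 ≤ E by omega)
  set δ0 : ℝ := κ / (2 * E * 2 ^ L) with hδ0
  have δ1 : 0 < δ0 := by positivity
  set n : ℕ := ⌈CL / δ0⌉₊ + 1 with hn
  have n0 : (CL : ℝ) ≤ δ0 * n := by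
    rw [← div_le_iff₀' δ1]; push_cast [hn]; linarith [Nat.le_ceil (CL / δ0)]
  set j0 : ℕ := 20 * n with hj0
  have j1 : 1 ≤ j0 := by omega
  have j2 : (1 : ℝ) ≤ j0 := by exact_mod_cast j1
  set lam : ℝ := 1 / (2 * (j0 * 2 ^ L)) with hlam
  set A : ℝ := E * (j0 * 2 ^ L) * Real.log 2 with hA
  have l2 : 0 < Real.log 2 := Real.log_pos one_lt_two
  have A0 : 0 < A := by positivity
  filter_upwards [hL f l hl hf hR n (min δ0 (1 / (10 * n + 1))) (c / 16) lam (by positivity)
    (by positivity) (by positivity), hl (ev_log (CW + 1) δ1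
      (2 + 2 ^ (10 * n) + 2 * (j0 * 2 ^ L) + r / β + (s0 + 1) * A / κ))] with X hLX ⟨X2, hK, hlog⟩
    H hH1 hH2 hApp
  set x := Real.log X with hx
  have X1 : (1 : ℝ) ≤ X := by exact_mod_cast (show 1 ≤ X by omega)
  have X0 : (0 : ℝ) < X := by linarith
  have p1 : (0 : ℝ) < 2 ^ (10 * n) := by positivity
  have p2 : (0 : ℝ) < 2 * (j0 * 2 ^ L) := by positivity
  have p3 : 0 < r / β := by positivity
  have p4 : 0 < (s0 + 1) * A / κ := by positivity
  have x2 : 2 ≤ x := by linarith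
  have x3 : (r : ℝ) ≤ β * x := by rw [← div_le_iff₀' β0]; linarith
  set s : ℕ := ⌊κ * x / A⌋₊ with hs
  have s1 : (s0 : ℝ) + 1 ≤ κ * x / A := by
    rw [le_div_iff₀ A0, ← div_le_iff₀' κ0]; linarith
  have s2 : s0 + 1 ≤ s := Nat.le_floor (by exact_mod_cast s1)
  have s3 : (s : ℝ) * A ≤ κ * x := by rw [← le_div_iff₀ A0]; exact Nat.floor_le (by positivity)
  have s4 : κ * x ≤ 2 * s * A := by
    rw [← div_le_iff₀ A0]
    have : (1 : ℝ) ≤ s := by exact_mod_cast (show 1 ≤ s by omega)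
    linarith [Nat.lt_floor_add_one (κ * x / A)]
  set Pm : ℝ := 2 ^ (s * j0 * 2 ^ L) with hPm
  have P0 : 0 < Pm := by positivity
  have mono : ∀ {a : ℕ}, a ≤ s * (j0 * 2 ^ L) → (2 : ℝ) ^ a ≤ Pm := fun h =>
    pow_le_pow_right₀ one_le_two (by rw [mul_assoc]; exact h)
  have L1 : 1 ≤ 2 ^ L := Nat.one_le_two_pow
  have P2 : 2 ≤ Pm := by
    have := mono (a := 1) (Nat.mul_pos (by omega) (Nat.mul_pos j1 L1))
    rwa [pow_one] at this
  have P1 : 1 ≤ Pm := by linarith
  have lP : E * Real.log Pm ≤ κ * x := by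
    rw [hPm, Real.log_pow]; push_cast
    refine le_trans (le_of_eq ?_) s3
    rw [hA]; ring
  have lP' : Real.log Pm ≤ κ * x := le_trans (le_mul_of_one_le_left (Real.log_nonneg P1) E0) lP
  have PE : Pm ^ E ≤ H := by
    refine le_trans ?_ hH1
    rw [← Real.log_le_log_iff (by positivity) (by positivity), Real.log_pow, Real.log_rpow X0]
    exact lP
  have HX : H ≤ X := hH2.trans (by
    conv_rhs => rw [← Real.rpow_one X]
    exact Real.rpow_le_rpow_of_exponent_le X1 (by linarith))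
  have PX : Pm ≤ X := ((le_self_pow₀ P1 (by omega)).trans PE).trans HX
  have y0 : (X : ℝ) ^ δ0 ≤ 2 ^ (s * j0) := by
    rw [← Real.log_le_log_iff (by positivity) (by positivity), Real.log_pow, Real.log_rpow X0,
      hδ0, div_mul_eq_mul_div, div_le_iff₀ (by positivity)]
    refine s4.trans (le_of_eq ?_)
    rw [hA]; push_cast; ring
  have xy : x ≤ (X : ℝ) ^ δ0 := (le_self_pow₀ (by linarith) (by omega)).trans hlog
  obtain ⟨ρ, Ψ, Ψ1, J, q1, q2, q3, q4, q5, q6, q7, q8⟩ := h1 XX hX f hf s j0 L r X Pm H _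
    (by omega) (by omega) j1 (Nat.one_le_pow _ _ r0) r0 rfl
    ((pow_le_pow_right₀ P1 (by omega)).trans PE)
    (hApp.mono (d' := (1 - c) * x) (by gcongr; exact min_le_left _ _))
  obtain ⟨g, g1, g2⟩ := q8 (10 * n) (by omega)
  have ρ1 : Pm ^ (2 * CW + 2) ≤ ρ := by
    refine le_of_mul_le_mul_right (le_trans (le_of_eq ?_) (PE.trans q1)) (pow_pos P0 (2 * r))
    rw [hEd, pow_add Pm (2 * r), mul_comm]
  have ρ2 : Pm ^ 2 ≤ ρ := (pow_le_pow_right₀ P1 (by omega)).trans ρ1
  have ρ3 : Pm ≤ ρ := by nlinarith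
  have ρ0 : 0 < ρ := by linarith
  have ρ4 : ρ ≤ H := (le_mul_of_one_le_right ρ0.le (one_le_pow₀ P1)).trans q2
  set y : ℝ := 2 ^ (s * J) with hy
  have y1 : (X : ℝ) ^ δ0 ≤ y := y0.trans (pow_le_pow_right₀ one_le_two (Nat.mul_le_mul_left _ q6))
  set P : Fin (10 * n) → Finset ℕ := fun k => grp s (g k) with hP
  have m1 : ∀ k, ∀ p ∈ P k, p.Prime ∧ (2 : ℝ) ^ (s * g k) < p ∧ (p : ℝ) ≤ 2 ^ (s * (g k + 1)) :=
    fun k p hp => by
      obtain ⟨a, b, c⟩ := V.mem_PP.1 hp
      exact ⟨a, by exact_mod_cast b, by exact_mod_cast c⟩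
  have m2 : ∀ k, ∀ p ∈ P k, y < p := fun k p hp =>
    (pow_le_pow_right₀ one_le_two (Nat.mul_le_mul_left _ (g2 k).1)).trans_lt (m1 k p hp).2.1
  have m3 : ∀ k, ∀ p ∈ P k, (p : ℝ) ≤ Pm := fun k p hp =>
    (m1 k p hp).2.2.trans (mono (Nat.mul_le_mul_left _ (by have := (g2 k).2.1; omega)))
  have m4 : ∀ k, lam ≤ rs (P k) := fun k => by
    have a1 := (g2 k).2.2.1
    have a2 : (2 : ℝ) * J ≤ j0 * 2 ^ L := by exact_mod_cast q7
    have a3 : 0 ≤ rs (P k) := sum_nonneg fun _ _ => by positivity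
    rw [hlam, div_le_iff₀' p2]
    exact a1.trans (mul_le_mul_of_nonneg_right (by linarith) a3)
  have dis : ∀ k k', k ≠ k' → Disjoint (P k) (P k') := fun k k' h => grp_disjoint s (g1.ne h)
  set am : ℝ := ∏ k, 2 ^ (s * g k) with ham
  have am0 : 0 < am := by positivity
  have am1 : ∀ a ∈ Fintype.piFinset P, am ≤ pS univ a ∧ (pS univ a : ℝ) ≤ am * Pm := fun a h => by
    have h' := fun k => (m1 k _ (Fintype.mem_piFinset.1 h k)).2
    rw [pS, Nat.cast_prod]
    refine ⟨prod_le_prod (fun _ _ => by positivity) fun k _ => (h' k).1.le,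
      (prod_le_prod (fun _ _ => by positivity) fun k _ => (h' k).2).trans ?_⟩
    simp only [mul_add, mul_one, pow_add, prod_mul_distrib, prod_const, card_univ,
      Fintype.card_fin, ← pow_mul]
    exact mul_le_mul_of_nonneg_left (mono (Nat.mul_le_mul_left _ (by nlinarith))) am0.le
  set R : ℝ := ρ * am / Pm with hRd
  set J1 : ℕ := ⌊X * Pm / ρ⌋₊ with hJ1
  have J2 : 1 ≤ X * Pm / ρ := by
    rw [le_div_iff₀ ρ0]; nlinarith
  have J3 : 1 ≤ J1 := Nat.le_floor (by exact_mod_cast J2)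
  have J4 : (J1 : ℝ) ≤ X * Pm / ρ := Nat.floor_le (by positivity)
  have J5 : X * Pm / ρ ≤ 2 * J1 := by
    have : (1 : ℝ) ≤ J1 := by exact_mod_cast J3
    linarith [Nat.lt_floor_add_one (X * Pm / ρ)]
  have J6 : J1 ≤ X := by
    have : (J1 : ℝ) ≤ X := J4.trans (by rw [div_le_iff₀ ρ0]; gcongr)
    exact_mod_cast this
  have xP : x ≤ Pm := (xy.trans y0).trans (mono (Nat.mul_le_mul_left _ (Nat.le_mul_of_pos_right _ L1)))
  have key := core hW1 hW2 hE hX hf (P := P) (X := X) (J := J1) (l0 := n) (R := R) (H := H)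
    (τ := c / 64) (e := c / 16 * x) (Q := x) (fun k => lt_of_lt_of_le (by positivity) (m4 k))
    (fun k p hp => ⟨(m1 k p hp).1.pos, m3 k p hp⟩) P2 (by positivity) (by linarith) q3 q4 J3 J6
    (fun a h => by
      obtain ⟨a1, a2⟩ := am1 a h
      have a0 : (0 : ℝ) < pS univ a := by linarith
      have b1 : R / pS univ a ≤ 1 / Pm * ρ := by
        rw [hRd, div_le_iff₀ a0, one_div_mul_eq_div, div_mul_eq_mul_div]; gcongr
      have b2 : ρ / Pm ^ 2 ≤ R / pS univ a := by
        calc ρ / Pm ^ 2 = R / (am * Pm) := by rw [hRd]; field_simp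
          _ ≤ _ := by gcongr
      refine ⟨((one_le_div (by positivity)).2 ρ2).trans b2, b1, ?_, ?_, b1.trans ?_⟩
      · calc _ ≤ X * Pm / ρ * (1 / Pm * ρ) := by gcongr
          _ = X := by field_simp
      · calc (X : ℝ) = Pm * (X * Pm / ρ * (ρ / Pm ^ 2)) := by field_simp
          _ ≤ Pm * (2 * J1 * (R / pS univ a)) := by gcongr
          _ = _ := by ring
      · rw [one_div_mul_eq_div]; exact (div_le_self ρ0.le P1).trans ρ4)
    (fun k => (g2 k).2.2.2)
    (fun j => hES x x2 _ P Pm R j n (by rw [Fintype.card_fin]; omega)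
      (by rw [Fintype.card_fin]; linarith) dis
      (fun k p hp => ⟨(m1 k p hp).1, (((pow_le_pow_right₀ (by linarith) (Nat.le_succ _)).trans
        hlog).trans y1).trans (m2 k p hp).le, m3 k p hp⟩)
      (lP'.trans (by nlinarith))
      (fun k => by
        refine le_trans ?_ (mul_le_mul_of_nonneg_left (m4 k) (by linarith))
        rw [hlam, mul_one_div, le_div_iff₀ p2]; linarith)
      fun a h => by
        calc _ ≤ am * Pm * (Pm * Pm) ^ CW := by gcongr; exact (am1 a h).2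
          _ = Pm ^ (2 * CW + 2) * am / Pm := by field_simp; ring
          _ ≤ R := by rw [hRd]; gcongr)
    fun M M1 M2 => hLX P y R J1 M dis
      ((Real.rpow_le_rpow_of_exponent_le X1 (min_le_left _ _)).trans y1)
      (by
        refine le_trans ?_ (pow_le_pow_left₀ (by positivity) y1 n)
        rw [← Real.rpow_natCast, ← Real.rpow_natCast, ← Real.rpow_mul X0.le]
        exact Real.rpow_le_rpow_of_exponent_le X1 n0)
      (fun k p hp => ⟨(m1 k p hp).1, m2 k p hp, (m1 k p hp).2.2.trans (by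
        rw [hy, ← pow_mul, mul_assoc]
        exact pow_le_pow_right₀ one_le_two (Nat.mul_le_mul_left _
          (by have := (g2 k).2.1; omega)))⟩) m4
      (by
        have a1 : y ^ (10 * n) ≤ am := by
          have := prod_le_prod (s := univ) (f := fun _ : Fin (10 * n) => y)
            (fun _ _ => by positivity) fun k _ =>
              pow_le_pow_right₀ (one_le_two (α := ℝ)) (Nat.mul_le_mul_left s (g2 k).1)
          rwa [prod_const, card_univ, Fintype.card_fin] at this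
        refine a1.trans ?_
        rw [hRd, le_div_iff₀ P0, mul_comm]; gcongr)
      (by
        have a1 : am ≤ (X : ℝ) ^ (10 * n) := by
          have := prod_le_prod (s := univ) (g := fun _ : Fin (10 * n) => (X : ℝ))
            (f := fun k => 2 ^ (s * g k)) (fun _ _ => by positivity) fun k _ =>
              (mono (Nat.mul_le_mul_left s (by have := (g2 k).2.1; omega))).trans PX
          rwa [prod_const, card_univ, Fintype.card_fin] at this
        calc R ≤ ρ * am := div_le_self (by positivity) P1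
          _ ≤ X * X ^ (10 * n) := by gcongr; exact ρ4.trans HX
          _ = (X : ℝ) ^ (((10 * n + 1 : ℕ)) : ℝ) := by rw [Real.rpow_natCast]; ring
          _ ≤ _ := by
            refine Real.rpow_le_rpow_of_exponent_le X1 ?_
            rw [le_div_iff₀' (by positivity), ← le_div_iff₀ (by positivity)]
            push_cast
            exact min_le_right _ _) J6 M1 M2
  have rP : r / Pm ≤ β := by rw [div_le_iff₀ P0]; exact x3.trans (by gcongr)
  have iP : 1 / Pm ≤ β := (div_le_div_of_nonneg_right r1 P0.le).trans rP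
  have sL : √(L : ℝ) = r := by rw [hLd]; push_cast; exact Real.sqrt_sq (by positivity)
  have kx : κ * x ≤ β * x := by gcongr
  rw [Fintype.card_fin, Nat.cast_mul, Nat.cast_ofNat, sL] at key
  refine arith c1 c2 hC β0 β1 (by linarith) (r1.trans x3) rfl P0 r1 rP q5 ?_ ?_ ?_ ?_
    (Nat.cast_nonneg n) ?_ key
  · refine (Real.log_le_log (by linarith) hH2).trans ?_
    rw [Real.log_rpow X0]; linarith
  · rw [Real.log_mul two_ne_zero P0.ne']
    linarith [Real.log_two_lt_d9]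
  · have := Real.log_nonneg P1
    positivity
  · calc _ ≤ C * ((β + β + β) * (2 * x) + β * x) := by gcongr <;> linarith
      _ = _ := by ring
  · rw [div_le_iff₀ (by linarith)]; linarith

end Pool.Agent.P.MP_a14ce1_nt.IV
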