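import Pool.Agent.P.MP_a14ce1_nt.IV.St

/-! Grids: the hull of the atoms, bad cells, cell sums, change of grid. -/

open Finset Filter
open scoped ComplexConjugate

namespace Pool.Agent.P.MP_a14ce1_nt.IV

namespace GridP

theorem hull_ind {A S : Set (ℕ → ℂ)} (h1 : ∀ a ∈ A, a ∈ S)
    (h2 : ∀ φ ∈ S, ∀ ψ ∈ S, ∀ a b : ℝ, 0 ≤ a → 0 ≤ b → a + b = 1 → a • φ + b • ψ ∈ S) :
    ∀ φ ∈ Ax.hull A, φ ∈ S :=
  fun _ hφ => convexHull_min (𝕜 := ℝ) (fun a ha => h1 a ha)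
    (fun φ hφ ψ hψ a b ha hb hab => h2 φ hφ ψ hψ a b ha hb hab) hφ

theorem sub_hull {A : Set (ℕ → ℂ)} {a : ℕ → ℂ} (h : a ∈ A) : a ∈ Ax.hull A :=
  subset_convexHull ℝ A h

theorem cvx (A : Set (ℕ → ℂ)) : Convex ℝ (Ax.hull A) := convex_convexHull ℝ A

theorem zero_mem {A : Set (ℕ → ℂ)} (h : Ax.At A) : (0 : ℕ → ℂ) ∈ Ax.hull A := by
  obtain ⟨a, ha⟩ := h.ne
  have h1 := cvx A (sub_hull ha) (sub_hull (h.rot a ha (-1) (by simp)))
    (show (0 : ℝ) ≤ 1 / 2 by norm_num) (show (0 : ℝ) ≤ 1 / 2 by norm_num) (by norm_num)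
  convert h1 using 1
  funext n
  simp

theorem rot_mem {A : Set (ℕ → ℂ)} (h : Ax.At A) {w : ℂ} (hw : ‖w‖ = 1) :
    ∀ φ ∈ Ax.hull A, (fun n => w * φ n) ∈ Ax.hull A := by
  refine hull_ind (S := {φ | (fun n => w * φ n) ∈ Ax.hull A})
    (fun a ha => sub_hull (h.rot a ha w hw)) fun φ hφ ψ hψ a b ha hb hab => ?_
  have h1 := cvx A hφ hψ ha hb hab
  show (fun n => w * (a • φ + b • ψ) n) ∈ Ax.hull A
  convert h1 using 1
  funext n
  simp only [Pi.add_apply, Pi.smul_apply, Complex.real_smul]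
  ring

theorem cell_inv_le {ρ : ℝ} (hρ : 1 ≤ ρ) {j : ℕ} (hj : 1 ≤ j) :
    ∑ n ∈ cell ρ j, 1 / (n : ℝ) ≤ 2 * (1 / (j : ℝ)) := by
  have hj' : (1 : ℝ) ≤ j := by exact_mod_cast hj
  have h1 : ∀ n ∈ cell ρ j, 1 / (n : ℝ) ≤ 1 / (j * ρ) := fun n hn =>
    one_div_le_one_div_of_le (by positivity) (mem_cell.1 hn).1
  have h2 := card_cell_le (show 0 ≤ ρ by linarith) j
  calc _ ≤ ((cell ρ j).card : ℝ) * (1 / (j * ρ)) := by
        simpa using sum_le_card_nsmul _ _ _ h1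
    _ ≤ (2 * ρ) * (1 / (j * ρ)) := by gcongr; linarith
    _ = _ := by field_simp

theorem cell_err {ρ B : ℝ} {ψ : ℕ → ℝ} (hρ : 1 ≤ ρ) (hψ : ∀ m, |ψ m| ≤ B) {j : ℕ} (hj : 1 ≤ j) :
    |1 / (j : ℝ) * wa ρ j ψ - ∑ m ∈ cell ρ j, ψ m / m| ≤ 2 * B * (1 / j - 1 / ((j : ℝ) + 1)) := by
  have hj' : (1 : ℝ) ≤ j := by exact_mod_cast hj
  have hB : 0 ≤ B := (abs_nonneg _).trans (hψ 0)
  have hρ0 : 0 < ρ := by linarith
  have hd : 0 ≤ 1 / (j * ρ) - 1 / (((j : ℝ) + 1) * ρ) :=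
    sub_nonneg.2 (one_div_le_one_div_of_le (by positivity) (by nlinarith))
  have h1 : ∀ m ∈ cell ρ j, |1 / (j : ℝ) * (1 / ρ * ψ m) - ψ m / m| ≤
      B * (1 / (j * ρ) - 1 / (((j : ℝ) + 1) * ρ)) := by
    intro m hm
    obtain ⟨h2, h3⟩ := mem_cell.1 hm
    have h4 : 1 / (m : ℝ) ≤ 1 / (j * ρ) := one_div_le_one_div_of_le (by positivity) h2
    have h5 : 1 / (((j : ℝ) + 1) * ρ) ≤ 1 / (m : ℝ) :=
      one_div_le_one_div_of_le (lt_of_lt_of_le (by positivity) h2) h3.le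
    have h6 : 1 / (j : ℝ) * (1 / ρ * ψ m) - ψ m / m = ψ m * (1 / (j * ρ) - 1 / m) := by
      field_simp
    rw [h6, abs_mul, abs_of_nonneg (sub_nonneg.2 h4)]
    exact mul_le_mul (hψ m) (by linarith) (sub_nonneg.2 h4) hB
  have h2 := card_cell_le hρ0.le j
  rw [wa, smul_eq_mul, mul_sum, mul_sum, ← sum_sub_distrib]
  refine (abs_sum_le_sum_abs _ _).trans ?_
  calc _ ≤ ((cell ρ j).card : ℝ) * (B * (1 / (j * ρ) - 1 / (((j : ℝ) + 1) * ρ))) := by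
        simpa using sum_le_card_nsmul _ _ _ h1
    _ ≤ (2 * ρ) * (B * (1 / (j * ρ) - 1 / (((j : ℝ) + 1) * ρ))) := by
        gcongr; linarith
    _ = _ := by field_simp

theorem log_succ_le (X : ℕ) : 1 + Real.log ((X + 1 : ℕ) : ℝ) ≤ 2 * (1 + Real.log X) := by
  rcases Nat.eq_zero_or_pos X with rfl | hX
  · simp
  · have h1 : (1 : ℝ) ≤ X := by exact_mod_cast hX
    have h2 : Real.log ((X + 1 : ℕ) : ℝ) ≤ Real.log (2 * X) :=
      Real.log_le_log (by positivity) (by push_cast; linarith)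
    rw [Real.log_mul (by norm_num) (by linarith)] at h2
    have h3 := Real.log_nonneg h1
    have h4 : Real.log 2 ≤ 1 := by
      have := Real.log_le_sub_one_of_pos (show (0 : ℝ) < 2 by norm_num)
      linarith
    linarith

open Classical in
theorem bad_mass (hB : S_Bad) {ρ' s t : ℝ} (X : ℕ) (h1 : 1 ≤ ρ') (hs : 0 < s) (hst : s ≤ t)
    (ht : t ≤ 1 / 2) :
    ∑ n ∈ (Icc 1 X).filter (fun n : ℕ => ¬ good s ⌊(n : ℝ) / ρ'⌋₊), 1 / (n : ℝ) ≤
      8 * t * (1 + Real.log X) := by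
  have hρ : 0 < ρ' := by linarith
  have hmap : ∀ n ∈ (Icc 1 X).filter (fun n : ℕ => ¬ good s ⌊(n : ℝ) / ρ'⌋₊),
      ⌊(n : ℝ) / ρ'⌋₊ ∈ (Ico 1 (X + 1)).filter (fun j => ¬ good s j) := by
    intro n hn
    obtain ⟨h2, h3⟩ := mem_filter.1 hn
    refine mem_filter.2 ⟨mem_Ico.2 ⟨?_, ?_⟩, h3⟩
    · by_contra h4
      have h5 : ⌊(n : ℝ) / ρ'⌋₊ = 0 := by omega
      exact h3 ⟨0, by rw [h5]; simp, by rw [h5]; simp; linarith⟩
    · have h4 : (n : ℝ) / ρ' ≤ X :=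
        (div_le_self (by positivity) h1).trans (by exact_mod_cast (mem_Icc.1 h2).2)
      have h5 := Nat.floor_le_floor h4
      rw [Nat.floor_natCast] at h5
      omega
  rw [← sum_fiberwise_of_maps_to hmap]
  have h2 := hB s (X + 1) hs (hst.trans ht)
  have h3 := log_succ_le X
  have h4 : 0 ≤ Real.log ((X + 1 : ℕ) : ℝ) := Real.log_natCast_nonneg _
  calc _ ≤ ∑ j ∈ (Ico 1 (X + 1)).filter (fun j => ¬ good s j), 2 * (1 / (j : ℝ)) := by
        refine sum_le_sum fun j hj => le_trans ?_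
          (cell_inv_le h1 (mem_Ico.1 (mem_filter.1 hj).1).1)
        exact sum_le_sum_of_subset_of_nonneg
          (fun n hn => (mem_cell_floor hρ).2 (mem_filter.1 hn).2) fun _ _ _ => by positivity
    _ ≤ 2 * (2 * s * (1 + Real.log ((X + 1 : ℕ) : ℝ))) := by
        rw [← mul_sum]; gcongr
    _ ≤ 2 * (2 * t * (2 * (1 + Real.log X))) := by
        have : 0 < t := by linarith
        gcongr
    _ = _ := by ring

end GridP

open GridP

theorem hull : S_Hull := by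
  intro A h
  refine ⟨cvx A, zero_mem h, ?_, ?_, ?_, ?_⟩
  · refine hull_ind (S := {φ | ∀ n, ‖φ n‖ ≤ 1}) h.bd fun φ hφ ψ hψ a b ha hb hab n => ?_
    have h1 : ‖φ n‖ ≤ 1 := hφ n
    have h2 : ‖ψ n‖ ≤ 1 := hψ n
    calc ‖(a • φ + b • ψ) n‖ ≤ ‖a • φ n‖ + ‖b • ψ n‖ := norm_add_le _ _
      _ = a * ‖φ n‖ + b * ‖ψ n‖ := by
        rw [norm_smul, norm_smul, Real.norm_of_nonneg ha, Real.norm_of_nonneg hb]
      _ ≤ a * 1 + b * 1 := by gcongr
      _ = 1 := by linarith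
  · intro φ hφ z hz
    obtain ⟨w, hw, hzw⟩ : ∃ w : ℂ, ‖w‖ = 1 ∧ z = (‖z‖ : ℝ) * w := by
      rcases eq_or_ne z 0 with rfl | h0
      · exact ⟨1, by simp, by simp⟩
      · have h1 : ((‖z‖ : ℝ) : ℂ) ≠ 0 := by exact_mod_cast norm_ne_zero_iff.2 h0
        exact ⟨z / (‖z‖ : ℝ), by simp [h0], by field_simp⟩
    have h1 := (cvx A).smul_mem_of_zero_mem (zero_mem h) (rot_mem h hw φ hφ)
      (t := ‖z‖) ⟨norm_nonneg z, hz⟩
    convert h1 using 1
    funext n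
    simp only [Pi.smul_apply, Complex.real_smul]
    rw [← mul_assoc, ← hzw]
  · intro φ hφ d hd
    refine hull_ind (S := {φ | (fun n => φ (d * n)) ∈ Ax.hull A})
      (fun a ha => sub_hull (h.dil a ha d hd)) (fun φ hφ ψ hψ a b ha hb hab => ?_) φ hφ
    exact cvx A hφ hψ ha hb hab
  · intro φ hφ d hd
    refine hull_ind (S := {φ | ∃ ψ ∈ Ax.hull A, ∀ n, ψ (d * n) = φ n})
      (fun a ha => ?_) (fun φ hφ ψ hψ a b ha hb hab => ?_) φ hφ
    · obtain ⟨b, hb, h1⟩ := h.und a ha d hd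
      exact ⟨b, sub_hull hb, h1⟩
    · obtain ⟨φ', h1, h2⟩ := hφ
      obtain ⟨ψ', h3, h4⟩ := hψ
      refine ⟨_, cvx A h1 h3 ha hb hab, fun n => ?_⟩
      simp only [Pi.add_apply, Pi.smul_apply, h2, h4]

theorem bad : S_Bad := by
  classical
  intro t J ht ht2
  have key : ∀ j ∈ (Ico 1 J).filter (fun j => ¬ good t j),
      (j : ℝ) * t < ((⌊(j : ℝ) * t⌋₊ + 1 : ℕ) : ℝ) ∧
        ((⌊(j : ℝ) * t⌋₊ + 1 : ℕ) : ℝ) < ((j : ℝ) + 1) * t := by
    intro j hj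
    refine ⟨by push_cast; exact Nat.lt_floor_add_one _, ?_⟩
    by_contra h1
    exact (mem_filter.1 hj).2 ⟨⌊(j : ℝ) * t⌋₊, Nat.floor_le (by positivity), by
      push_cast at h1; exact not_lt.1 h1⟩
  have hinj : Set.InjOn (fun j : ℕ => ⌊(j : ℝ) * t⌋₊ + 1)
      ((Ico 1 J).filter (fun j => ¬ good t j) : Finset ℕ) := by
    have aux : ∀ j ∈ (Ico 1 J).filter (fun j => ¬ good t j),
        ∀ j' ∈ (Ico 1 J).filter (fun j => ¬ good t j), j < j' →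
          ⌊(j : ℝ) * t⌋₊ + 1 ≠ ⌊(j' : ℝ) * t⌋₊ + 1 := by
      intro j hj j' hj' hlt he
      have h1 := (key j hj).2
      have h2 := (key j' hj').1
      have h3 : (j : ℝ) + 1 ≤ j' := by exact_mod_cast hlt
      rw [he] at h1
      nlinarith
    intro j hj j' hj' he
    rcases lt_trichotomy j j' with h | h | h
    · exact absurd he (aux j hj j' hj' h)
    · exact h
    · exact absurd he.symm (aux j' hj' j hj h)
  calc _ ≤ ∑ j ∈ (Ico 1 J).filter (fun j => ¬ good t j),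
        2 * t * (1 / ((⌊(j : ℝ) * t⌋₊ + 1 : ℕ) : ℝ)) := by
        refine sum_le_sum fun j hj => ?_
        have h1 := (key j hj).2
        have h2 : (1 : ℝ) ≤ j := by exact_mod_cast (mem_Ico.1 (mem_filter.1 hj).1).1
        rw [mul_one_div, div_le_div_iff₀ (by linarith) (by positivity)]
        nlinarith
    _ = 2 * t * ∑ i ∈ ((Ico 1 J).filter (fun j => ¬ good t j)).image
        (fun j : ℕ => ⌊(j : ℝ) * t⌋₊ + 1), 1 / (i : ℝ) := by
        rw [sum_image hinj, mul_sum]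
    _ ≤ 2 * t * ∑ i ∈ Icc 1 J, 1 / (i : ℝ) := by
        refine mul_le_mul_of_nonneg_left (sum_le_sum_of_subset_of_nonneg (fun i hi => ?_)
          fun _ _ _ => by positivity) (by positivity)
        obtain ⟨j, hj, rfl⟩ := mem_image.1 hi
        have h1 := (key j hj).2
        have h2 : (j : ℝ) + 1 ≤ J := by exact_mod_cast (mem_Ico.1 (mem_filter.1 hj).1).2
        have h3 : ((⌊(j : ℝ) * t⌋₊ + 1 : ℕ) : ℝ) ≤ J := by
          have : (0 : ℝ) ≤ j := by positivity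
          nlinarith
        exact mem_Icc.2 ⟨by omega, by exact_mod_cast h3⟩
    _ ≤ _ := by
        have := harm_le J
        gcongr

theorem conv : S_Conv := by
  intro ρ B J ψ hρ hJ hψ
  have hB : 0 ≤ B := (abs_nonneg _).trans (hψ 0)
  have key : ∀ J : ℕ, 1 ≤ J → |ws ρ J (fun _ => ψ) - ∑ m ∈ Ico ⌈ρ⌉₊ ⌈(J : ℝ) * ρ⌉₊, ψ m / m| ≤
      2 * B * (1 - 1 / J) := by
    intro J hJ
    induction J, hJ using Nat.le_induction with
    | base => simp [ws]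
    | succ J hJ ih =>
      have hJ' : (1 : ℝ) ≤ J := by exact_mod_cast hJ
      have h1 : ⌈ρ⌉₊ ≤ ⌈(J : ℝ) * ρ⌉₊ := Nat.ceil_mono (by nlinarith)
      have h2 : ⌈(J : ℝ) * ρ⌉₊ ≤ ⌈((J : ℝ) + 1) * ρ⌉₊ := Nat.ceil_mono (by nlinarith)
      have h3 := cell_err hρ hψ hJ
      rw [ws] at ih
      rw [cell] at h3
      rw [ws, sum_Ico_succ_top hJ, Nat.cast_succ, ← sum_Ico_consecutive _ h1 h2]
      have h4 := abs_add_le _ _ |>.trans (add_le_add ih h3)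
      refine le_trans (le_of_eq ?_) (h4.trans (le_of_eq ?_))
      · congr 1; ring
      · ring
  refine (key J hJ).trans ?_
  have : (0 : ℝ) ≤ 1 / J := by positivity
  nlinarith

theorem regrid (hB : S_Bad) : S_Regrid := by
  classical
  intro XX hX ρ ρ' t Ψ X h1 h2 ht ht2 hΨ
  have hρ : 0 < ρ := by
    by_contra h
    nlinarith [not_lt.1 h]
  have hρ' : 0 < ρ' := by linarith
  have hm := bad_mass hB X h1 (s := ρ' / ρ) (by positivity) ((div_le_iff₀ hρ).2 h2) ht2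
  have main : ∀ g : ℕ → ℂ, (∀ n, ‖g n‖ ≤ 1) →
      dst X g (fun n => if good (ρ' / ρ) ⌊(n : ℝ) / ρ'⌋₊ then Ψ n else 0) ≤
        dst X g Ψ + 8 * t * (1 + Real.log X) := by
    intro g hg
    refine le_trans ?_ (add_le_add le_rfl hm)
    rw [dst, dst, sum_filter, ← sum_add_distrib]
    refine sum_le_sum fun n _ => ?_
    by_cases h : good (ρ' / ρ) ⌊(n : ℝ) / ρ'⌋₊
    · simp [h]
    · rw [if_neg h, if_pos h, sub_zero]
      have h3 : ‖g n‖ ^ 2 / (n : ℝ) ≤ 1 / n := by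
        gcongr
        exact pow_le_one₀ (norm_nonneg _) (hg n)
      have h4 : 0 ≤ ‖g n - Ψ n‖ ^ 2 / (n : ℝ) := by positivity
      linarith
  refine ⟨fun n => if good (ρ' / ρ) ⌊(n : ℝ) / ρ'⌋₊ then Ψ n else 0, fun j => ?_, ?_, main⟩
  · by_cases h : good (ρ' / ρ) j
    · refine ⟨loc XX Ψ ρ' j, loc_mem hX _ _ _, fun n hn => ?_⟩
      simp only [(mem_cell_floor hρ').1 hn, if_pos h, loc_eq hρ hΨ h hn]
    · refine ⟨0, hX.zero, fun n hn => ?_⟩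
      simp only [(mem_cell_floor hρ').1 hn, if_neg h, Pi.zero_apply]
  · have h3 := main Ψ (hΨ.bd hX hρ)
    have h4 : dst X Ψ Ψ = 0 := by simp [dst]
    linarith

end Pool.Agent.P.MP_a14ce1_nt.IV
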