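import Pool.Agent.P.MP_a14ce1_nt.IV.St2

/-! Efron-Stein decomposition on one window. -/

open Finset

namespace Pool.Agent.P.MP_a14ce1_nt.IV

open Nil.ES
open Ch (rs)

namespace ESWp

theorem sum_lev {R : ℝ} (j : ℕ) {c : ℕ} (hc : 0 < c) (φ : ℕ → ℝ) :
    ∑ N ∈ (cell R j).filter (fun N => c ∣ N), φ N = ∑ m ∈ cell (R / c) j, φ (c * m) := by
  symm
  refine sum_bij (fun n _ => c * n) (fun n hn => ?_)
    (fun _ _ _ _ h => Nat.eq_of_mul_eq_mul_left hc h) (fun N hN => ?_) fun _ _ => rfl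
  · exact mem_filter.2 ⟨(mem_cell_div hc).mp hn, dvd_mul_right _ _⟩
  · obtain ⟨h1, m, rfl⟩ := mem_filter.mp hN
    exact ⟨m, (mem_cell_div hc).mpr h1, rfl⟩

theorem mass_le {R : ℝ} (j : ℕ) {c : ℕ} (hc : 0 < c) (h : (c : ℝ) ≤ R) : mass (wW R j) c ≤ 2 := by
  have hc' : (0 : ℝ) < c := by exact_mod_cast hc
  have hR : 0 < R := hc'.trans_le h
  change ∑ N ∈ (cell R j).filter (fun N => c ∣ N), (c : ℝ) * (1 / |R|) ≤ 2
  rw [sum_lev j hc, sum_const, nsmul_eq_mul, abs_of_pos hR]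
  calc _ ≤ (R / c + 1) * (c * (1 / R)) :=
        mul_le_mul_of_nonneg_right (card_cell_le (by positivity) j) (by positivity)
    _ = 1 + c / R := by field_simp
    _ ≤ 2 := by linarith [(div_le_one hR).2 h]

theorem br_self {R : ℝ} (hR : 0 < R) (j : ℕ) {c : ℕ} (hc : 0 < c) (φ : ℕ → ℂ) :
    br (wW R j) c φ φ = wa (R / c) j fun m => ‖φ (c * m)‖ ^ 2 := by
  rw [br, Wt.ip_self]
  change ∑ N ∈ (cell R j).filter (fun N => c ∣ N), (c : ℝ) * (1 / |R|) * ‖φ N‖ ^ 2 = _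
  rw [sum_lev j hc, ← mul_sum, wa, smul_eq_mul, abs_of_pos hR, one_div_div, mul_one_div]

theorem fs_mono {μ : Wt ℕ} {X : Set (ℕ → ℂ)} {c : ℕ} {γ : Pr} {ε ε' : ℝ} (h : FsN μ X c γ ε)
    (he : ε ≤ ε') : FsN μ X c γ ε' := fun φ hφ ψ hψ => (h φ hφ ψ hψ).trans he

theorem ext_mono {μ : Wt ℕ} {X : Set (ℕ → ℂ)} {c : ℕ} {γ γ' : Pr} {ε ε' : ℝ}
    (h : ExtN μ X c γ γ' ε) (he : ε ≤ ε') : ExtN μ X c γ γ' ε' := fun χ ψ hχ hψ => by
  obtain ⟨U, h1, h2⟩ := h χ ψ hχ hψ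
  exact ⟨U, h1, by linarith⟩

/-- the harmonic probability on a set of primes -/
noncomputable def prP (P : Finset ℕ) (h : 0 < rs P) : Pr where
  s := P
  w := fun p => 1 / (p * rs P)
  nn := fun _ => by positivity
  one := by
    have : ∀ p : ℕ, 1 / ((p : ℝ) * rs P) = 1 / (p : ℝ) * (1 / rs P) := fun p => by
      rw [one_div_mul_one_div]
    simp only [this]
    rw [← sum_mul]
    exact mul_one_div_cancel h.ne'

theorem cl_of_hull {XX : Set (ℕ → ℂ)} (h : Hull XX) : Cl XX :=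
  ⟨h.cvx, h.zero, fun φ hφ => by
    have := h.sc φ hφ (-1) (by simp)
    simp only [neg_mul, one_mul] at this
    exact this, h.bd⟩

end ESWp

open ESWp in
theorem esw (hH : S_Hull) (hE : Nil.ES.S_ESC) (hF : S_FsW) (hX : S_ExtW) : S_ESW := by
  intro A hA
  obtain ⟨C1, h1⟩ := hF A hA.atm hA.fs
  obtain ⟨C2, h2⟩ := hX A hA.atm hA.ext
  refine ⟨70 * (C1 + C2) + 2, fun Q hQ ι _ _ P Pm R j l0 hι hQι hd hP hPm hrs hR F G hFX hGX
    hG => ?_⟩
  set C := 70 * (C1 + C2) + 2 with hC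
  have hQ0 : 0 < Q := by linarith
  have hQ1 : 1 ≤ Q := by linarith
  have hr : ∀ k, 0 < rs (P k) := fun k => by
    by_contra h
    nlinarith [hrs k, not_lt.1 h]
  set g : ι → Pr := fun k => prP (P k) (hr k) with hg
  have hQQ : Q ≤ Q ^ 70 := le_self_pow₀ hQ1 (by norm_num)
  have pw : ∀ k C', C' ≤ C1 + C2 → Ax.PW (Q ^ 70) C' (g k).s (g k).w := fun k C' hC' =>
    ⟨fun p hp => (hP k p hp).1, fun p _ => (g k).nn p, (g k).one, fun p hp => by
      have hp0 : (0 : ℝ) < p := by exact_mod_cast (hP k p hp).1.pos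
      have hk := hr k
      change 1 / (p * rs (P k)) * p ≤ _
      refine le_trans ?_ hQQ
      rw [show 1 / (p * rs (P k)) * p = 1 / rs (P k) by field_simp, div_le_iff₀ hk]
      exact hrs k, fun p hp => by
      rw [← pow_mul]
      exact (pow_le_pow_right₀ hQ1 (by omega)).trans (hP k p hp).2.1, fun p hp =>
      ((Real.log_le_log (by exact_mod_cast (hP k p hp).1.pos) (hP k p hp).2.2).trans hPm).trans hQQ⟩
  have pos : ∀ a ∈ supp g, ∀ k, 0 < a k := fun a ha k => (hP k _ (mem_supp.1 ha k)).1.pos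
  have lvp : ∀ a ∈ supp g, ∀ S, 0 < lv S a := fun a ha S => prod_pos fun k _ => pos a ha k
  obtain ⟨a0, ha0⟩ := supp_nonempty g
  obtain ⟨k0⟩ : Nonempty ι := Fintype.card_pos_iff.1 (by omega)
  have hPm1 : 1 ≤ Pm := le_trans (by exact_mod_cast pos a0 ha0 k0)
    (hP k0 _ (mem_supp.1 ha0 k0)).2.2
  have sz : ∀ a ∈ supp g, ∀ (S : Finset ι) (x : ℝ) (e e' : ℕ), x ≤ Pm ^ e → e ≤ C → e' ≤ C1 + C2 →
      (lv S a : ℝ) * x * (Q ^ 70) ^ e' ≤ R := fun a ha S x e e' hx he he' => by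
    refine le_trans ?_ (hR a ha)
    have e1 : (lv S a : ℝ) ≤ pS univ a := by
      exact_mod_cast prod_le_prod_of_subset_of_one_le' (subset_univ S) fun k _ _ => pos a ha k
    have e2 : x ≤ Pm ^ C := hx.trans (pow_le_pow_right₀ hPm1 he)
    have e3 : (Q ^ 70) ^ e' ≤ Q ^ C := by
      rw [← pow_mul]; exact pow_le_pow_right₀ hQ1 (by omega)
    rw [mul_pow, ← mul_assoc]
    calc _ ≤ (lv S a : ℝ) * Pm ^ C * (Q ^ 70) ^ e' := by gcongr
      _ ≤ _ := by gcongr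
  have lvR : ∀ a ∈ supp g, ∀ S, (lv S a : ℝ) ≤ R := fun a ha S => by
    simpa using sz a ha S 1 0 0 (by simp) (by omega) (by omega)
  have hR0 : 0 < R := lt_of_lt_of_le (by exact_mod_cast lvp a0 ha0 univ) (lvR a0 ha0 univ)
  have hQ2 : 2 ≤ Q ^ 70 := hQ.trans hQQ
  have hPk : ∀ k, ∀ p ∈ (g k).s, (p : ℝ) ≤ Pm := fun k p hp => (hP k p hp).2.2
  have fs : ∀ a ∈ supp g, ∀ S k, FsN (wW R j) (Ax.hull A) (lv S a) (g k) (1 / Q ^ 70) :=
    fun a ha S k => h1 _ hQ2 (g k) R j _ (pw k C1 (by omega)) (lvp a ha S) fun p hp =>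
      sz a ha S p 1 C1 (by simpa using hPk k p hp) (by omega) (by omega)
  have fs2 : ∀ a ∈ supp g, ∀ S k k', ∀ q ∈ (g k').s,
      FsN (wW R j) (Ax.hull A) (lv S a * q) (g k) (1 / Q ^ 70) :=
    fun a ha S k k' q hq => h1 _ hQ2 (g k) R j _ (pw k C1 (by omega))
      (Nat.mul_pos (lvp a ha S) (hP k' q hq).1.pos) fun p hp => by
      rw [Nat.cast_mul, mul_assoc (lv S a : ℝ)]
      refine sz a ha S _ 2 C1 ?_ (by omega) (by omega)
      rw [sq]
      exact mul_le_mul (hPk k' q hq) (hPk k p hp) (by positivity) (by linarith)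
  have ex : ∀ a ∈ supp g, ∀ S k k', k ≠ k' →
      ExtN (wW R j) (Ax.hull A) (lv S a) (g k) (g k') (1 / Q ^ 70) :=
    fun a ha S k k' hk => h2 _ hQ2 (g k) (g k') R j _ (pw k C2 (by omega)) (pw k' C2 (by omega))
      (hd k k' hk) (lvp a ha S) fun p hp v hv => by
      rw [mul_assoc (lv S a : ℝ)]
      refine sz a ha S _ (C2 + 1) C2 ?_ (by omega) (by omega)
      rw [pow_succ']
      exact mul_le_mul (hPk k p hp) (pow_le_pow_left₀ (by positivity) (hPk k' v hv) _)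
        (by positivity) (by linarith)
  have e3 : 1 / Q ^ 70 + 2 * (1 / Q ^ 70) ≤ (1 / Q ^ 17) ^ 4 := by
    rw [show 1 / Q ^ 70 + 2 * (1 / Q ^ 70) = 3 / Q ^ 2 * (1 / Q ^ 17) ^ 4 by field_simp; ring]
    refine mul_le_of_le_one_left (by positivity) ((div_le_one (by positivity)).2 (by nlinarith))
  have e1 : 1 / Q ^ 70 ≤ (1 / Q ^ 17) ^ 4 := by
    have : 0 ≤ 1 / Q ^ 70 := by positivity
    linarith
  have top : Top (wW R j) (Ax.hull A) g ∅ univ ((1 / Q ^ 17) ^ 4) :=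
    ⟨fun a ha => mass_le j (lvp a ha _) (lvR a ha _),
      fun a ha S k _ _ _ => fs_mono (fs a ha S k) e1,
      fun a ha k _ => by
        obtain ⟨k', hk'⟩ := Fintype.exists_ne_of_one_lt_card (by omega) k
        exact ext_mono ((ex a ha _ k k' hk'.symm).unit (fs a ha _ k') (fs2 a ha _ k' k)) e3,
      fun a ha S k _ k' _ _ _ hk' _ =>
        ext_mono (ex a ha S k k' fun h => hk' (h ▸ mem_insert_self _ _)) e1⟩
  obtain ⟨M, hM, hM1, -⟩ := hE ι (wW R j) (Ax.hull A) g ∅ univ l0 (1 / Q ^ 17)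
    (cl_of_hull (hH A hA.atm)) (by positivity)
    ((div_le_one (by positivity)).2 (one_le_pow₀ hQ1)) (empty_subset _) top F G
    ⟨fun a _ => hFX a, fun a a' h => by rw [funext fun k => h k (mem_univ k)]⟩
    fun k _ => ⟨fun a _ => hGX k a, fun a a' h => by
      rw [← hG k a (a' k)]
      congr 1
      funext i
      by_cases hi : i = k
      · subst hi; simp
      · rw [Function.update_of_ne hi]; exact h i (mem_erase.2 ⟨hi, mem_univ _⟩)⟩
  refine ⟨M, fun T => (hM T).1, fun T a a' h => (hM T).2 a a' (by simpa using h), ?_⟩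
  have cv : ∀ Φ : (ι → ℕ) → ℕ → ℂ,
      Nil.ES.Ew g (fun a => br (wW R j) (lv univ a) (Φ a) (Φ a)) =
        Ew P fun a => wa (R / pS univ a) j fun m => ‖Φ a (pS univ a * m)‖ ^ 2 := fun Φ =>
    Ew_congr g fun a ha => br_self hR0 j (lvp a ha univ) (Φ a)
  rw [sdiff_empty] at hM1
  simp only [cv] at hM1
  have e4 : (256 : ℝ) ^ (Fintype.card ι + 1) * (1 / Q ^ 17) ≤ 1 / Q := by
    have a1 : (256 : ℝ) ^ (Fintype.card ι + 1) ≤ Q ^ 16 := by
      rw [pow_succ, show (256 : ℝ) = 2 ^ 8 by norm_num, ← pow_mul, mul_comm 8, pow_mul,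
        show Q ^ 16 = Q ^ 8 * Q ^ 8 by ring]
      gcongr
    calc _ ≤ Q ^ 16 * (1 / Q ^ 17) := by gcongr
      _ = _ := by field_simp
  refine le_trans (le_of_eq ?_) (hM1.trans (add_le_add le_rfl e4))
  congr 1
  funext a
  congr 1
  funext m
  simp [low, syn, Finset.sum_apply]

end Pool.Agent.P.MP_a14ce1_nt.IV
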