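import Pool.Agent.P.MP_a14ce1_nt.IV.St

/-!
Iteration of the plain step from a fixed window length up to a small power of X.
-/

open Finset Filter

namespace Pool.Agent.P.MP_a14ce1_nt.IV

open Ch (rs pr)
open Pool.Agent.P.MP_e30989_nt.W (UCM)

namespace IterP

theorem range_facts {C1 : ℝ}
    (h1 : ∀ u v : ℝ, 2 ≤ u → u ≤ v → |rs (pr u v) - Real.log (Real.log v / Real.log u)| ≤ C1)
    {a b : ℝ} (ha : 1 ≤ a) (hab : 2 * a ≤ b) :
    ⌈Real.exp a⌉₊ ≤ ⌊Real.exp b⌋₊ ∧ (⌊Real.exp b⌋₊ : ℝ) ≤ Real.exp b ∧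
      Real.log ⌊Real.exp b⌋₊ ≤ b ∧
      Real.log (b / (2 * a)) - C1 ≤ rs (pr ⌈Real.exp a⌉₊ ⌊Real.exp b⌋₊) := by
  have e1 : 2 ≤ Real.exp a := by linarith [Real.add_one_le_exp a]
  have e2 : Real.exp a ≤ ⌈Real.exp a⌉₊ := Nat.le_ceil _
  have e3 : (⌈Real.exp a⌉₊ : ℝ) ≤ Real.exp (2 * a) := by
    have := Nat.ceil_lt_add_one (Real.exp_pos a).le
    rw [two_mul, Real.exp_add]
    nlinarith
  have e4 : (⌈Real.exp a⌉₊ : ℝ) ≤ Real.exp b := e3.trans (Real.exp_le_exp.2 hab)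
  have e5 : ⌈Real.exp a⌉₊ ≤ ⌊Real.exp b⌋₊ := Nat.le_floor e4
  have e6 : (⌊Real.exp b⌋₊ : ℝ) ≤ Real.exp b := Nat.floor_le (Real.exp_pos b).le
  have e7 : (⌈Real.exp a⌉₊ : ℝ) ≤ ⌊Real.exp b⌋₊ := by exact_mod_cast e5
  refine ⟨e5, e6, (Real.log_le_iff_le_exp (by linarith)).2 e6, ?_⟩
  have e8 : pr ⌈Real.exp a⌉₊ ⌊Real.exp b⌋₊ = pr ⌈Real.exp a⌉₊ (Real.exp b) := by
    simp only [pr, Nat.floor_natCast]
  have h := h1 _ _ (e1.trans e2) e4
  rw [Real.log_exp, ← e8] at h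
  have e9 : Real.log ⌈Real.exp a⌉₊ ≤ 2 * a := (Real.log_le_iff_le_exp (by linarith)).2 e3
  have e10 : 0 < Real.log ⌈Real.exp a⌉₊ := Real.log_pos (by linarith)
  have e11 : Real.log (b / (2 * a)) ≤ Real.log (b / Real.log ⌈Real.exp a⌉₊) :=
    Real.log_le_log (div_pos (by linarith) (by linarith))
      (div_le_div_of_nonneg_left (by linarith) e10 e9)
  linarith [(abs_le.1 h).1]

theorem root_gain {u : ℝ} (hu : 0 < u) :
    2 / √(√u) ≤ 102 / √(√u) - 102 / √(√(11 / 10 * u)) := by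
  have h0 : 0 < √u := Real.sqrt_pos.2 hu
  have h1 : 0 < √(√u) := Real.sqrt_pos.2 h0
  have h2 : 51 / 50 * √(√u) ≤ √(√(11 / 10 * u)) := by
    refine Real.le_sqrt_of_sq_le ?_
    rw [mul_pow, Real.sq_sqrt h0.le]
    refine Real.le_sqrt_of_sq_le ?_
    rw [mul_pow, Real.sq_sqrt hu.le]
    nlinarith
  have h3 : 102 / √(√(11 / 10 * u)) ≤ 102 / (51 / 50 * √(√u)) :=
    div_le_div_of_nonneg_left (by norm_num) (by positivity) h2
  have h4 : 102 / (51 / 50 * √(√u)) = 102 / √(√u) - 2 / √(√u) := by field_simp; norm_num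
  linarith

theorem div_sqrt_le {C e R r : ℝ} (hC : 0 < C) (he : 0 < e) (h : (C / e) ^ 2 ≤ R) (hr : R ≤ r) :
    C * (1 / √r) ≤ e := by
  have h1 : C / e ≤ √r := Real.le_sqrt_of_sq_le (h.trans hr)
  have h2 : 0 < C / e := div_pos hC he
  rw [mul_one_div, div_le_iff₀ (h2.trans_le h1)]
  rw [div_le_iff₀ he] at h1
  linarith

theorem sqrt_div_mul {a b x : ℝ} (hx : 0 ≤ x) (hb : 0 ≤ b) (h : a ≤ b ^ 2) :
    √(a / x) * x ≤ b * √x := by
  have h1 : √a ≤ b := Real.sqrt_le_iff.2 ⟨hb, h⟩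
  have h2 : √(a / x) * x = √a * √x := by
    rw [Real.sqrt_div' _ hx, div_mul_eq_mul_div, mul_div_assoc, Real.div_sqrt]
  rw [h2]
  exact mul_le_mul_of_nonneg_right h1 (Real.sqrt_nonneg _)

end IterP

open IterP

theorem iter (hP : Ax.S_Plain) (h1 : Ch.S_M1) : S_Iter := by
  intro A hA ε κ hε hκ
  obtain ⟨C, t0, hC, hP⟩ := hP A hA
  obtain ⟨C1, hC1, h1⟩ := h1
  obtain ⟨κ1, hκ0, hκ1, hκ2⟩ : ∃ κ1 : ℝ, 0 < κ1 ∧ κ1 ≤ κ ∧ κ1 ≤ (ε / (9 * C)) ^ 2 :=
    ⟨min _ _, lt_min hκ (by positivity), min_le_left _ _, min_le_right _ _⟩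
  obtain ⟨R, hR1, hR2⟩ : ∃ R : ℝ, 2 ≤ R ∧ (C / (ε / 3)) ^ 2 ≤ R :=
    ⟨max _ _, le_max_left _ _, le_max_right _ _⟩
  obtain ⟨K, hK⟩ : ∃ K : ℝ, K = 2 * Real.exp (R + C1) := ⟨_, rfl⟩
  have hK2 : 2 ≤ K := by
    have := Real.one_le_exp (show 0 ≤ R + C1 by linarith)
    linarith
  have hK0 : 0 < K := by linarith
  obtain ⟨U, hU1, hU2, hU3, hU4⟩ : ∃ U : ℝ, 4 + 2 * C1 ≤ U ∧ K ≤ U ∧ t0 ≤ U ∧
      ((102 * C / (ε / 3)) ^ 2) ^ 2 ≤ U :=
    ⟨max (max _ _) (max _ _), (le_max_left _ _).trans (le_max_left _ _),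
      (le_max_right _ _).trans (le_max_left _ _), (le_max_left _ _).trans (le_max_right _ _),
      (le_max_right _ _).trans (le_max_right _ _)⟩
  refine ⟨κ1 / K, ⌈Real.exp (Real.exp (10 * U))⌉₊, by positivity,
    (div_le_self hκ0.le (by linarith)).trans hκ1, fun H hH => ?_⟩
  have hH' : Real.exp (Real.exp (10 * U)) ≤ H := Nat.ceil_le.1 hH
  have hH0 : (0 : ℝ) < H := (Real.exp_pos _).trans_le hH'
  have hH1 : Real.exp (10 * U) ≤ Real.log H := (Real.le_log_iff_exp_le hH0).2 hH'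
  have hH2 : 0 < Real.log H := (Real.exp_pos _).trans_le hH1
  obtain ⟨u0, hu0⟩ : ∃ u0 : ℝ, u0 = Real.log (Real.log H) / 10 := ⟨_, rfl⟩
  have hUu : U ≤ u0 := by
    have := (Real.le_log_iff_exp_le hH2).2 hH1
    linarith
  have hHu : Real.exp (Real.exp (10 * u0)) = H := by
    rw [hu0, mul_div_cancel₀ _ (by norm_num), Real.exp_log hH2, Real.exp_log hH0]
  have hu00 : 0 < u0 := by linarith
  -- the step
  have step : ∀ (u : ℝ) (f : ℕ → ℂ) (H' X : ℕ), U ≤ u → UCM f → 2 ≤ X →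
      Real.exp (Real.exp (10 * u)) ≤ H' → H' ≤ ⌈Real.exp (Real.exp (11 * u))⌉₊ →
      Ax.dst A f ⌈Real.exp (Real.exp (11 * u))⌉₊ X ≤ Ax.dst A f H' X +
        C * (102 / √(√u) - 102 / √(√(11 / 10 * u))) * Real.log X +
        C * (Real.exp (6 * u) * √(Real.log X)) := by
    intro u f H' X hu hf hX a1 a2
    have b0 : 4 ≤ u := by linarith
    have b1 : 1 ≤ Real.exp (11 * u) := Real.one_le_exp (by linarith)
    have b2 : Real.exp (12 * u) = Real.exp u * Real.exp (11 * u) := by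
      rw [← Real.exp_add]; congr 1; ring
    have b3 := Real.add_one_le_exp u
    obtain ⟨c1, c2, c3, c4⟩ := range_facts h1 b1
      (show 2 * Real.exp (11 * u) ≤ Real.exp (12 * u) by rw [b2]; nlinarith)
    have b4 : Real.log (Real.exp (12 * u) / (2 * Real.exp (11 * u))) = u - Real.log 2 := by
      rw [b2, mul_div_mul_right _ _ (by linarith), Real.log_div (by linarith) (by norm_num),
        Real.log_exp]
    have b5 := Real.log_two_lt_d9
    rw [b4] at c4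
    have b6 : √u ≤ u / 2 := Real.sqrt_le_iff.2 ⟨by linarith, by nlinarith⟩
    have h := hP (Real.exp u) (by linarith) f H' _ _ X hf
      (by rw [← Real.exp_nat_mul]; exact_mod_cast a1) a2 c1
      (by rw [← Real.exp_nat_mul]; exact_mod_cast c2) (by linarith) hX
    rw [Real.log_exp] at h
    have b7 : 0 < √(√u) := Real.sqrt_pos.2 (Real.sqrt_pos.2 (by linarith))
    have b8 : 1 / √(rs (pr ⌈Real.exp (Real.exp (11 * u))⌉₊ ⌊Real.exp (Real.exp (12 * u))⌋₊)) ≤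
        1 / √(√u) := one_div_le_one_div_of_le b7 (Real.sqrt_le_sqrt (by linarith))
    have b9 := root_gain (show 0 < u by linarith)
    have b10 : 2 / √(√u) = 1 / √(√u) + 1 / √(√u) := by ring
    have b11 : 0 ≤ Real.log X := Real.log_natCast_nonneg X
    have b12 := sqrt_div_mul b11 (Real.exp_pos (6 * u)).le (c3.trans_eq
      (by rw [← Real.exp_nat_mul]; congr 1; push_cast; ring))
    have b13 := mul_le_mul_of_nonneg_right (mul_le_mul_of_nonneg_left (show 1 / √(√u) +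
      1 / √(rs (pr ⌈Real.exp (Real.exp (11 * u))⌉₊ ⌊Real.exp (Real.exp (12 * u))⌋₊)) ≤
        102 / √(√u) - 102 / √(√(11 / 10 * u)) by linarith) hC.le) b11
    have b14 := mul_le_mul_of_nonneg_left b12 hC.le
    linarith
  have hge : ∀ i : ℕ, u0 ≤ (11 / 10) ^ i * u0 := fun i =>
    le_mul_of_one_le_left hu00.le (one_le_pow₀ (by norm_num))
  have hs : ∀ i : ℕ, (11 / 10 : ℝ) ^ (i + 1) * u0 = 11 / 10 * ((11 / 10) ^ i * u0) := fun i => by
    ring
  have chain : ∀ (f : ℕ → ℂ) (X : ℕ), UCM f → 2 ≤ X → ∀ i : ℕ,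
      Ax.dst A f ⌈Real.exp (Real.exp (11 * ((11 / 10) ^ i * u0)))⌉₊ X ≤ Ax.dst A f H X +
        C * (102 / √(√u0) - 102 / √(√(11 / 10 * ((11 / 10) ^ i * u0)))) * Real.log X +
        2 * C * (Real.exp (6 * ((11 / 10) ^ i * u0)) * √(Real.log X)) := by
    intro f X hf hX i
    induction i with
    | zero =>
      rw [pow_zero, one_mul]
      have h := step u0 f H X hUu hf hX hHu.le (by
        have : (H : ℝ) ≤ Real.exp (Real.exp (11 * u0)) := by
          rw [← hHu]; gcongr; norm_num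
        exact_mod_cast this.trans (Nat.le_ceil _))
      have : 0 ≤ C * (Real.exp (6 * u0) * √(Real.log X)) := by positivity
      linarith
    | succ i ih =>
      rw [hs]
      obtain ⟨v, hv⟩ : ∃ v : ℝ, v = (11 / 10) ^ i * u0 := ⟨_, rfl⟩
      have hv0 : u0 ≤ v := hv ▸ hge i
      rw [← hv] at ih ⊢
      have h := step (11 / 10 * v) f ⌈Real.exp (Real.exp (11 * v))⌉₊ X (by linarith) hf hX
        (by rw [show 10 * (11 / 10 * v) = 11 * v by ring]; exact Nat.le_ceil _)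
        (Nat.ceil_mono (Real.exp_le_exp.2 (Real.exp_le_exp.2 (by linarith))))
      have b2 : Real.exp (6 * (11 / 10 * v)) = Real.exp (3 / 5 * v) * Real.exp (6 * v) := by
        rw [← Real.exp_add]; congr 1; ring
      have b3 : 2 * Real.exp (6 * v) ≤ Real.exp (6 * (11 / 10 * v)) := by
        rw [b2]
        exact mul_le_mul_of_nonneg_right (by linarith [Real.add_one_le_exp (3 / 5 * v)])
          (Real.exp_pos _).le
      have b4 := mul_le_mul_of_nonneg_left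
        (mul_le_mul_of_nonneg_right b3 (Real.sqrt_nonneg (Real.log X))) hC.le
      linarith
  have hlog : Tendsto (fun X : ℕ => Real.log X) atTop atTop :=
    Real.tendsto_log_atTop.comp tendsto_natCast_atTop_atTop
  filter_upwards [eventually_ge_atTop 2, hlog.eventually_ge_atTop (K / κ1),
    hlog.eventually_ge_atTop (Real.exp (12 * u0) / κ1)] with X hX x1 x2 f hf
  have hX0 : (0 : ℝ) < X := by exact_mod_cast (show 0 < X by omega)
  rw [Real.rpow_def_of_pos hX0]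
  have hc := chain f X hf hX
  have hP' := fun t ht H P1 P2 a b c d e g => hP t ht f H P1 P2 X a b c d e g hX
  obtain ⟨x, hx⟩ : ∃ x : ℝ, x = Real.log X := ⟨_, rfl⟩
  rw [← hx] at x1 x2 hc hP' ⊢
  rw [div_le_iff₀ hκ0] at x1 x2
  have hx0 : 0 ≤ x := hx ▸ Real.log_natCast_nonneg X
  have hL : 0 < x * κ1 := by linarith
  obtain ⟨m, m1, m2⟩ := exists_nat_pow_near (x := Real.log (x * κ1) / (12 * u0)) (y := 11 / 10)
    (by rw [le_div_iff₀ (by linarith), one_mul]; exact (Real.le_log_iff_exp_le hL).2 x2)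
    (by norm_num)
  rw [le_div_iff₀ (by linarith)] at m1
  rw [div_lt_iff₀ (by linarith)] at m2
  have hm := hc m
  have hm' := hs m
  obtain ⟨v, hv⟩ : ∃ v : ℝ, v = (11 / 10) ^ m * u0 := ⟨_, rfl⟩
  have hv0 : u0 ≤ v := hv ▸ hge m
  rw [← hv] at hm hm'
  have n1 : Real.exp (12 * v) ≤ x * κ1 := (Real.le_log_iff_exp_le hL).1 (by rw [hv]; linarith)
  have n2 : x * κ1 ≤ Real.exp (12 * (11 / 10 * v)) :=
    (Real.log_le_iff_le_exp hL).1 (by rw [← hm']; linarith)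
  have n3 : 1 ≤ x * (κ1 / K) := by
    rw [← mul_div_assoc, le_div_iff₀ hK0]; linarith
  have n4 : x * κ1 = K * (x * (κ1 / K)) := by field_simp
  obtain ⟨c1, c2, c3, c4⟩ := range_facts h1 n3 (show 2 * (x * (κ1 / K)) ≤ x * κ1 by
    rw [n4]; exact mul_le_mul_of_nonneg_right hK2 (by linarith))
  have n5 : Real.log (x * κ1 / (2 * (x * (κ1 / K)))) = R + C1 := by
    rw [n4, mul_div_mul_right _ _ (by linarith), hK, mul_div_cancel_left₀ _ (by norm_num),
      Real.log_exp]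
  rw [n5] at c4
  have n6 : Real.exp (11 * v) ≤ x * (κ1 / K) := by
    have b2 : Real.exp (12 * v) = Real.exp v * Real.exp (11 * v) := by
      rw [← Real.exp_add]; congr 1; ring
    have b3 : K * Real.exp (11 * v) ≤ Real.exp (12 * v) := by
      rw [b2]
      exact mul_le_mul_of_nonneg_right (by linarith [Real.add_one_le_exp v]) (Real.exp_pos _).le
    exact le_of_mul_le_mul_left (by linarith) hK0
  have h := hP' (Real.exp (11 / 10 * v)) (by linarith [Real.add_one_le_exp (11 / 10 * v)])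
    ⌈Real.exp (Real.exp (11 * v))⌉₊ _ _ hf
    (by
      rw [← Real.exp_nat_mul, show ((10 : ℕ) : ℝ) * (11 / 10 * v) = 11 * v by push_cast; ring]
      exact Nat.le_ceil _)
    (Nat.ceil_mono (Real.exp_le_exp.2 n6)) c1
    (by
      rw [← Real.exp_nat_mul]
      exact c2.trans (Real.exp_le_exp.2 (by exact_mod_cast n2)))
    (by linarith)
  rw [Real.log_exp] at h
  have d1 := div_sqrt_le hC (show 0 < ε / 3 by positivity) hR2
    (show R ≤ rs (pr ⌈Real.exp (x * (κ1 / K))⌉₊ ⌊Real.exp (x * κ1)⌋₊) by linarith)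
  have d2 := div_sqrt_le (show 0 < 102 * C by positivity) (show 0 < ε / 3 by positivity)
    (Real.le_sqrt_of_sq_le (hU4.trans hUu)) le_rfl
  have d3 : 3 * C * √κ1 ≤ ε / 3 := by
    have := Real.sqrt_le_iff.2 ⟨by positivity, hκ2⟩
    rw [le_div_iff₀ (by positivity)] at this
    linarith
  have d4 : 0 ≤ 1 / √(√(11 / 10 * v)) := by positivity
  have d5 : C * (102 / √(√u0) - 102 / √(√(11 / 10 * v))) + C * (1 / √(√(11 / 10 * v)) +
      1 / √(rs (pr ⌈Real.exp (x * (κ1 / K))⌉₊ ⌊Real.exp (x * κ1)⌋₊))) + 3 * C * √κ1 ≤ ε := by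
    have e1 : 102 / √(√u0) = 102 * (1 / √(√u0)) := by ring
    have e2 : 102 / √(√(11 / 10 * v)) = 102 * (1 / √(√(11 / 10 * v))) := by ring
    have e3 := mul_nonneg hC.le d4
    rw [e1, e2]
    linarith
  have d6 := mul_le_mul_of_nonneg_right d5 hx0
  have d9 : √(x * κ1) * √x = √κ1 * x := by
    rw [Real.sqrt_mul hx0, mul_right_comm, Real.mul_self_sqrt hx0, mul_comm]
  have d10 : Real.exp (6 * v) ≤ √(x * κ1) := Real.le_sqrt_of_sq_le (le_of_eq_of_le
    (by rw [← Real.exp_nat_mul]; congr 1; push_cast; ring) n1)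
  have d7 := mul_le_mul_of_nonneg_left
    ((mul_le_mul_of_nonneg_right d10 (Real.sqrt_nonneg x)).trans_eq d9) hC.le
  have d8 := mul_le_mul_of_nonneg_left ((sqrt_div_mul hx0 (Real.sqrt_nonneg (x * κ1))
    (c3.trans_eq (Real.sq_sqrt hL.le).symm)).trans_eq d9) hC.le
  linarith

end Pool.Agent.P.MP_a14ce1_nt.IV
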