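import Pool.Agent.P.MP_a14ce1_nt.IV.St
import Pool.Agent.P.MP_a14ce1_nt.Nil.Major

/-!
The major part on a grid.
-/

open Finset Filter
open scoped ComplexConjugate

namespace Pool.Agent.P.MP_a14ce1_nt.IV

open Ch (rs om)

namespace MajP

theorem exists_Ico {T : Finset ℕ} (h : ∀ a ∈ T, ∀ c ∈ T, ∀ b, a ≤ b → b ≤ c → b ∈ T) :
    ∃ s t, Ico s t = T := by
  rcases T.eq_empty_or_nonempty with rfl | hT
  · exact ⟨0, 0, rfl⟩
  · refine ⟨T.min' hT, T.max' hT + 1, ?_⟩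
    ext b
    rw [mem_Ico, Nat.lt_succ_iff]
    exact ⟨fun k => h _ (T.min'_mem hT) _ (T.max'_mem hT) b k.1 k.2,
      fun k => ⟨T.min'_le b k, T.le_max' b k⟩⟩

/-- the number of break points up to n -/
def rk (B : Finset ℤ) (n : ℕ) : ℕ := (B.filter fun t => t ≤ (n : ℤ)).card

theorem rk_sub (B : Finset ℤ) {m n : ℕ} (h : m ≤ n) :
    (B.filter fun t => t ≤ (m : ℤ)) ⊆ B.filter fun t => t ≤ (n : ℤ) := fun t ht =>
  mem_filter.2 ⟨(mem_filter.1 ht).1, (mem_filter.1 ht).2.trans (by exact_mod_cast h)⟩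

theorem rk_mono (B : Finset ℤ) {m n : ℕ} (h : m ≤ n) : rk B m ≤ rk B n := card_le_card (rk_sub B h)

theorem maj_eq {W : ℕ} {B : Finset ℤ} {ψ : ℤ → ℂ} (h : Nil.Maj W B ψ) {m n : ℕ} (hmn : m ≤ n)
    (h1 : m ≡ n [MOD W]) (h2 : rk B m = rk B n) : ψ m = ψ n := by
  refine h m n (by exact_mod_cast hmn) h1.dvd fun t ht k => ?_
  have h3 := eq_of_subset_of_card_le (rk_sub B hmn) h2.ge
  have h4 : t ∈ B.filter fun t => t ≤ (n : ℤ) := mem_filter.2 ⟨ht, k.2⟩
  rw [← h3] at h4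
  exact absurd (mem_filter.1 h4).2 (not_le.2 k.1)

theorem block {W Y J : ℕ} {g : ℕ → ℂ} {ε C Λ x : ℝ} {ψ : ℕ → ℤ → ℂ} {B : ℕ → Finset ℤ}
    (hC : 0 ≤ C) (hY : 0 < Y) (hx : 0 < x) (hΛ : 0 < Λ)
    (h : ∀ (κ : Type) (S : Finset κ) (s t : κ → ℕ) (ψ : κ → ℕ → ℂ), Nil.Grid Y W S s t ψ →
      ∑ i ∈ S, ‖∑ n ∈ Ico (s i) (t i), g n * ψ i n‖ ≤ ε * Y + C * S.card)
    (h1 : ∀ j n, ‖ψ j n‖ ≤ 1) (h2 : ∀ j, Nil.Maj W (B j) (ψ j))
    (h3 : ∀ j, ((B j).card + 1) * x ≤ Λ) :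
    ∑ j ∈ Ico 1 J, (1 / (j : ℝ)) * (1 / Λ *
      ‖∑ n ∈ (cell Λ j).filter (· ∈ Ico Y (2 * Y)), g n * conj (ψ j n)‖) ≤ 2 * ε + 4 * C / x := by
  classical
  have hY' : (0 : ℝ) < Y := by exact_mod_cast hY
  let pc : (Σ _ : ℕ, ℕ) → Finset ℕ := fun a =>
    ((cell Λ a.1).filter (· ∈ Ico Y (2 * Y))).filter fun n => rk (B a.1) n = a.2
  have k1 : ∀ a, ∃ s t, Ico s t = pc a := fun a => exists_Ico fun u hu w hw v k k' => by
    simp only [pc, mem_filter, cell, mem_Ico] at hu hw ⊢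
    have := rk_mono (B a.1) k
    have := rk_mono (B a.1) k'
    omega
  choose s t hst using k1
  let T := (Ico 1 J).filter fun j => ((cell Λ j).filter (· ∈ Ico Y (2 * Y))).Nonempty
  have hT : ∀ j ∈ T, 1 ≤ j ∧ (j : ℝ) * Λ ≤ 2 * Y ∧ (Y : ℝ) ≤ 2 * (j * Λ) := fun j hj => by
    obtain ⟨k, n, hn⟩ := mem_filter.1 hj
    obtain ⟨k2, k3⟩ := mem_filter.1 hn
    rw [mem_cell] at k2
    rw [mem_Ico] at k k3
    have k4 : (Y : ℝ) ≤ n := by exact_mod_cast k3.1
    have k5 : (n : ℝ) ≤ 2 * Y := by exact_mod_cast k3.2.le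
    have k6 : (1 : ℝ) ≤ j := by exact_mod_cast k.1
    exact ⟨k.1, by linarith [k2.1], by nlinarith [k2.2]⟩
  let S := T.sigma fun j => range ((B j).card + 1)
  have hG : Nil.Grid Y W S s t fun a n => conj (ψ a.1 n) := by
    refine ⟨fun a _ n hn => ?_, fun a _ a' _ haa => ?_, fun a _ n _ => ?_,
      fun a _ m hm n hn hmn => ?_⟩
    · rw [hst] at hn
      exact (mem_filter.1 (mem_filter.1 hn).1).2
    · rw [Function.onFun, hst, hst, disjoint_left]
      intro n k k'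
      simp only [pc, mem_filter, mem_cell_floor hΛ] at k k'
      obtain ⟨j, r⟩ := a
      obtain ⟨j', r'⟩ := a'
      obtain rfl : j = j' := k.1.1.symm.trans k'.1.1
      obtain rfl : r = r' := k.2.symm.trans k'.2
      exact haa rfl
    · rw [RCLike.norm_conj]
      exact h1 _ _
    · rw [hst] at hm hn
      have k := (mem_filter.1 hm).2.trans (mem_filter.1 hn).2.symm
      rcases le_total m n with k' | k'
      · rw [maj_eq (h2 _) k' hmn k]
      · rw [maj_eq (h2 _) k' hmn.symm k.symm]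
  have k2 := h _ S s t _ hG
  have k3 : (S.card : ℝ) ≤ 2 * Y / x := by
    have k4 : (T.card : ℝ) ≤ 2 * Y / Λ := by
      have : T ⊆ Icc 1 ⌊2 * Y / Λ⌋₊ := fun j hj =>
        mem_Icc.2 ⟨(hT j hj).1, Nat.le_floor ((le_div_iff₀ hΛ).2 (hT j hj).2.1)⟩
      have k5 := card_le_card this
      rw [Nat.card_Icc, Nat.add_sub_cancel] at k5
      exact le_trans (by exact_mod_cast k5) (Nat.floor_le (by positivity))
    rw [card_sigma]
    push_cast
    refine (sum_le_card_nsmul _ _ (Λ / x) fun j _ => ?_).trans ?_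
    · rw [card_range, le_div_iff₀ hx]
      exact_mod_cast h3 j
    · rw [nsmul_eq_mul]
      calc (T.card : ℝ) * (Λ / x) ≤ 2 * Y / Λ * (Λ / x) := by gcongr
        _ = _ := by field_simp
  rw [← sum_subset (filter_subset _ _ : T ⊆ Ico 1 J) fun j hj hj' => by
    rw [not_nonempty_iff_eq_empty.1 fun k => hj' (mem_filter.2 ⟨hj, k⟩)]; simp]
  calc _ ≤ ∑ j ∈ T, 2 / (Y : ℝ) * ∑ r ∈ range ((B j).card + 1),
        ‖∑ n ∈ Ico (s ⟨j, r⟩) (t ⟨j, r⟩), g n * conj (ψ j n)‖ := by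
        refine sum_le_sum fun j hj => ?_
        have k4 : (0 : ℝ) < j := by exact_mod_cast (hT j hj).1
        rw [← mul_assoc, one_div_mul_one_div]
        refine mul_le_mul ?_ ?_ (norm_nonneg _) (by positivity)
        · rw [div_le_div_iff₀ (by positivity) hY', one_mul]
          exact (hT j hj).2.2
        · rw [← sum_fiberwise_of_maps_to (g := rk (B j)) (t := range ((B j).card + 1))
            fun n _ => mem_range.2 (Nat.lt_succ_of_le (card_filter_le _ _))]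
          simp only [hst]
          exact norm_sum_le _ _
    _ ≤ 2 / (Y : ℝ) * (ε * Y + C * (2 * Y / x)) := by
        rw [← mul_sum, sum_sigma']
        gcongr
        exact k2.trans (by gcongr)
    _ = _ := by field_simp; ring

end MajP

open MajP

theorem maj : S_Maj := by
  intro f l hl hf hR ι _ _ W δ ε lam hW hδ hε hlam
  have hδ' : 0 < 1 / (2 + 1 / δ) := by positivity
  have hd1 : 1 / (2 + 1 / δ) ≤ δ := by
    rw [div_le_iff₀ (by positivity), mul_add, mul_one_div_cancel hδ.ne']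
    linarith
  have hd2 : 1 / (2 + 1 / δ) ≤ 1 / 2 :=
    one_div_le_one_div_of_le two_pos (le_add_of_nonneg_right (by positivity))
  have key := fun S : Finset ι => Nil.major hl hf hR {k // k ∈ S} hW hδ'
    (show 0 < ε / 16 by positivity) hlam
  choose C hC key using key
  filter_upwards [eventually_all.2 key, hl (eventually_ge_atTop 4), eventually_all.2 fun S =>
    hl (tendsto_natCast_atTop_atTop.eventually_ge_atTop (32 * C S / ε))]
    with X hX h4 hC' P S Λ J ψ B hP hL hΛ hJ h1 h2 h3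
  have hX4 : (4 : ℝ) ≤ X := by exact_mod_cast h4
  have hX0 : (0 : ℝ) < X := by linarith
  have hXΛ : (X : ℝ) ≤ Λ :=
    le_trans (le_mul_of_one_le_left hX0.le (le_add_of_nonneg_left (by positivity))) (h3 0)
  have hΛ0 : 0 < Λ := by linarith
  have hlog : 1 ≤ Real.log X := by
    rw [Real.le_log_iff_exp_le hX0]
    linarith [Real.exp_one_lt_d9]
  set i0 := Nat.log 2 ⌈Λ⌉₊ with hi0
  set m := Nat.log 2 X with hm
  have c0 : ⌈Λ⌉₊ ≠ 0 := (Nat.ceil_pos.2 hΛ0).ne'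
  have c1 : (2 : ℝ) ^ i0 ≤ 2 * Λ := by
    have k1 : ((2 ^ i0 : ℕ) : ℝ) ≤ ⌈Λ⌉₊ := by exact_mod_cast Nat.pow_log_le_self 2 c0
    have k2 := Nat.ceil_lt_add_one hΛ0.le
    push_cast at k1
    linarith
  have c2 : Λ ≤ 2 * (2 : ℝ) ^ i0 := by
    have k1 : (⌈Λ⌉₊ : ℝ) ≤ ((2 ^ (i0 + 1) : ℕ) : ℝ) := by
      exact_mod_cast (Nat.lt_pow_succ_log_self one_lt_two _).le
    push_cast at k1
    rw [pow_succ'] at k1
    exact (Nat.le_ceil Λ).trans k1
  have c3 : (2 : ℝ) ^ m ≤ X := by exact_mod_cast Nat.pow_log_le_self 2 (by omega : X ≠ 0)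
  have c4 : (X : ℝ) ≤ 2 * 2 ^ m := by
    rw [← pow_succ']
    exact_mod_cast (Nat.lt_pow_succ_log_self one_lt_two X).le
  have c5 : (m : ℝ) ≤ 2 * Real.log X := by
    have k1 := Real.log_le_log (by positivity) c3
    rw [Real.log_pow] at k1
    nlinarith [Real.log_two_gt_d9, (Nat.cast_nonneg m : (0 : ℝ) ≤ m)]
  have hb : ∀ i ∈ Ico i0 (i0 + (m + 2)), ∑ j ∈ Ico 1 J, (1 / (j : ℝ)) * (1 / Λ *
      ‖∑ n ∈ (cell Λ j).filter (· ∈ Ico (2 ^ i) (2 * 2 ^ i)),
        f n * ((∏ k ∈ S, om (P k) n / rs (P k) : ℝ) : ℂ) * conj (ψ j n)‖) ≤ ε / 4 := fun i hi => by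
    obtain ⟨k1, k2⟩ := mem_Ico.1 hi
    have k3 := hX S (fun k => P k) (fun k p hp => ⟨(hP k p hp).1,
      (Real.rpow_le_rpow_of_exponent_le (by linarith) hd1).trans_lt (hP k p hp).2⟩) (fun k => hL k)
      (2 ^ i) (by
        refine (Real.rpow_le_rpow_of_exponent_le (by linarith) hd2).trans ?_
        have k4 : (2 : ℝ) ^ i0 ≤ 2 ^ i := pow_le_pow_right₀ one_le_two k1
        rw [← Real.sqrt_eq_rpow, Real.sqrt_le_iff]
        push_cast
        exact ⟨by positivity, by nlinarith⟩) (by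
        have k4 : (2 : ℝ) ^ i ≤ 2 ^ (i0 + m + 1) := pow_le_pow_right₀ one_le_two (by omega)
        rw [one_div_one_div, Real.rpow_add hX0, Real.rpow_two]
        rw [pow_succ, pow_add] at k4
        push_cast
        calc (2 : ℝ) ^ i ≤ 2 ^ i0 * 2 ^ m * 2 := k4
          _ ≤ 2 * Λ * X * 2 := by gcongr
          _ = 4 * X * Λ := by ring
          _ ≤ X * X * (X : ℝ) ^ (1 / δ) := by gcongr
          _ = _ := by ring)
    simp only [fun n => prod_coe_sort S fun k => om (P k) n / rs (P k)] at k3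
    refine (block (hC S).le (by positivity) hX0 hΛ0 k3 h1 h2 h3).trans ?_
    have k5 := hC' S
    rw [div_le_iff₀ hε] at k5
    have k6 : 4 * C S / X ≤ ε / 8 := by
      rw [div_le_iff₀ hX0]
      linarith
    linarith
  calc _ ≤ ∑ j ∈ Ico 1 J, ∑ i ∈ Ico i0 (i0 + (m + 2)), (1 / (j : ℝ)) * (1 / Λ *
        ‖∑ n ∈ (cell Λ j).filter (· ∈ Ico (2 ^ i) (2 * 2 ^ i)),
          f n * ((∏ k ∈ S, om (P k) n / rs (P k) : ℝ) : ℂ) * conj (ψ j n)‖) := by
        refine sum_le_sum fun j hj => ?_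
        obtain ⟨k1, k2⟩ := mem_Ico.1 hj
        have k3 : (1 : ℝ) ≤ j := by exact_mod_cast k1
        have k4 : (j : ℝ) + 1 ≤ X := by exact_mod_cast le_trans k2 hJ
        have k5 : ∀ n ∈ cell Λ j, ⌈Λ⌉₊ ≤ n ∧ n < 2 ^ (i0 + (m + 2)) := fun n hn => by
          rw [mem_cell] at hn
          refine ⟨Nat.ceil_le.2 (by nlinarith [hn.1]), ?_⟩
          have : (n : ℝ) < 2 ^ (i0 + (m + 2)) :=
            calc (n : ℝ) < (j + 1) * Λ := hn.2
              _ ≤ (2 * 2 ^ m) * (2 * 2 ^ i0) := by gcongr; linarith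
              _ = _ := by ring
          exact_mod_cast this
        rw [← mul_sum, ← mul_sum, wa, norm_smul, Real.norm_of_nonneg (by positivity),
          ← sum_fiberwise_of_maps_to (g := Nat.log 2) (t := Ico i0 (i0 + (m + 2))) fun n hn =>
            mem_Ico.2 ⟨Nat.log_mono_right (k5 n hn).1,
              Nat.log_lt_of_lt_pow (by have := (k5 n hn).1; omega) (k5 n hn).2⟩]
        gcongr
        refine (norm_sum_le _ _).trans (le_of_eq (sum_congr rfl fun i _ => ?_))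
        congr 2
        refine filter_congr fun n hn => ?_
        rw [mem_Ico, ← pow_succ', Nat.log_eq_iff (Or.inr ⟨one_lt_two, by
          have := (k5 n hn).1; omega⟩)]
    _ ≤ (m + 2) * (ε / 4) := by
        rw [sum_comm]
        refine (sum_le_card_nsmul _ _ _ hb).trans (le_of_eq ?_)
        rw [Nat.card_Ico, Nat.add_sub_cancel_left, nsmul_eq_mul]
        push_cast
        rfl
    _ ≤ _ := by nlinarith

end Pool.Agent.P.MP_a14ce1_nt.IV
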