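import Pool.Agent.P.MP_a14ce1_nt.IV.St2
import Pool.Agent.P.MP_a14ce1_nt.Nil.EL3

/-! Fair sampling and extension on one window, for the convex hull, at any base level. -/

open Finset

namespace Pool.Agent.P.MP_a14ce1_nt.IV

open Nil.ES Ax Nil.EL

theorem sv_eq (d s t : ℕ) (φ : ℕ → ℂ) :
    sv d s t φ = ∑ n ∈ Ico s t, (if d ∣ n then (d : ℂ) else 0) * φ n := by
  rw [sv, sum_filter, mul_sum]
  exact sum_congr rfl fun n _ => by split_ifs <;> simp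

theorem br_wW {R : ℝ} (hR : 0 < R) (j : ℕ) {c : ℕ} (hc : 0 < c) (d : ℕ) (φ ψ : ℕ → ℂ) :
    br (wW R j) (c * d) φ ψ = c / R * (sv d ⌈j * (R / c)⌉₊ ⌈(j + 1) * (R / c)⌉₊
      (pc (fun n => ψ (c * n)) fun n => φ (c * n))).re := by
  have e : ∑ n ∈ (cell (R / c) j).filter (fun n => d ∣ n), (pc ψ φ (c * n)).re =
      ∑ N ∈ (cell R j).filter (fun N => c * d ∣ N), (pc ψ φ N).re := by
    refine sum_bij (fun n _ => c * n) (fun n hn => ?_)
      (fun _ _ _ _ h => Nat.eq_of_mul_eq_mul_left hc h) (fun N hN => ?_) fun _ _ => rfl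
    · rw [mem_filter] at hn ⊢
      exact ⟨(mem_cell_div hc).mp hn.1, Nat.mul_dvd_mul_left c hn.2⟩
    · obtain ⟨h1, m, rfl⟩ := mem_filter.mp hN
      rw [mul_assoc] at h1
      exact ⟨d * m, mem_filter.mpr ⟨(mem_cell_div hc).mpr h1, dvd_mul_right _ _⟩,
        (mul_assoc _ _ _).symm⟩
  rw [br_eq, sv, ← Complex.ofReal_natCast, Complex.re_ofReal_mul, Complex.re_sum]
  change _ * ∑ N ∈ (cell R j).filter _, 1 / |R| * _ = _ * (_ * ∑ n ∈ (cell (R / c) j).filter _,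
    (pc ψ φ (c * n)).re)
  rw [e, ← mul_sum, abs_of_pos hR,
    sum_congr rfl (g := fun N => (pc ψ φ N).re) fun N _ => by simp [pc, mul_comm]]
  push_cast
  ring

theorem pw_sq {Q : ℝ} {C : ℕ} {P : Finset ℕ} {w : ℕ → ℝ} (hQ : 2 ≤ Q) (h : PW Q (2 * C + 1) P w) :
    PW (Q ^ 2) C P w :=
  ⟨h.pr, h.nn, h.sum, fun p hp => (h.le p hp).trans (by nlinarith), fun p hp => le_trans (by
    rw [← pow_mul]; exact pow_le_pow_right₀ (by linarith) (Nat.le_succ _)) (h.lo p hp),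
    fun p hp => (h.hi p hp).trans (by nlinarith)⟩

theorem win_len {ρ : ℝ} (hρ : 1 ≤ ρ) (j : ℕ) :
    ρ / 2 ≤ (⌈(j + 1) * ρ⌉₊ : ℝ) - ⌈j * ρ⌉₊ + (1 - ρ / 2) ∧ (⌈(j + 1) * ρ⌉₊ : ℝ) - ⌈j * ρ⌉₊ ≤ 2 * ρ := by
  have h1 := Nat.le_ceil (((j : ℝ) + 1) * ρ)
  have h2 := Nat.ceil_lt_add_one (show 0 ≤ (j : ℝ) * ρ by positivity)
  have h3 := Nat.le_ceil ((j : ℝ) * ρ)
  have h4 := Nat.ceil_lt_add_one (show 0 ≤ ((j : ℝ) + 1) * ρ by positivity)
  constructor <;> linarith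

theorem win_ok {Q ρ x : ℝ} {C : ℕ} (hQ : 2 ≤ Q) (hx : 1 ≤ x) (h : x * Q ^ (2 * C + 1) ≤ ρ) (j : ℕ) :
    1 ≤ ρ ∧ x * (Q ^ 2) ^ C ≤ (⌈(j + 1) * ρ⌉₊ : ℝ) - ⌈j * ρ⌉₊ := by
  have h1 : 1 ≤ x * (Q ^ 2) ^ C :=
    one_le_mul_of_one_le_of_one_le hx (one_le_pow₀ (by nlinarith))
  rw [pow_succ, pow_mul, ← mul_assoc] at h
  have h2 : 1 ≤ ρ := by nlinarith
  exact ⟨h2, by nlinarith [(win_len h2 j).1]⟩

theorem win_err {Q R : ℝ} {c : ℕ} (hQ : 2 ≤ Q) (hc : 0 < c) (hR : 0 < R) (h : 1 ≤ R / c) (j : ℕ) :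
    c / R * (((⌈(j + 1) * (R / c)⌉₊ : ℝ) - ⌈j * (R / c)⌉₊) / Q ^ 2) ≤ 1 / Q := by
  have hc' : (0 : ℝ) < c := by exact_mod_cast hc
  have hQ0 : 0 < Q := by linarith
  calc _ ≤ c / R * (Q * (R / c) / Q ^ 2) := by
        gcongr
        exact (win_len h j).2.trans (by gcongr)
    _ = _ := by field_simp

theorem Pr.ne (γ : Pr) : γ.s.Nonempty := by
  rw [nonempty_iff_ne_empty]
  intro h
  simpa [h] using γ.one

theorem fsW : S_FsW := by
  intro A hA ⟨C, h⟩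
  refine ⟨2 * C + 1, fun Q hQ γ R j c hP hc hR φ hφ ψ hψ => ?_⟩
  have hc' : (0 : ℝ) < c := by exact_mod_cast hc
  have h1 := fun (p : ℕ) hp => win_ok (ρ := R / c) (C := C) hQ (x := p)
    (by exact_mod_cast (hP.pr p hp).pos) (by rw [le_div_iff₀' hc', ← mul_assoc]; exact hR p hp) j
  obtain ⟨p0, hp0⟩ := Pr.ne γ
  have h2 := (h1 p0 hp0).1
  have hR0 : 0 < R := by have := (le_div_iff₀ hc').mp h2; linarith
  have e : ∀ (s t : ℕ) (g : ℕ → ℂ), ∑ p ∈ γ.s, (γ.w p : ℂ) * sv p s t g - sv 1 s t g =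
      ∑ n ∈ Ico s t, (∑ p ∈ γ.s, (γ.w p : ℂ) * (if p ∣ n then (p : ℂ) else 0) - 1) * g n := by
    intro s t g
    simp only [sv_eq, mul_sum, sub_mul, sum_sub_distrib, sum_mul, one_dvd, if_true, Nat.cast_one,
      mul_assoc]
    rw [sum_comm]
  have h3 := h (Q ^ 2) (by nlinarith) γ.s γ.w _ _ (pw_sq hQ hP) fun p hp => (h1 p hp).2
  simp only [e] at h3
  have h4 := hull_pc _ _ h3 _ (hull_dil hA hψ hc) _ (hull_dil hA hφ hc)
  rw [← e] at h4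
  have h5 := br_wW hR0 j hc 1 φ ψ
  rw [mul_one] at h5
  refine le_trans (le_of_eq ?_) ((mul_le_mul_of_nonneg_left
    ((Complex.abs_re_le_norm _).trans h4) (by positivity)).trans (win_err hQ hc hR0 h2 j))
  rw [← abs_of_pos (by positivity : 0 < c / R), ← abs_mul, h5]
  simp only [br_wW hR0 j hc, Pr.E_mul]
  simp only [Pr.E, Complex.sub_re, Complex.re_sum, Complex.re_ofReal_mul, mul_sub]

theorem hull_max {A : Set (ℕ → ℂ)} {L : (ℕ → ℂ) → ℝ} (hL : IsLinearMap ℝ L) {u : ℕ → ℂ}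
    (hu : u ∈ hull A) : ∃ a ∈ A, L u ≤ L a := by
  by_contra hc
  push Not at hc
  exact lt_irrefl (L u) (convexHull_min (t := {v | L v < L u}) hc (convex_halfSpace_lt hL _) hu)

theorem extW : S_ExtW := by
  intro A hA ⟨C, h⟩
  refine ⟨2 * C + 1, fun Q hQ γ γ' R j b hP hV hd hb hR χ ψ hχ hψ => ?_⟩
  have hb' : (0 : ℝ) < b := by exact_mod_cast hb
  have h1 := fun (p : ℕ) hp (v : ℕ) hv => win_ok (ρ := R / b) (C := C) hQ (x := p * (v : ℝ) ^ C)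
    (one_le_mul_of_one_le_of_one_le (by exact_mod_cast (hP.pr p hp).pos)
      (one_le_pow₀ (by exact_mod_cast (hV.pr v hv).pos))) (by
      rw [le_div_iff₀' hb', ← mul_assoc, ← mul_assoc]
      refine le_trans ?_ (hR p hp v hv)
      gcongr
      · exact_mod_cast (hV.pr v hv).pos
      · omega) j
  obtain ⟨p0, hp0⟩ := Pr.ne γ
  obtain ⟨v0, hv0⟩ := Pr.ne γ'
  have h2 := (h1 p0 hp0 v0 hv0).1
  have hR0 : 0 < R := by have := (le_div_iff₀ hb').mp h2; linarith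
  have h3 := win_err hQ hb hR0 h2 j
  have h4 := br_wW hR0 j hb
  generalize ⌈j * (R / b)⌉₊ = s at *
  generalize ⌈(j + 1) * (R / b)⌉₊ = t at *
  have h5 : ∀ p, ∃ a ∈ A, γ'.E (fun v => (sv (p * v) s t (pc (fun n => χ p (b * n))
      fun n => ψ v (b * n))).re) ≤ γ'.E fun v => (sv (p * v) s t (pc a fun n => ψ v (b * n))).re := by
    intro p
    refine hull_max (L := fun a => γ'.E fun v => (sv (p * v) s t (pc a fun n => ψ v (b * n))).re)
      ⟨fun _ _ => ?_, fun r _ => ?_⟩ (hull_dil hA (hχ p) hb)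
    · simp only [sv_eq, pc, Pi.add_apply, add_mul, mul_add, sum_add_distrib, Complex.add_re, Pr.E_add]
    · simp only [sv_eq, pc, Pi.smul_apply, Complex.real_smul, mul_assoc, mul_left_comm _ (r : ℂ),
        ← mul_sum, Complex.re_ofReal_mul, Pr.E_mul, smul_eq_mul]
  choose a ha ha' using h5
  choose κ _ w z w0 w1 hz hs using fun v =>
    mem_convexHull_iff_exists_fintype.mp (hull_dil hA (hψ v) hb)
  have e : ∀ (d v : ℕ) (u : ℕ → ℂ), sv d s t (pc u fun n => ψ v (b * n)) =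
      ∑ i, (w v i : ℂ) * sv d s t (pc u (z v i)) := by
    intro d v u
    simp only [← hs v, sv_eq, pc, Finset.sum_apply, Pi.smul_apply, Complex.real_smul, map_sum,
      map_mul, Complex.conj_ofReal, mul_sum]
    rw [sum_comm]
    exact sum_congr rfl fun _ _ => sum_congr rfl fun _ _ => by ring
  obtain ⟨u, hu, h6⟩ := h (Q ^ 2) (by nlinarith) γ.s γ'.s γ.w γ'.w s t (Σ v, κ v)
    (γ'.s.sigma fun _ => univ) (fun τ => τ.1) (fun τ => γ'.w τ.1 * w τ.1 τ.2) a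
    (fun τ => z τ.1 τ.2) (pw_sq hQ hP) (pw_sq hQ hV) hd
    (fun τ hτ => ⟨(mem_sigma.mp hτ).1, mul_nonneg (γ'.nn _) (w0 _ _), hz _ _⟩)
    (fun r hr => by
      rw [sum_filter, sum_sigma, sum_eq_single_of_mem r hr fun v _ hv => by simp [hv]]
      simp [← mul_sum, w1])
    (fun p _ => ha p) fun p hp v hv => (h1 p hp v hv).2
  obtain ⟨U, hU, hU'⟩ := hA.und u hu b hb
  refine ⟨U, subset_convexHull ℝ A hU, ?_⟩
  have e1 : γ'.E (fun v => γ.E fun p => br (wW R j) (b * p * v) (ψ v) (χ p)) = b / R *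
      γ.E fun p => γ'.E fun v => (sv (p * v) s t (pc (fun n => χ p (b * n))
        fun n => ψ v (b * n))).re := by
    simp only [mul_assoc, h4, Pr.E, mul_sum]
    rw [sum_comm]
    exact sum_congr rfl fun _ _ => sum_congr rfl fun _ _ => by ring
  have e2 : (γ.E fun p => γ'.E fun v => (sv (p * v) s t (pc (a p) fun n => ψ v (b * n))).re) =
      (∑ p ∈ γ.s, ∑ τ ∈ γ'.s.sigma fun v => (univ : Finset (κ v)),
        ((γ.w p * (γ'.w τ.1 * w τ.1 τ.2) : ℝ) : ℂ) * sv (p * τ.1) s t (pc (a p) (z τ.1 τ.2))).re := by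
    simp only [e, Pr.E, sum_sigma, Complex.re_sum, Complex.re_ofReal_mul, mul_sum, mul_assoc]
  have e3 : (γ'.E fun v => br (wW R j) (b * v) (ψ v) U) = b / R *
      (∑ τ ∈ γ'.s.sigma fun v => (univ : Finset (κ v)),
        ((γ'.w τ.1 * w τ.1 τ.2 : ℝ) : ℂ) * sv τ.1 s t (pc u (z τ.1 τ.2))).re := by
    simp only [h4, hU', Pr.E_mul]
    simp only [e, Pr.E, sum_sigma, Complex.re_sum, Complex.re_ofReal_mul, mul_sum, mul_assoc]
  have h7 := mul_le_mul_of_nonneg_left ((γ.E_le fun p _ => ha' p).trans (e2.le.trans h6))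
    (by positivity : 0 ≤ b / R)
  rw [e1, e3]
  linarith

end Pool.Agent.P.MP_a14ce1_nt.IV
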