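import Pool.Agent.P.MP_a14ce1_nt.IV.All0
import Pool.Agent.P.MP_a14ce1_nt.IV.Init
import Pool.Agent.P.MP_a14ce1_nt.IV.Iter
import Pool.Agent.P.MP_a14ce1_nt.IV.Low
import Pool.Agent.P.MP_a14ce1_nt.IV.Maj
import Pool.Agent.P.MP_a14ce1_nt.IV.End
import Pool.Agent.P.MP_a14ce1_nt.IV.Tilt
import Pool.Agent.P.MP_a14ce1_nt.IV.WinAx
import Pool.Agent.P.MP_a14ce1_nt.IV.ESW
import Pool.Agent.P.MP_a14ce1_nt.Nil.Cube2
import Pool.Agent.P.MP_a14ce1_nt.Nil.Pl.All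

/-! Assembly of the lifting argument: local uniformity from the inverse theorem. -/

namespace Pool.Agent.P.MP_a14ce1_nt.IV

theorem tilt_all : Ax.S_Tilt :=
  tiltAx hull (esw hull Nil.ES.esc fsW extW) (endp ew maj) (low hull ew)
    (tilt sec1_all (w1 bad conv) (w2 bad) ew)

theorem lift_all : Ax.S_Lift := lift tilt_all (iter Pl.plain_all Ch.m1)

theorem lu (hG : Ax.S_GIAx) : Pool.Agent.P.MP_e30989_nt.W.S_LU :=
  lu0 hG lift_all (init hull (w3 conv))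

end Pool.Agent.P.MP_a14ce1_nt.IV
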