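import Pool.Agent.P.MP_a14ce1_nt.IV.St

/-! Choice of the window length by pigeonholing. -/

open Finset Filter
open scoped ComplexConjugate

namespace Pool.Agent.P.MP_a14ce1_nt.IV

open Ch (rs om)
open Pool.Agent.P.MP_e30989_nt.W (UCM)

namespace PigP

theorem Ep_le {P : Finset ℕ} (hP : 0 < rs P) {φ ψ : ℕ → ℝ} {a b : ℝ}
    (h : ∀ p ∈ P, φ p ≤ a * ψ p + b) : Ep P φ ≤ a * Ep P ψ + b := by
  have h1 : ∑ p ∈ P, 1 / (p * rs P) = 1 := by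
    have : ∀ p : ℕ, 1 / (p * rs P) = 1 / p * (1 / rs P) := fun p => by rw [one_div_mul_one_div]
    simp only [this]
    rw [← sum_mul]
    exact mul_one_div_cancel hP.ne'
  calc Ep P φ ≤ ∑ p ∈ P, 1 / (p * rs P) * (a * ψ p + b) :=
        sum_le_sum fun p hp => mul_le_mul_of_nonneg_left (h p hp) (by positivity)
    _ = a * Ep P ψ + (∑ p ∈ P, 1 / (p * rs P)) * b := by
        rw [Ep, mul_sum, sum_mul, ← sum_add_distrib]
        exact sum_congr rfl fun p _ => by ring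
    _ = _ := by rw [h1, one_mul]

theorem gr_mid {XX : Set (ℕ → ℂ)} (h : Hull XX) {ρ : ℝ} {φ ψ : ℕ → ℂ} (h1 : Gr XX ρ φ)
    (h2 : Gr XX ρ ψ) : Gr XX ρ ((1 / 2 : ℝ) • φ + (1 / 2 : ℝ) • ψ) := fun j => by
  obtain ⟨u, hu, e1⟩ := h1 j
  obtain ⟨v, hv, e2⟩ := h2 j
  refine ⟨_, h.cvx hu hv (a := 1 / 2) (b := 1 / 2) (by norm_num) (by norm_num) (by norm_num),
    fun n hn => ?_⟩
  simp only [Pi.add_apply, Pi.smul_apply, e1 n hn, e2 n hn]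

theorem dst_par (X : ℕ) (f φ ψ : ℕ → ℂ) : dst X φ ψ =
    2 * dst X f ψ + 2 * dst X f φ - 4 * dst X f ((1 / 2 : ℝ) • φ + (1 / 2 : ℝ) • ψ) := by
  simp only [dst, mul_sum, ← sum_add_distrib, ← sum_sub_distrib]
  refine sum_congr rfl fun n _ => ?_
  have : ‖φ n - ψ n‖ ^ 2 = 2 * ‖f n - ψ n‖ ^ 2 + 2 * ‖f n - φ n‖ ^ 2 -
      4 * ‖f n - ((1 / 2 : ℝ) • φ + (1 / 2 : ℝ) • ψ) n‖ ^ 2 := by
    simp only [Complex.sq_norm, Complex.normSq_apply, Pi.add_apply, Pi.smul_apply, Complex.sub_re,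
      Complex.sub_im, Complex.add_re, Complex.add_im, Complex.smul_re, Complex.smul_im,
      smul_eq_mul]
    ring
  rw [this]; ring

theorem dst_tri (X : ℕ) (φ ψ χ : ℕ → ℂ) : dst X φ ψ ≤ 2 * dst X φ χ + 2 * dst X ψ χ := by
  simp only [dst, mul_sum, ← sum_add_distrib]
  refine sum_le_sum fun n _ => ?_
  have : ‖φ n - ψ n‖ ^ 2 ≤ 2 * ‖φ n - χ n‖ ^ 2 + 2 * ‖ψ n - χ n‖ ^ 2 := by
    simp only [Complex.sq_norm, Complex.normSq_apply, Complex.sub_re, Complex.sub_im]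
    nlinarith [sq_nonneg ((φ n).re + (ψ n).re - 2 * (χ n).re),
      sq_nonneg ((φ n).im + (ψ n).im - 2 * (χ n).im)]
  calc _ ≤ (2 * ‖φ n - χ n‖ ^ 2 + 2 * ‖ψ n - χ n‖ ^ 2) / n := by gcongr
    _ = _ := by ring

theorem dst_up {f : ℕ → ℂ} (hf : UCM f) (X : ℕ) (Ψ : ℕ → ℂ) {p : ℕ} (hp : p ≠ 0) :
    dst X f (Up f p Ψ) = ∑ m ∈ Icc 1 X, ‖f (p * m) - Ψ (p * m)‖ ^ 2 / m := by
  refine sum_congr rfl fun m hm => ?_
  have hm0 : m ≠ 0 := by have := (mem_Icc.1 hm).1; omega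
  have h1 : f p * conj (f p) = 1 := by
    rw [Complex.mul_conj, Complex.normSq_eq_norm_sq, hf.2 p hp]; simp
  have h2 : f (p * m) - Ψ (p * m) = f p * (f m - Up f p Ψ m) := by
    rw [hf.1.mul p m hp hm0, Up, mul_sub, ← mul_assoc, h1, one_mul]
  rw [h2, norm_mul, hf.2 p hp, one_mul]

/-- the distance to the functions structured on a grid -/
noncomputable def DD (XX : Set (ℕ → ℂ)) (f : ℕ → ℂ) (X : ℕ) (ρ : ℝ) : ℝ :=
  sInf (dst X f '' {Ψ | Gr XX ρ Ψ})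

theorem DD_le {XX : Set (ℕ → ℂ)} (f : ℕ → ℂ) (X : ℕ) {ρ : ℝ} {Ψ : ℕ → ℂ} (h : Gr XX ρ Ψ) :
    DD XX f X ρ ≤ dst X f Ψ := by
  refine csInf_le ⟨0, ?_⟩ ⟨Ψ, h, rfl⟩
  rintro _ ⟨Φ, -, rfl⟩
  exact dst_nonneg _ _ _

theorem DD_nonneg (XX : Set (ℕ → ℂ)) (f : ℕ → ℂ) (X : ℕ) (ρ : ℝ) : 0 ≤ DD XX f X ρ := by
  refine Real.sInf_nonneg ?_
  rintro _ ⟨Φ, -, rfl⟩
  exact dst_nonneg _ _ _

theorem DD_ex {XX : Set (ℕ → ℂ)} (h : Hull XX) (f : ℕ → ℂ) (X : ℕ) (ρ : ℝ) {τ : ℝ} (hτ : 0 < τ) :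
    ∃ Ψ, Gr XX ρ Ψ ∧ dst X f Ψ ≤ DD XX f X ρ + τ := by
  obtain ⟨_, ⟨Ψ, h1, rfl⟩, h2⟩ := exists_lt_of_csInf_lt
    (Set.Nonempty.image (dst X f) (s := {Ψ | Gr XX ρ Ψ}) ⟨0, gr_zero h ρ⟩)
    (lt_add_of_pos_right (DD XX f X ρ) hτ)
  exact ⟨Ψ, h1, h2.le⟩

theorem tele (D : ℕ → ℝ) (b : ℝ) (r : ℕ) (h : ∀ i < r, D (i + 1) ≤ D i + b) :
    D r ≤ D 0 + r * b := by
  induction r with
  | zero => simp
  | succ r ih =>
    have h1 := ih fun i hi => h i (by omega)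
    have h2 := h r (by omega)
    push_cast; linarith

theorem pigeon (D : ℕ → ℝ) {Λ : ℝ} {r : ℕ} (hr : 1 ≤ r) (h0 : D 0 ≤ Λ) (h1 : 0 ≤ D r) :
    ∃ i < r, D i - D (i + 1) ≤ Λ / r := by
  by_contra hc
  push Not at hc
  have hr' : (0 : ℝ) < r := by exact_mod_cast hr
  have h2 : ∑ i ∈ range r, Λ / r < ∑ i ∈ range r, (D i - D (i + 1)) :=
    sum_lt_sum_of_nonempty ⟨0, mem_range.2 hr⟩ fun i hi => hc i (mem_range.1 hi)
  rw [sum_range_sub', sum_const, card_range, nsmul_eq_mul, mul_div_cancel₀ _ hr'.ne'] at h2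
  linarith

end PigP

open PigP in
theorem pig (hR : S_Regrid) (hT : S_TKlog) : S_Pig := by
  refine ⟨328, by norm_num, fun XX hX f hf P Pm H d X r hPm hP hrs hr hH hA => ?_⟩
  set Λ := 1 + Real.log X with hΛ
  have hΛ1 : 1 ≤ Λ := by have := Real.log_natCast_nonneg X; linarith
  have hPm0 : 0 < Pm := by linarith
  have hPm1 : 1 ≤ Pm := by linarith
  have ht : 1 / Pm ≤ 1 / 2 := one_div_le_one_div_of_le two_pos hPm
  have hlog : 1 / 2 ≤ Real.log Pm := by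
    have := Real.log_two_gt_d9
    have := Real.log_le_log two_pos hPm
    linarith
  have hH0 : 0 < H := lt_of_lt_of_le (by positivity) hH
  set Hs : ℕ → ℝ := fun i => H / Pm ^ (2 * i) with hHs
  have hs1 : ∀ i ≤ r, 1 ≤ Hs i := fun i hi => by
    rw [hHs, one_le_div (by positivity)]
    exact (pow_le_pow_right₀ hPm1 (by omega)).trans hH
  have hs2 : ∀ i, Hs (i + 1) * Pm ^ 2 = Hs i := fun i => by
    simp only [hHs]; field_simp; ring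
  have hs0 : ∀ i, 0 < Hs i := fun i => by simp only [hHs]; positivity
  have hs3 : ∀ i, ∀ p : ℝ, 0 < p → p ≤ Pm → Hs (i + 1) ≤ 1 / Pm * (Hs i / p) := fun i p h1 h2 => by
    have := hs0 (i + 1)
    rw [← hs2 i]
    calc Hs (i + 1) = 1 / Pm * (Hs (i + 1) * Pm ^ 2 / Pm) := by field_simp
      _ ≤ _ := by gcongr
  set D : ℕ → ℝ := fun i => DD XX f X (Hs i) with hD
  have hstep : ∀ i < r, D (i + 1) ≤ D i + 8 * (1 / Pm) * Λ := fun i hi => by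
    refine le_of_forall_pos_le_add fun τ hτ => ?_
    obtain ⟨Ψ, g1, g2⟩ := DD_ex hX f X (Hs i) hτ
    obtain ⟨Ψ', g3, -, g4⟩ := hR XX hX (Hs i) (Hs (i + 1)) (1 / Pm) Ψ X (hs1 _ hi)
      (by simpa using hs3 i 1 one_pos hPm1) (by positivity) ht g1
    have g5 := g4 f hf.1.bd
    have g6 := DD_le f X g3
    simp only [hD]; linarith
  have hD0 : D 0 ≤ d := by
    obtain ⟨Ψ, g1, g2⟩ := hA
    refine (DD_le f X ?_).trans g2
    simpa [hHs] using g1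
  have hD1 : D 0 ≤ Λ := by
    refine (DD_le f X (gr_zero hX _)).trans (le_trans (sum_le_sum fun n _ => ?_) (harm_le X))
    have := hf.1.bd n
    rw [Pi.zero_apply, sub_zero]
    gcongr
    exact pow_le_one₀ (norm_nonneg _) this
  obtain ⟨i, hi, hpi⟩ := pigeon D hr hD1 (DD_nonneg _ _ _ _)
  obtain ⟨Ψ, g1, g2⟩ := DD_ex hX f X (Hs i) (τ := 1 / 2) (by norm_num)
  obtain ⟨Ψ1, g3, g4⟩ := DD_ex hX f X (Hs (i + 1)) (τ := 1 / 2) (by norm_num)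
  change _ ≤ D i + _ at g2
  change _ ≤ D (i + 1) + _ at g4
  refine ⟨Hs (i + 1), Ψ, Ψ1, ?_, ?_, by rwa [hs2], g3, ?_, ?_⟩
  · have e : H = Hs (i + 1) * Pm ^ (2 * (i + 1)) := by simp only [hHs]; field_simp
    have := hs0 (i + 1)
    rw [e]
    exact mul_le_mul_of_nonneg_left (pow_le_pow_right₀ hPm1 (by omega)) this.le
  · rw [hs2]
    exact div_le_self hH0.le (one_le_pow₀ hPm1)
  · have h1 := tele D _ (i + 1) fun k hk => hstep k (by omega)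
    have h2 : ((i + 1 : ℕ) : ℝ) ≤ r := by exact_mod_cast hi
    have h3 : ((i + 1 : ℕ) : ℝ) * (8 * (1 / Pm) * Λ) ≤ r * (8 * (1 / Pm) * Λ) := by gcongr
    have h4 : 0 ≤ r / Pm * Λ := by positivity
    have h5 : r * (8 * (1 / Pm) * Λ) = 8 * (r / Pm * Λ) := by ring
    linarith
  · have key : ∀ p ∈ P, dst X Ψ1 (Up f p Ψ) ≤
        4 * (∑ m ∈ Icc 1 X, ‖f (p * m) - Ψ (p * m)‖ ^ 2 / m) +
          (2 + 48 * (1 / Pm * Λ) - 4 * D (i + 1)) := fun p hp => by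
      have hp0 := (hP p hp).1.pos
      obtain ⟨U, k1, k2, k3⟩ := hR XX hX (Hs i / p) (Hs (i + 1)) (1 / Pm) (Up f p Ψ) X (hs1 _ hi)
        (hs3 i p (by exact_mod_cast hp0) (hP p hp).2) (by positivity) ht (g1.up hX hf.1.bd hp0)
      have k4 := k3 f hf.1.bd
      have k5 := dst_par X f Ψ1 U
      have k6 : D (i + 1) ≤ _ := DD_le f X (gr_mid hX g3 k1)
      have k7 := dst_tri X Ψ1 (Up f p Ψ) U
      rw [← dst_up hf X Ψ hp0.ne']
      linarith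
    have h1 := Ep_le hrs key
    have h2 := hT P Pm 4 X (fun n => ‖f n - Ψ n‖ ^ 2) hPm hP hrs fun n => by
      have a1 := hf.1.bd n
      have a2 := g1.bd hX (hs0 i) n
      have a3 := norm_sub_le (f n) (Ψ n)
      exact ⟨by positivity, by nlinarith [norm_nonneg (f n - Ψ n)]⟩
    change _ ≤ dst X f Ψ + _ at h2
    have h3 : 0 ≤ Λ / r := by positivity
    have h4 : 0 ≤ Λ / √(rs P) := by positivity
    have h5 : 0 ≤ 1 / Pm * Λ := by positivity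
    have h6 : (1 / r + 1 / √(rs P) + 1 / Pm) * Λ = Λ / r + Λ / √(rs P) + 1 / Pm * Λ := by ring
    rw [h6]
    linarith

end Pool.Agent.P.MP_a14ce1_nt.IV
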