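import Pool.Agent.P.MP_a14ce1_nt.IV.St

/-! The mass of a group of primes, the choice of the groups, and section 1 of the lifting
argument. -/

open Finset Filter

namespace Pool.Agent.P.MP_a14ce1_nt.IV

open Ch (rs om)
open V (PP)

namespace SelP

theorem sum_PP_add (φ : ℕ → ℝ) {a b c : ℕ} (hab : a ≤ b) (hbc : b ≤ c) :
    ∑ p ∈ PP a c, φ p = ∑ p ∈ PP a b, φ p + ∑ p ∈ PP b c, φ p := by
  rw [V.sum_PP φ hab, V.sum_PP φ hbc, V.sum_PP φ (hab.trans hbc), sum_Ico_consecutive _ hab hbc]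

theorem sum_grp (φ : ℕ → ℝ) (s : ℕ) {a b : ℕ} (hab : a ≤ b) :
    ∑ p ∈ PP (s * a) (s * b), φ p = ∑ g ∈ Ico a b, ∑ p ∈ grp s g, φ p := by
  induction b, hab using Nat.le_induction with
  | base => simp [PP]
  | succ b hab ih =>
    rw [sum_Ico_succ_top hab, ← ih, grp,
      ← sum_PP_add φ (Nat.mul_le_mul_left s hab) (Nat.mul_le_mul_left s b.le_succ)]

theorem sum_blk (ψ : ℕ → ℝ) (j0 L : ℕ) : ∑ g ∈ Ico j0 (j0 * 2 ^ L), ψ g =
    ∑ i ∈ range L, ∑ g ∈ Ico (j0 * 2 ^ i) (2 * (j0 * 2 ^ i)), ψ g := by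
  induction L with
  | zero => simp
  | succ L ih =>
    rw [sum_range_succ, ← ih, sum_Ico_consecutive _ (Nat.le_mul_of_pos_right _ (by positivity))
      (by omega), pow_succ]
    congr 2; ring

theorem sum_pr (a : ℕ) : ∑ p ∈ Ch.pr 0 ((2 : ℝ) ^ a), Real.log p / p =
    ∑ p ∈ PP 0 a, Real.log p / p := by
  refine sum_congr ?_ fun _ _ => rfl
  ext p
  have h2 : ⌊(2 : ℝ) ^ a⌋₊ = 2 ^ a := by
    rw [show (2 : ℝ) ^ a = ((2 ^ a : ℕ) : ℝ) by push_cast; rfl, Nat.floor_natCast]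
  simp only [Ch.pr, V.mem_PP, mem_filter, mem_Ioc, h2, Nat.floor_zero, pow_zero]
  constructor
  · rintro ⟨⟨-, h⟩, hp⟩; exact ⟨hp, hp.one_lt, h⟩
  · rintro ⟨hp, -, h⟩; exact ⟨⟨hp.pos, h⟩, hp⟩

theorem Ep_eq (P : Finset ℕ) (e : ℕ → ℝ) : Ep P e = (∑ p ∈ P, e p / p) / rs P := by
  rw [Ep, sum_div]
  exact sum_congr rfl fun p _ => by ring

end SelP

open SelP

theorem grpM (h2 : Ch.S_M2) : S_Grp := by
  obtain ⟨C, hC, h⟩ := h2
  have hl := Real.log_two_gt_d9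
  refine ⟨⌈8 * C⌉₊, fun s g hs hg => ?_⟩
  have hs1 : 8 * C ≤ s := (Nat.le_ceil _).trans (by exact_mod_cast hs)
  have hg1 : (1 : ℝ) ≤ g := by exact_mod_cast hg
  have h1 := h ((2 : ℝ) ^ (s * g)) (one_le_pow₀ one_le_two)
  have h3 := h ((2 : ℝ) ^ (s * (g + 1))) (one_le_pow₀ one_le_two)
  rw [sum_pr, Real.log_pow, abs_le] at h1 h3
  rw [sum_PP_add _ (Nat.zero_le (s * g)) (Nat.mul_le_mul_left s g.le_succ)] at h3
  push_cast at h1 h3
  set w : ℝ := s * Real.log 2 with hw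
  have hwC : 4 * C ≤ w := by nlinarith
  have hw0 : 0 < w := by linarith
  have hlo : w * g * rs (grp s g) ≤ ∑ p ∈ grp s g, Real.log p / p := by
    rw [rs, mul_sum]
    refine sum_le_sum fun p hp => ?_
    rw [grp, V.mem_PP] at hp
    rw [mul_one_div]
    gcongr
    have : ((2 : ℝ) ^ (s * g)) ≤ p := by exact_mod_cast hp.2.1.le
    have h4 := Real.log_le_log (by positivity) this
    rw [Real.log_pow] at h4; push_cast at h4; linarith
  have hup : ∑ p ∈ grp s g, Real.log p / p ≤ w * (g + 1) * rs (grp s g) := by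
    rw [rs, mul_sum]
    refine sum_le_sum fun p hp => ?_
    rw [grp, V.mem_PP] at hp
    rw [mul_one_div]
    gcongr
    have : (p : ℝ) ≤ (2 : ℝ) ^ (s * (g + 1)) := by exact_mod_cast hp.2.2
    have h4 := Real.log_le_log (by exact_mod_cast hp.1.pos) this
    rw [Real.log_pow] at h4; push_cast at h4; linarith
  rw [grp] at hlo hup ⊢
  constructor
  · rw [div_le_iff₀ (by positivity)]
    refine le_of_mul_le_mul_left ?_ hw0
    linarith
  · rw [le_div_iff₀ (by positivity)]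
    refine le_of_mul_le_mul_left ?_ hw0
    linarith

theorem sel (hG : S_Grp) : S_Sel := by
  obtain ⟨s0, h⟩ := hG
  refine ⟨s0, fun s j0 L e hs hj hL he => ?_⟩
  have hgl : ∀ J g : ℕ, 1 ≤ J → g ∈ Ico J (2 * J) →
      1 / (4 * (J : ℝ)) ≤ rs (grp s g) ∧ rs (grp s g) ≤ 2 / J := by
    intro J g hJ hg
    rw [mem_Ico] at hg
    have hJ1 : (1 : ℝ) ≤ J := by exact_mod_cast hJ
    have h1 : (J : ℝ) ≤ g := by exact_mod_cast hg.1
    have h2 : (g : ℝ) + 1 ≤ 2 * J := by exact_mod_cast hg.2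
    obtain ⟨h3, h4⟩ := h s g hs (hJ.trans hg.1)
    exact ⟨le_trans (one_div_le_one_div_of_le (by positivity) (by linarith)) h3,
      h4.trans (by gcongr)⟩
  have hm : ∀ J : ℕ, 1 ≤ J → 1 / 4 ≤ ∑ g ∈ Ico J (2 * J), rs (grp s g) ∧
      ∑ g ∈ Ico J (2 * J), rs (grp s g) ≤ 2 := by
    intro J hJ
    have hJ1 : (1 : ℝ) ≤ J := by exact_mod_cast hJ
    have hc : (Ico J (2 * J)).card = J := by rw [Nat.card_Ico]; omega
    constructor
    · refine le_trans (le_of_eq ?_) (card_nsmul_le_sum _ _ _ fun g hg => (hgl J g hJ hg).1)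
      rw [hc, nsmul_eq_mul]; field_simp
    · refine (sum_le_card_nsmul _ _ _ fun g hg => (hgl J g hJ hg).2).trans (le_of_eq ?_)
      rw [hc, nsmul_eq_mul]; field_simp
  have hJ : ∀ i : ℕ, 1 ≤ j0 * 2 ^ i := fun i => Nat.mul_pos hj (by positivity)
  have hsum : ∀ φ : ℕ → ℝ, ∑ p ∈ PP (s * j0) (s * j0 * 2 ^ L), φ p =
      ∑ i ∈ range L, ∑ g ∈ Ico (j0 * 2 ^ i) (2 * (j0 * 2 ^ i)), ∑ p ∈ grp s g, φ p := fun φ => by
    rw [mul_assoc, sum_grp φ s (Nat.le_mul_of_pos_right _ (by positivity)), sum_blk]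
  have hR : rs (PP (s * j0) (s * j0 * 2 ^ L)) =
      ∑ i ∈ range L, ∑ g ∈ Ico (j0 * 2 ^ i) (2 * (j0 * 2 ^ i)), rs (grp s g) := hsum _
  have hR1 : (L : ℝ) / 4 ≤ rs (PP (s * j0) (s * j0 * 2 ^ L)) := by
    rw [hR]
    refine le_trans (le_of_eq ?_) (card_nsmul_le_sum _ _ _ fun i _ => (hm _ (hJ i)).1)
    rw [card_range, nsmul_eq_mul]; ring
  refine ⟨hR1, ?_⟩
  have hL1 : (1 : ℝ) ≤ L := by exact_mod_cast hL
  have hR0 : 0 < rs (PP (s * j0) (s * j0 * 2 ^ L)) := by linarith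
  set μ := Ep (PP (s * j0) (s * j0 * 2 ^ L)) e with hμ
  have hnn : ∀ P : Finset ℕ, 0 ≤ ∑ p ∈ P, e p / p := fun P =>
    sum_nonneg fun p _ => div_nonneg (he p) (Nat.cast_nonneg p)
  have hμ0 : 0 ≤ μ := by rw [hμ, Ep_eq]; exact div_nonneg (hnn _) hR0.le
  obtain ⟨i, hi, hE⟩ : ∃ i ∈ range L, ∑ g ∈ Ico (j0 * 2 ^ i) (2 * (j0 * 2 ^ i)),
      ∑ p ∈ grp s g, e p / p ≤ μ * ∑ g ∈ Ico (j0 * 2 ^ i) (2 * (j0 * 2 ^ i)), rs (grp s g) := by
    refine exists_le_of_sum_le (nonempty_range_iff.2 (by omega)) (le_of_eq ?_)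
    rw [← mul_sum, ← hR, ← hsum, hμ, Ep_eq, div_mul_cancel₀ _ hR0.ne']
  rw [mem_range] at hi
  refine ⟨j0 * 2 ^ i, Nat.le_mul_of_pos_right _ (by positivity), ?_, fun l hl => ?_⟩
  · calc 2 * (j0 * 2 ^ i) = j0 * 2 ^ (i + 1) := by ring
      _ ≤ _ := Nat.mul_le_mul_left _ (Nat.pow_le_pow_right (by norm_num) hi)
  have hJi := hJ i
  generalize j0 * 2 ^ i = J at *
  have hJ1 : (1 : ℝ) ≤ J := by exact_mod_cast hJi
  have hE2 : ∑ g ∈ Ico J (2 * J), Ep (grp s g) e ≤ 8 * J * μ := by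
    calc _ ≤ ∑ g ∈ Ico J (2 * J), 4 * J * ∑ p ∈ grp s g, e p / p := by
          refine sum_le_sum fun g hg => ?_
          have h1 := (hgl J g hJi hg).1
          rw [Ep_eq, div_le_iff₀ (lt_of_lt_of_le (by positivity) h1)]
          rw [div_le_iff₀ (by positivity)] at h1
          nlinarith [hnn (grp s g)]
      _ ≤ 4 * J * (μ * 2) := by
          rw [← mul_sum]
          gcongr
          exact hE.trans (mul_le_mul_of_nonneg_left (hm J hJi).2 hμ0)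
      _ = _ := by ring
  have hcard : l ≤ ((Ico J (2 * J)).filter fun g => Ep (grp s g) e ≤ 16 * μ).card := by
    by_contra hlt
    have h1 := card_filter_add_card_filter_not (s := Ico J (2 * J))
      fun g => Ep (grp s g) e ≤ 16 * μ
    rw [Nat.card_Ico] at h1
    set B := (Ico J (2 * J)).filter fun g => ¬ Ep (grp s g) e ≤ 16 * μ with hB
    have h2 : J < 2 * B.card := by omega
    have h3 : (J : ℝ) ≤ 2 * B.card := by exact_mod_cast h2.le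
    have h4 : ∑ _g ∈ B, 16 * μ < ∑ g ∈ B, Ep (grp s g) e :=
      sum_lt_sum_of_nonempty (card_pos.1 (by omega)) fun g hg => not_le.1 (mem_filter.1 hg).2
    have h5 : ∑ g ∈ B, Ep (grp s g) e ≤ ∑ g ∈ Ico J (2 * J), Ep (grp s g) e := by
      refine sum_le_sum_of_subset_of_nonneg (filter_subset _ _) fun g hg _ => ?_
      rw [Ep_eq]
      exact div_nonneg (hnn _) (le_trans (by positivity) (hgl J g hJi hg).1)
    rw [sum_const, nsmul_eq_mul] at h4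
    nlinarith
  obtain ⟨T, hT, hTc⟩ := exists_subset_card_eq hcard
  refine ⟨T.orderEmbOfFin hTc, (T.orderEmbOfFin hTc).injective, fun k => ?_⟩
  have h1 := mem_filter.1 (hT (T.orderEmbOfFin_mem hTc k))
  have h2 := (hgl J _ hJi h1.1).1
  rw [div_le_iff₀ (by positivity)] at h2
  exact ⟨(mem_Ico.1 h1.1).1, (mem_Ico.1 h1.1).2, by linarith, h1.2⟩

theorem sec1 (hP : S_Pig) (hS : S_Sel) : S_Sec1 := by
  obtain ⟨C, hC, hP⟩ := hP
  obtain ⟨s0, hS⟩ := hS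
  refine ⟨32 * C, s0, by positivity,
    fun XX hX f hf s j0 L r X Pm H d hs hs1 hj hL hr hPm hH hA => ?_⟩
  have hL1 : (1 : ℝ) ≤ L := by exact_mod_cast hL
  have hr1 : (1 : ℝ) ≤ r := by exact_mod_cast hr
  have hR1 := (hS s j0 L (fun _ => 0) hs hj hL fun _ => le_rfl).1
  have hR0 : 0 < rs (PP (s * j0) (s * j0 * 2 ^ L)) := by linarith
  have h2 : 2 ≤ Pm := by
    rw [hPm]
    exact le_self_pow₀ one_le_two (by positivity)
  obtain ⟨ρ, Ψ, Ψ1, a1, a2, a3, a4, a5, a6⟩ := hP XX hX f hf (PP (s * j0) (s * j0 * 2 ^ L)) Pm H d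
    X r h2 (fun p hp => by
      rw [V.mem_PP] at hp
      exact ⟨hp.1, by rw [hPm]; exact_mod_cast hp.2.2⟩) hR0 hr hH hA
  obtain ⟨J, b1, b2, b3⟩ :=
    (hS s j0 L (fun p => dst X Ψ1 (Up f p Ψ)) hs hj hL fun _ => dst_nonneg _ _ _).2
  have hlX : 0 ≤ Real.log X := Real.log_natCast_nonneg X
  have hlP : 0 ≤ Real.log Pm := Real.log_nonneg (by linarith)
  refine ⟨ρ, Ψ, Ψ1, J, a1, a2, a3, a4, a5.trans ?_, b1, b2, fun l hl => ?_⟩
  · have : 0 ≤ r / Pm * (1 + Real.log X) + 1 := by positivity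
    nlinarith
  obtain ⟨g, c1, c2⟩ := b3 l hl
  refine ⟨g, c1, fun k => ⟨(c2 k).1, (c2 k).2.1, (c2 k).2.2.1, (c2 k).2.2.2.trans ?_⟩⟩
  have hsq : 1 / √(rs (PP (s * j0) (s * j0 * 2 ^ L))) ≤ 2 * (1 / √L) := by
    have h1 : √L ≤ 2 * √(rs (PP (s * j0) (s * j0 * 2 ^ L))) := by
      rw [Real.sqrt_le_left (by positivity), mul_pow, Real.sq_sqrt hR0.le]; linarith
    rw [mul_one_div, div_le_div_iff₀ (Real.sqrt_pos.2 hR0) (Real.sqrt_pos.2 (by linarith))]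
    linarith
  have h3 : (1 / r + 1 / √(rs (PP (s * j0) (s * j0 * 2 ^ L))) + 1 / Pm) * (1 + Real.log X) +
      Real.log Pm ≤ 2 * ((1 / r + 1 / √L + 1 / Pm) * (1 + Real.log X) + Real.log Pm) := by
    have h4 : (1 / r + 1 / √(rs (PP (s * j0) (s * j0 * 2 ^ L))) + 1 / Pm : ℝ) ≤
        2 * (1 / r + 1 / √L + 1 / Pm) := by
      have : (0 : ℝ) ≤ 1 / r := by positivity
      have : (0 : ℝ) ≤ 1 / Pm := by positivity
      linarith
    nlinarith [mul_le_mul_of_nonneg_right h4 (by linarith : 0 ≤ 1 + Real.log X)]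
  nlinarith [mul_le_mul_of_nonneg_left h3 hC.le]

end Pool.Agent.P.MP_a14ce1_nt.IV
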