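import Pool.Agent.P.MP_a14ce1_nt.IV.St

/-! Means over a cube of primes. -/

open Finset

namespace Pool.Agent.P.MP_a14ce1_nt.IV

open Ch (rs om)

namespace EwP

variable {ι : Type} [Fintype ι] [DecidableEq ι] {P : ι → Finset ℕ}

theorem ew_prod (P : ι → Finset ℕ) (φ : ι → ℕ → ℝ) :
    Ew P (fun a => ∏ k, φ k (a k)) = ∏ k, Ep (P k) (φ k) := by
  simp only [Ew, Ep, smul_eq_mul, ← prod_mul_distrib]
  exact (prod_univ_sum P fun k p => 1 / (p * rs (P k)) * φ k p).symm

theorem ep_one {Q : Finset ℕ} (h : 0 < rs Q) : Ep Q (fun _ => 1) = 1 := by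
  simp only [Ep, mul_one, ← div_div, ← sum_div]
  exact div_self h.ne'

theorem ew_const (h : ∀ k, 0 < rs (P k)) {E : Type} [AddCommGroup E] [Module ℝ E] (v : E) :
    Ew P (fun _ => v) = v := by
  have := ew_prod P fun _ _ => 1
  simp only [ep_one (h _), prod_const_one, Ew, smul_eq_mul, mul_one] at this
  rw [Ew, ← sum_smul, this, one_smul]

theorem ew_ite (h : ∀ k, 0 < rs (P k)) (S : Finset ι) (φ : ι → ℕ → ℝ) :
    Ew P (fun a => ∏ k ∈ S, φ k (a k)) = ∏ k ∈ S, Ep (P k) (φ k) := by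
  have := ew_prod P fun k p => if k ∈ S then φ k p else 1
  simp only [prod_ite_mem, univ_inter] at this
  rw [this, ← univ_inter S, ← prod_ite_mem, univ_inter]
  refine prod_congr rfl fun k _ => ?_
  split_ifs
  exacts [rfl, ep_one (h k)]

theorem mix (h : ∀ k, 0 < rs (P k)) {E : Type} [AddCommGroup E] [Module ℝ E] (Φ : (ι → ℕ) → E)
    (S : Finset ι) : Ew P Φ = Ew P fun a => Ew P fun a' => Φ (S.piecewise a a') := by
  have e : Ew P Φ = Ew P fun a => Ew P fun _ => Φ a := by simp only [ew_const h]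
  have m : ∀ x ∈ Fintype.piFinset P ×ˢ Fintype.piFinset P,
      (S.piecewise x.1 x.2, S.piecewise x.2 x.1) ∈ Fintype.piFinset P ×ˢ Fintype.piFinset P := by
    simp only [mem_product, Fintype.mem_piFinset, piecewise]
    intro x hx
    constructor <;> intro k <;> split_ifs
    exacts [hx.1 k, hx.2 k, hx.2 k, hx.1 k]
  have i : ∀ a a' : ι → ℕ, S.piecewise (S.piecewise a a') (S.piecewise a' a) = a := fun a a' => by
    funext k
    simp only [piecewise]
    split_ifs <;> rfl
  rw [e]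
  simp only [Ew, smul_sum, smul_smul, ← sum_product', ← prod_mul_distrib]
  refine sum_nbij' (fun x => (S.piecewise x.1 x.2, S.piecewise x.2 x.1))
    (fun x => (S.piecewise x.1 x.2, S.piecewise x.2 x.1)) m m (fun x _ => by simp only [i])
    (fun x _ => by simp only [i]) fun x _ => ?_
  simp only [i]
  congr 1
  refine prod_congr rfl fun k _ => ?_
  simp only [piecewise]
  split_ifs
  exacts [rfl, mul_comm _ _]

theorem ep_dvd {Q : Finset ℕ} (hQ : ∀ p ∈ Q, p.Prime) (n : ℕ) :
    Ep Q (fun p => if p ∣ n then (p : ℝ) else 0) = om Q n / rs Q := by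
  rw [om, card_filter, Nat.cast_sum, sum_div]
  refine sum_congr rfl fun p hp => ?_
  have : (p : ℝ) ≠ 0 := Nat.cast_ne_zero.mpr (hQ p hp).ne_zero
  beta_reduce
  split_ifs
  · rw [← div_div, div_mul_eq_mul_div, one_div_mul_cancel this, Nat.cast_one]
  · simp

end EwP

open EwP

theorem ew : S_Ew := by
  intro ι _ _ P h
  refine ⟨fun E _ _ v => ew_const h v, fun E _ _ Φ S => mix h Φ S, fun k φ => ?_,
    fun hd hp S n => ?_⟩
  · simpa only [prod_singleton] using ew_ite h {k} fun _ => φ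
  · simp only [← ep_dvd (hp _)]
    rw [← ew_ite h]
    refine sum_congr rfl fun a ha => congrArg _ ?_
    rw [Fintype.mem_piFinset] at ha
    simp only [pS]
    rw [prod_ite_zero, Nat.cast_prod]
    suffices h2 : ∏ k ∈ S, a k ∣ n ↔ ∀ k ∈ S, a k ∣ n by
      by_cases h3 : ∀ k ∈ S, a k ∣ n
      · rw [if_pos h3, if_pos (h2.mpr h3)]
      · rw [if_neg h3, if_neg (mt h2.mp h3)]
    refine ⟨fun h1 k hk => (dvd_prod_of_mem a hk).trans h1, fun h1 => ?_⟩
    refine prod_dvd_of_isRelPrime (fun k _ k' _ hk => Nat.coprime_iff_isRelPrime.mp ?_) h1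
    exact (Nat.coprime_primes (hp k _ (ha k)) (hp k' _ (ha k'))).mpr fun e =>
      disjoint_left.mp (hd k k' hk) (ha k) (e ▸ ha k')

end Pool.Agent.P.MP_a14ce1_nt.IV
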