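import Pool.Agent.P.MP_a14ce1_nt.IV.St

/-!
The Turan-Kubilius inequality with logarithmic weights.
-/

open Finset Filter

namespace Pool.Agent.P.MP_a14ce1_nt.IV

open Ch (rs om)

namespace TKlogP

theorem harm_Ioc {a b : ℕ} (ha : 1 ≤ a) (hab : a ≤ b) :
    ∑ m ∈ Ioc a b, 1 / (m : ℝ) ≤ Real.log b - Real.log a := by
  induction b, hab using Nat.le_induction with
  | base => simp
  | succ b hab ih =>
    rw [sum_Ioc_succ_top hab]
    have hb : (0 : ℝ) < b := by exact_mod_cast (by omega : 0 < b)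
    have h3 : Real.log b - Real.log (b + 1) ≤ -(1 / ((b : ℝ) + 1)) := by
      rw [← Real.log_div (by positivity) (by positivity)]
      refine (Real.log_le_sub_one_of_pos (by positivity)).trans (le_of_eq ?_)
      field_simp; ring
    push_cast; linarith

theorem harm_tail {p : ℕ} (hp : 1 ≤ p) (X : ℕ) :
    ∑ m ∈ Ioc (X / p) X, 1 / (m : ℝ) ≤ 1 + Real.log p := by
  have hl : 0 ≤ Real.log p := Real.log_nonneg (by exact_mod_cast hp)
  rcases le_or_gt X (X / p) with h | h
  · rw [Ioc_eq_empty (by omega), sum_empty]; linarith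
  · rw [← sum_Ioc_consecutive _ (Nat.le_succ (X / p)) h, Nat.Ioc_succ_singleton, sum_singleton]
    have h1 := harm_Ioc (a := X / p + 1) (Nat.le_add_left 1 _) h
    have h2 : (X : ℝ) ≤ p * ((X / p + 1 : ℕ) : ℝ) := by
      exact_mod_cast (Nat.lt_mul_div_succ X hp).le
    have h3 : (1 : ℝ) ≤ ((X / p + 1 : ℕ) : ℝ) := by exact_mod_cast Nat.le_add_left 1 _
    have hX : (0 : ℝ) < X := by exact_mod_cast (Nat.zero_le _).trans_lt h
    have hp' : (0 : ℝ) < p := by exact_mod_cast hp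
    have h4 := Real.log_le_log hX h2
    rw [Real.log_mul hp'.ne' (by linarith)] at h4
    have h5 : 1 / ((X / p + 1 : ℕ) : ℝ) ≤ 1 := by rw [div_le_one (by linarith)]; exact h3
    simp only [Nat.succ_eq_add_one]
    linarith

theorem swap (P : Finset ℕ) (hP : ∀ p ∈ P, 1 ≤ p) (L : ℝ) (X : ℕ) (ψ : ℕ → ℝ) :
    ∑ p ∈ P, 1 / (p * L) * ∑ m ∈ Icc 1 (X / p), ψ (p * m) / m =
      ∑ n ∈ Icc 1 X, ψ n / n * (om P n / L) := by
  have h1 : ∀ p ∈ P, 1 / (p * L) * ∑ m ∈ Icc 1 (X / p), ψ (p * m) / m =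
      ∑ n ∈ Icc 1 X, if p ∣ n then ψ n / n / L else 0 := by
    intro p hp
    have hp0 : 0 < p := hP p hp
    have e : (Icc 1 X).filter (fun n => p ∣ n) = (Icc 1 (X / p)).image (fun m => p * m) := by
      ext n
      simp only [mem_filter, mem_Icc, mem_image]
      constructor
      · rintro ⟨⟨h1, h2⟩, m, rfl⟩
        exact ⟨m, ⟨Nat.pos_of_mul_pos_left h1, (Nat.le_div_iff_mul_le hp0).2 (by rwa [mul_comm])⟩,
          rfl⟩
      · rintro ⟨m, ⟨h1, h2⟩, rfl⟩
        exact ⟨⟨Nat.mul_pos hp0 h1, by rw [mul_comm]; exact (Nat.le_div_iff_mul_le hp0).1 h2⟩,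
          dvd_mul_right _ _⟩
    rw [← sum_filter, e, sum_image fun a _ b _ h => mul_left_cancel₀ hp0.ne' h, mul_sum]
    refine sum_congr rfl fun m _ => ?_
    push_cast
    ring
  rw [sum_congr rfl h1, sum_comm]
  refine sum_congr rfl fun n _ => ?_
  rw [← sum_filter, sum_const, nsmul_eq_mul, om]
  ring

theorem abel (a : ℕ → ℝ) (c : ℝ) {K X : ℕ} (hK : 1 ≤ K) (h0 : ∀ n, 0 ≤ a n)
    (h : ∀ N, K ≤ N → ∑ n ∈ Icc 1 N, a n ≤ c * N) (hX : K ≤ X) :
    ∑ n ∈ Ioc K X, a n / n ≤ (∑ n ∈ Icc 1 X, a n) / X + c * ∑ n ∈ Ioc K X, 1 / (n : ℝ) := by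
  induction X, hX using Nat.le_induction with
  | base =>
    simp only [Ioc_self, sum_empty, mul_zero, add_zero]
    exact div_nonneg (sum_nonneg fun n _ => h0 n) (Nat.cast_nonneg _)
  | succ X hX ih =>
    rw [sum_Ioc_succ_top hX, sum_Ioc_succ_top hX, sum_Icc_succ_top (by omega)]
    have hX0 : (0 : ℝ) < X := by exact_mod_cast (by omega : 0 < X)
    have h1 : (∑ n ∈ Icc 1 X, a n) / X ≤ (∑ n ∈ Icc 1 X, a n) / (X + 1) + c * (1 / (X + 1)) := by
      have h2 := h X hX
      rw [mul_one_div, ← add_div, div_le_div_iff₀ hX0 (by positivity)]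
      nlinarith
    push_cast
    rw [add_div]
    linarith

theorem one_sum {P : Finset ℕ} (hL : 0 < rs P) : ∑ p ∈ P, 1 / (p * rs P) = 1 := by
  have : ∑ p ∈ P, 1 / (p * rs P) = (∑ p ∈ P, (1 : ℝ) / p) / rs P := by
    rw [sum_div]; exact sum_congr rfl fun p _ => by ring
  rw [this]; exact div_self hL.ne'

theorem small {P : Finset ℕ} (hP : ∀ p ∈ P, 1 ≤ p) (hL : 0 < rs P) (K : ℕ) :
    ∑ n ∈ Icc 1 K, 1 / (n : ℝ) * (om P n / rs P) ≤ 1 + Real.log K := by
  rw [← swap P hP (rs P) K fun _ => 1]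
  calc _ ≤ ∑ p ∈ P, 1 / (p * rs P) * (1 + Real.log K) := by
        refine sum_le_sum fun p _ => mul_le_mul_of_nonneg_left ?_ (by positivity)
        exact (sum_le_sum_of_subset_of_nonneg (Icc_subset_Icc_right (Nat.div_le_self _ _))
          fun n _ _ => by positivity).trans (harm_le K)
    _ = _ := by rw [← sum_mul, one_sum hL, one_mul]

theorem large (hT : Ch.S_TK) {P : Finset ℕ} (hP : ∀ p ∈ P, p.Prime) (hL : 0 < rs P) (X : ℕ) :
    ∑ n ∈ Ioc P.card X, |1 - om P n / rs P| / n ≤ 4 * ((1 + Real.log X) / √(rs P)) := by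
  have hl : 0 ≤ Real.log X := Real.log_natCast_nonneg X
  have hs : 0 < √(rs P) := Real.sqrt_pos.2 hL
  rcases le_or_gt X P.card with hX | hX
  · rw [Ioc_eq_empty (by omega), sum_empty]; positivity
  have hK : 1 ≤ P.card := by
    rw [Nat.succ_le_iff, card_pos, nonempty_iff_ne_empty]
    rintro rfl
    simp [rs] at hL
  have hX0 : (0 : ℝ) < X := by exact_mod_cast (by omega : 0 < X)
  have hA : ∀ N, P.card ≤ N → ∑ n ∈ Icc 1 N, (1 - om P n / rs P) ^ 2 ≤ 3 / rs P * N :=
    fun N hN => (hT P N hP hN hL).trans (le_of_eq (by ring))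
  have h1 := abel (fun n => (1 - om P n / rs P) ^ 2) (3 / rs P) hK (fun _ => sq_nonneg _) hA hX.le
  have h2 : (∑ n ∈ Icc 1 X, (1 - om P n / rs P) ^ 2) / X ≤ 3 / rs P :=
    (div_le_iff₀ hX0).2 (hA X hX.le)
  have h3 : ∑ n ∈ Ioc P.card X, 1 / (n : ℝ) ≤ 1 + Real.log X :=
    (sum_le_sum_of_subset_of_nonneg (fun n hn => by
      rw [mem_Ioc] at hn; rw [mem_Icc]; omega) fun n _ _ => by positivity).trans (harm_le X)
  have h4 : ∑ n ∈ Ioc P.card X, (1 - om P n / rs P) ^ 2 / n ≤ 6 / rs P * (1 + Real.log X) := by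
    have h5 := mul_le_mul_of_nonneg_left h3 (by positivity : 0 ≤ 3 / rs P)
    have h6 : 3 / rs P ≤ 3 / rs P * (1 + Real.log X) :=
      le_mul_of_one_le_right (by positivity) (by linarith)
    have h7 : 6 / rs P * (1 + Real.log X) = 2 * (3 / rs P * (1 + Real.log X)) := by ring
    linarith
  generalize hs' : √(rs P) = s at hs
  have hss : rs P = s * s := by rw [← hs', Real.mul_self_sqrt hL.le]
  calc _ ≤ ∑ n ∈ Ioc P.card X, (s / 2 * ((1 - om P n / rs P) ^ 2 / n) + 1 / s * (1 / (n : ℝ))) := by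
        refine sum_le_sum fun n _ => ?_
        have h8 : |1 - om P n / rs P| ≤ s / 2 * (1 - om P n / rs P) ^ 2 + 1 / s := by
          rw [← sq_abs]
          generalize |1 - om P n / rs P| = x
          rw [← sub_nonneg]
          have : s / 2 * x ^ 2 + 1 / s - x = ((s * x - 1) ^ 2 + 1) / (2 * s) := by
            field_simp; ring
          rw [this]; positivity
        refine (div_le_div_of_nonneg_right h8 (Nat.cast_nonneg n)).trans (le_of_eq ?_)
        ring
    _ ≤ s / 2 * (6 / rs P * (1 + Real.log X)) + 1 / s * (1 + Real.log X) := by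
        rw [sum_add_distrib, ← mul_sum, ← mul_sum]
        gcongr
    _ = _ := by rw [hss]; field_simp; ring

end TKlogP

open TKlogP in
theorem tklog (hT : Ch.S_TK) : S_TKlog := by
  intro P Pm B X φ hPm hP hL hφ
  have hB : 0 ≤ B := (hφ 0).1.trans (hφ 0).2
  have hP1 : ∀ p ∈ P, 1 ≤ p := fun p hp => (hP p hp).1.one_le
  have hlP : 1 / 2 ≤ Real.log Pm := by
    have := Real.log_le_log two_pos hPm
    have := Real.log_two_gt_d9
    linarith
  have hom : ∀ n, 0 ≤ om P n / rs P := fun n => div_nonneg (Nat.cast_nonneg _) hL.le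
  have h1 : Ep P (fun p => ∑ m ∈ Icc 1 X, φ (p * m) / m) ≤
      ∑ n ∈ Icc 1 X, φ n / n * (om P n / rs P) + B * (1 + Real.log Pm) := by
    have e0 : B * (1 + Real.log Pm) = ∑ p ∈ P, 1 / (p * rs P) * (B * (1 + Real.log Pm)) := by
      rw [← sum_mul, one_sum hL, one_mul]
    rw [← swap P hP1 (rs P) X φ, e0, ← sum_add_distrib]
    refine sum_le_sum fun p hp => ?_
    rw [← mul_add]
    refine mul_le_mul_of_nonneg_left ?_ (by positivity)
    have e : Icc 1 X = Icc 1 (X / p) ∪ Ioc (X / p) X := by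
      have := Nat.div_le_self X p
      generalize X / p = q at this
      ext m; simp only [mem_union, mem_Icc, mem_Ioc]; omega
    beta_reduce
    rw [e, sum_union (disjoint_left.2 fun m h h' =>
      absurd (mem_Icc.1 h).2 (not_le.2 (mem_Ioc.1 h').1))]
    refine add_le_add le_rfl ?_
    have hp' : (0 : ℝ) < p := by exact_mod_cast hP1 p hp
    calc _ ≤ ∑ m ∈ Ioc (X / p) X, B * (1 / (m : ℝ)) := sum_le_sum fun m _ => by
          rw [mul_one_div]; exact div_le_div_of_nonneg_right (hφ _).2 (Nat.cast_nonneg m)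
      _ ≤ B * (1 + Real.log p) := by
          rw [← mul_sum]; exact mul_le_mul_of_nonneg_left (harm_tail (hP1 p hp) X) hB
      _ ≤ _ := by gcongr; exact (hP p hp).2
  have hK : (P.card : ℝ) ≤ Pm := by
    have h2 : P ⊆ Icc 1 ⌊Pm⌋₊ := fun p hp => mem_Icc.2 ⟨hP1 p hp, Nat.le_floor (hP p hp).2⟩
    have h3 := card_le_card h2
    rw [Nat.card_Icc, add_tsub_cancel_right] at h3
    exact (Nat.cast_le.2 h3).trans (Nat.floor_le (by linarith))
  have hlK : Real.log P.card ≤ Real.log Pm := by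
    rcases Nat.eq_zero_or_pos P.card with h | h
    · rw [h]; simp; linarith
    · exact Real.log_le_log (by exact_mod_cast h) hK
  have h2 : ∑ n ∈ Icc 1 X, φ n / n * (om P n / rs P) ≤ ∑ n ∈ Icc 1 X, φ n / n +
      (B * ∑ n ∈ Icc 1 P.card, 1 / (n : ℝ) * (om P n / rs P) +
        B * ∑ n ∈ Ioc P.card X, |1 - om P n / rs P| / n) := by
    rw [← sub_le_iff_le_add', ← sum_sub_distrib, mul_sum, mul_sum,
      ← sum_filter_add_sum_filter_not (Icc 1 X) (fun n => n ≤ P.card)]
    refine add_le_add ?_ ?_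
    · refine le_trans (sum_le_sum fun n _ => ?_) (sum_le_sum_of_subset_of_nonneg (fun n hn => ?_)
        fun n _ _ => mul_nonneg hB (mul_nonneg (by positivity) (hom n)))
      · have h3 : 0 ≤ φ n / n := div_nonneg (hφ n).1 (Nat.cast_nonneg n)
        have h4 : φ n / n ≤ B * (1 / n) := by
          rw [mul_one_div]; exact div_le_div_of_nonneg_right (hφ _).2 (Nat.cast_nonneg n)
        have h5 := mul_le_mul_of_nonneg_right h4 (hom n)
        rw [← mul_assoc]; linarith
      · rw [mem_filter, mem_Icc] at hn; rw [mem_Icc]; omega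
    · refine le_trans (sum_le_sum fun n _ => ?_) (le_of_eq (sum_congr ?_ fun _ _ => rfl))
      · have h3 : φ n * (om P n / rs P - 1) ≤ B * |1 - om P n / rs P| := by
          rw [abs_sub_comm]
          exact (mul_le_mul_of_nonneg_left (le_abs_self _) (hφ n).1).trans
            (mul_le_mul_of_nonneg_right (hφ n).2 (abs_nonneg _))
        calc _ = φ n * (om P n / rs P - 1) / n := by ring
          _ ≤ B * |1 - om P n / rs P| / n := div_le_div_of_nonneg_right h3 (Nat.cast_nonneg n)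
          _ = _ := mul_div_assoc _ _ _
      · ext n; simp only [mem_filter, mem_Icc, mem_Ioc]; omega
  have h3 := mul_le_mul_of_nonneg_left (small hP1 hL P.card) hB
  have h4 := mul_le_mul_of_nonneg_left (large hT (fun p hp => (hP p hp).1) hL X) hB
  have h5 : 0 ≤ B * ((1 + Real.log X) / √(rs P)) :=
    mul_nonneg hB (div_nonneg (by linarith [Real.log_natCast_nonneg X]) (Real.sqrt_nonneg _))
  have h6 := mul_le_mul_of_nonneg_left hlP hB
  have h7 := mul_le_mul_of_nonneg_left hlK hB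
  linarith

end Pool.Agent.P.MP_a14ce1_nt.IV
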