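import Pool.Agent.P.MP_a14ce1_nt.IV.Fin
import Pool.Agent.P.MP_a14ce1_nt.IV.Grid
import Pool.Agent.P.MP_a14ce1_nt.IV.Win
import Pool.Agent.P.MP_a14ce1_nt.IV.Ew
import Pool.Agent.P.MP_a14ce1_nt.IV.TKlog
import Pool.Agent.P.MP_a14ce1_nt.IV.Pig
import Pool.Agent.P.MP_a14ce1_nt.IV.Sel
import Pool.Agent.P.MP_a14ce1_nt.Ch.Mertens
import Pool.Agent.P.MP_a14ce1_nt.Ch.TK

/-! The pieces of the soft layer that the plain step uses as well. -/

namespace Pool.Agent.P.MP_a14ce1_nt.IV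

theorem regrid_all : S_Regrid := regrid bad

theorem tklog_all : S_TKlog := tklog Ch.tk

theorem sec1_all : S_Sec1 := sec1 (pig regrid_all tklog_all) (sel (grpM Ch.m2))

end Pool.Agent.P.MP_a14ce1_nt.IV
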