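import Pool.Agent.P.MP_a14ce1_nt.IV.St

/-!
From the tilted step and the iteration to local uniformity.
-/

open Finset Filter

namespace Pool.Agent.P.MP_a14ce1_nt.IV

open Pool.Agent.P.MP_e30989_nt.W (UCM RMRH S_LU)

theorem tiltAx (hH : S_Hull) (hW : S_ESW) (hE : S_End) (hL : S_Low) (hT : S_TiltA) :
    Ax.S_Tilt := by
  intro A hA f l hl hf hR δ hδ
  have hh := hH _ hA.sys.atm
  obtain ⟨κ, hκ, h⟩ := hT _ hh (hW _ hA.sys) (hL A hA.sys.atm (hE A hA.dec)) f l hl hf hR δ hδ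
  refine ⟨κ, hκ, fun κ0 h0 h1 => ?_⟩
  have ht : Tendsto (fun X : ℕ => (X : ℝ) ^ κ0) atTop atTop :=
    (tendsto_rpow_atTop h0).comp tendsto_natCast_atTop_atTop
  filter_upwards [h κ0 h0 h1, hl (ht.eventually_ge_atTop 2)] with X hX h2
  have h2' : 2 ≤ (X : ℝ) ^ κ0 := h2
  by_contra hc
  refine hX _ (Nat.le_ceil _) ?_
    (app_of_lt hh (Nat.ceil_pos.2 (by linarith)) (not_le.1 hc))
  have := Nat.ceil_lt_add_one (show 0 ≤ (X : ℝ) ^ κ0 by positivity)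
  rw [mul_comm, Real.rpow_mul (Nat.cast_nonneg X), Real.rpow_two]
  nlinarith

theorem lift (hT : Ax.S_Tilt) (hI : S_Iter) : Ax.S_Lift := by
  intro A hA f l hl hf hR δ hδ
  obtain ⟨κ1, h1, hT⟩ := hT A hA f l hl hf hR (δ / 2) (by positivity)
  obtain ⟨κ0, H0, h0, h2, hI⟩ := hI _ hA.sys (δ / 2) κ1 (by positivity) h1
  refine ⟨H0, fun H hH => ?_⟩
  filter_upwards [hT κ0 h0 h2, hl (hI H hH)] with X a b
  have b' : ∀ f, UCM f → Ax.dst (Ax.res A) f ⌈(X : ℝ) ^ κ0⌉₊ X ≤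
    Ax.dst (Ax.res A) f H X + δ / 2 * Real.log X := b
  linarith [b' f hf]

theorem lu0 (hG : Ax.S_GIAx) (hL : Ax.S_Lift) (hI : S_Init) : S_LU := by
  classical
  intro f l hl hf hR k δ hδ
  obtain ⟨S, c, H0, hS, hg, hc, hG⟩ := hG k (δ / 4) (by positivity)
  obtain ⟨ε, hε, hε'⟩ : ∃ ε : ℝ, 0 < ε ∧ 2 ^ k * (hS.toFinset.card * ε) ≤ δ / 2 := by
    refine ⟨δ / (2 * 2 ^ k * (hS.toFinset.card + 1)), by positivity, ?_⟩
    rw [← mul_div_assoc, ← mul_div_assoc, div_le_div_iff₀ (by positivity) (by positivity)]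
    have : (0 : ℝ) < δ * 2 ^ k := by positivity
    nlinarith
  have h1 : ∀ A ∈ S, ∀ᶠ H : ℕ in atTop, ∀ᶠ X : ℕ in l,
      ∑ x ∈ (Icc 1 X).filter (fun x => ∃ a ∈ Ax.res A,
        c * H ≤ ‖∑ n ∈ Ico x (x + H), Ax.pc f a n‖), 1 / (x : ℝ) ≤ ε * Real.log X := by
    intro A hA
    obtain ⟨η, hη, hI⟩ := hI _ c ε (hg A hA).sys.atm hc hε
    obtain ⟨H1, hL⟩ := hL A (hg A hA) f l hl hf hR η hη
    obtain ⟨H2, hI⟩ := hI H1
    filter_upwards [eventually_ge_atTop H2] with H hH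
    obtain ⟨H', h1, h2⟩ := hI H hH
    filter_upwards [hL H' h1, hl h2] with X a b
    exact b f hf a
  obtain ⟨H3, h3⟩ := eventually_atTop.1
    (((eventually_all_finite hS).2 h1).and (eventually_ge_atTop H0))
  refine ⟨H3, fun H hH => ?_⟩
  obtain ⟨h4, h5⟩ := h3 H hH
  have hlog : Tendsto (fun X : ℕ => Real.log X) atTop atTop :=
    Real.tendsto_log_atTop.comp tendsto_natCast_atTop_atTop
  filter_upwards [(eventually_all_finite hS).2 h4, hl (hlog.eventually_ge_atTop 1)] with X hX x1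
  have x1' : 1 ≤ Real.log X := x1
  have hb : ∀ n, ‖f n‖ ≤ 1 := hf.1.bd
  have h6 : ∀ x ∈ Icc 1 X, 1 / (x : ℝ) * V.cube k f x H ≤ δ / 4 * (1 / (x : ℝ)) +
      2 ^ k * ∑ A ∈ hS.toFinset, if ∃ a ∈ Ax.res A,
        c * H ≤ ‖∑ n ∈ Ico x (x + H), Ax.pc f a n‖ then 1 / (x : ℝ) else 0 := by
    intro x _
    have h0 : (0 : ℝ) ≤ 1 / x := by positivity
    have hn : ∀ A ∈ hS.toFinset, (0 : ℝ) ≤ if ∃ a ∈ Ax.res A,
        c * H ≤ ‖∑ n ∈ Ico x (x + H), Ax.pc f a n‖ then 1 / (x : ℝ) else 0 := fun A _ => by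
      split_ifs
      exacts [h0, le_rfl]
    by_cases hx : δ / 4 ≤ V.cube k f x H
    · obtain ⟨A, hA, h⟩ := hG f x H hb h5 hx
      have h7 := single_le_sum hn (hS.mem_toFinset.2 hA)
      rw [if_pos h] at h7
      have h8 := mul_le_mul_of_nonneg_left (V.cube_le k hb x H) h0
      have h9 := mul_le_mul_of_nonneg_left h7 (show (0 : ℝ) ≤ 2 ^ k by positivity)
      have : 0 ≤ δ / 4 * (1 / (x : ℝ)) := by positivity
      linarith
    · have h8 := mul_le_mul_of_nonneg_left (not_le.1 hx).le h0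
      have h9 := mul_nonneg (show (0 : ℝ) ≤ 2 ^ k by positivity) (sum_nonneg hn)
      linarith
  refine (sum_le_sum h6).trans ?_
  rw [sum_add_distrib, ← mul_sum, ← mul_sum, sum_comm]
  have h7 : ∑ A ∈ hS.toFinset, ∑ x ∈ Icc 1 X, (if ∃ a ∈ Ax.res A,
      c * H ≤ ‖∑ n ∈ Ico x (x + H), Ax.pc f a n‖ then 1 / (x : ℝ) else 0) ≤
      hS.toFinset.card * (ε * Real.log X) := by
    rw [← nsmul_eq_mul]
    refine sum_le_card_nsmul _ _ _ fun A hA => ?_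
    rw [← sum_filter]
    exact hX A (hS.mem_toFinset.1 hA)
  have h8 := mul_le_mul_of_nonneg_left h7 (show (0 : ℝ) ≤ 2 ^ k by positivity)
  have h9 := mul_le_mul_of_nonneg_right hε' (show 0 ≤ Real.log X by linarith)
  have h10 := mul_le_mul_of_nonneg_left (harm_le X) (show 0 ≤ δ / 4 by positivity)
  have h11 := mul_le_mul_of_nonneg_left x1' (show 0 ≤ δ / 4 by positivity)
  linarith

end Pool.Agent.P.MP_a14ce1_nt.IV
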