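import Pool.Agent.P.MP_a14ce1_nt.Nil.Ax
import Pool.Agent.P.MP_a14ce1_nt.V.St
import Pool.Agent.P.MP_a14ce1_nt.Nil.ES

/-!
The soft layer of the lifting argument: grids, approximation by locally structured functions, cubes
of primes, and the statements of the pieces (first step, iteration, last step).
Every piece is a theorem of the shape  S_a → S_b → S_c  in a file importing only this one.
-/

open Finset Filter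
open scoped ComplexConjugate

namespace Pool.Agent.P.MP_a14ce1_nt.IV

open Ch (rs om)
open V (PP)
open Pool.Agent.P.MP_e30989_nt.W (UCM RMRH)

/-- the properties of the convex hull of a class of atoms -/
structure Hull (XX : Set (ℕ → ℂ)) : Prop where
  cvx : Convex ℝ XX
  zero : (0 : ℕ → ℂ) ∈ XX
  bd : ∀ φ ∈ XX, ∀ n, ‖φ n‖ ≤ 1
  sc : ∀ φ ∈ XX, ∀ z : ℂ, ‖z‖ ≤ 1 → (fun n => z * φ n) ∈ XX
  dil : ∀ φ ∈ XX, ∀ d : ℕ, 0 < d → (fun n => φ (d * n)) ∈ XX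
  und : ∀ φ ∈ XX, ∀ d : ℕ, 0 < d → ∃ ψ ∈ XX, ∀ n, ψ (d * n) = φ n

/-- the naturals in [j ρ, (j + 1) ρ) -/
noncomputable def cell (ρ : ℝ) (j : ℕ) : Finset ℕ := Ico ⌈(j : ℝ) * ρ⌉₊ ⌈((j : ℝ) + 1) * ρ⌉₊

/-- Ψ agrees with a member of XX on every cell of the grid of length ρ -/
def Gr (XX : Set (ℕ → ℂ)) (ρ : ℝ) (Ψ : ℕ → ℂ) : Prop :=
  ∀ j, ∃ u ∈ XX, ∀ n ∈ cell ρ j, Ψ n = u n

/-- logarithmically weighted squared distance -/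
noncomputable def dst (X : ℕ) (φ ψ : ℕ → ℂ) : ℝ := ∑ n ∈ Icc 1 X, ‖φ n - ψ n‖ ^ 2 / n

/-- f is within d of the functions that are structured on the grid of length ρ -/
def App (XX : Set (ℕ → ℂ)) (f : ℕ → ℂ) (X : ℕ) (ρ d : ℝ) : Prop :=
  ∃ Ψ, Gr XX ρ Ψ ∧ dst X f Ψ ≤ d

/-- descent along p -/
noncomputable def Up (f : ℕ → ℂ) (p : ℕ) (Ψ : ℕ → ℂ) : ℕ → ℂ := fun m => conj (f p) * Ψ (p * m)

open Classical in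
/-- a member of XX that agrees with Ψ on the cell j, or zero if there is none -/
noncomputable def loc (XX : Set (ℕ → ℂ)) (Ψ : ℕ → ℂ) (ρ : ℝ) (j : ℕ) : ℕ → ℂ :=
  if h : ∃ u ∈ XX, ∀ n ∈ cell ρ j, Ψ n = u n then h.choose else 0

/-- the interval [j t, (j + 1) t) lies in a unit interval -/
def good (t : ℝ) (j : ℕ) : Prop := ∃ i : ℕ, (i : ℝ) ≤ j * t ∧ ((j : ℝ) + 1) * t ≤ i + 1

/-- mean over a cell -/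
noncomputable def wa {E : Type*} [AddCommGroup E] [Module ℝ E] (ρ : ℝ) (j : ℕ) (φ : ℕ → E) : E :=
  (1 / ρ) • ∑ m ∈ cell ρ j, φ m

/-- logarithmic sum over the cells 1 ≤ j < J -/
noncomputable def ws (ρ : ℝ) (J : ℕ) (φ : ℕ → ℕ → ℝ) : ℝ :=
  ∑ j ∈ Ico 1 J, (1 / (j : ℝ)) * wa ρ j (φ j)

/-- the gain of u against z -/
noncomputable def gn (z u : ℂ) : ℝ := 2 * (z * conj u).re - ‖u‖ ^ 2

/-- mean over a set of primes with weights 1 / p -/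
noncomputable def Ep (P : Finset ℕ) (φ : ℕ → ℝ) : ℝ := ∑ p ∈ P, 1 / (p * rs P) * φ p

/-- mean over a cube of primes -/
noncomputable def Ew {ι E : Type*} [Fintype ι] [DecidableEq ι] [AddCommGroup E] [Module ℝ E]
    (P : ι → Finset ℕ) (Φ : (ι → ℕ) → E) : E :=
  ∑ a ∈ Fintype.piFinset P, (∏ k, 1 / ((a k : ℝ) * rs (P k))) • Φ a

/-- product of the coordinates in S -/
def pS {ι : Type*} (S : Finset ι) (a : ι → ℕ) : ℕ := ∏ k ∈ S, a k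

/-- a group of primes -/
def grp (s g : ℕ) : Finset ℕ := PP (s * g) (s * (g + 1))

/-! ### Efron-Stein on a window -/

/-- Efron-Stein decomposition on one window [j R, (j + 1) R), in absolute coordinates N = a m -/
def ESW (XX : Set (ℕ → ℂ)) : Prop :=
  ∃ C : ℕ, ∀ Q : ℝ, 2 ≤ Q → ∀ (ι : Type) [Fintype ι] [DecidableEq ι] (P : ι → Finset ℕ)
    (Pm R : ℝ) (j l0 : ℕ), 2 ≤ Fintype.card ι → 2 ^ Fintype.card ι ≤ Q →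
    (∀ k k', k ≠ k' → Disjoint (P k) (P k')) →
    (∀ k, ∀ p ∈ P k, p.Prime ∧ Q ^ C ≤ p ∧ (p : ℝ) ≤ Pm) → Real.log Pm ≤ Q →
    (∀ k, 1 ≤ Q * rs (P k)) → (∀ a ∈ Fintype.piFinset P, pS univ a * (Pm * Q) ^ C ≤ R) →
    ∀ (F : (ι → ℕ) → ℕ → ℂ) (G : ι → (ι → ℕ) → ℕ → ℂ), (∀ a, F a ∈ XX) → (∀ k a, G k a ∈ XX) →
    (∀ k a p, G k (Function.update a k p) = G k a) →
    ∃ M : Finset ι → (ι → ℕ) → ℕ → ℂ, (∀ T a, M T a ∈ XX) ∧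
      (∀ T a a', (∀ k ∈ T, a k = a' k) → M T a = M T a') ∧
      Ew P (fun a => wa (R / pS univ a) j fun m => ‖F a (pS univ a * m) -
          ∑ T, (Nil.ES.cf (Nil.ES.lo ι l0) T : ℂ) * M T a (pS univ a * m)‖ ^ 2) ≤
        (∑ k, Ew P fun a => wa (R / pS univ a) j fun m =>
          ‖F a (pS univ a * m) - G k a (pS univ a * m)‖ ^ 2) / (l0 + 1) + 1 / Q

def S_ESW : Prop := ∀ A, Ax.Sys A → ESW (Ax.hull A)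

/-! ### Grids -/

def S_Hull : Prop := ∀ A, Ax.At A → Hull (Ax.hull A)

open Classical in
/-- few cells of a finer grid meet two cells of a coarser one -/
def S_Bad : Prop := ∀ (t : ℝ) (J : ℕ), 0 < t → t ≤ 1 / 2 →
  ∑ j ∈ (Ico 1 J).filter (fun j => ¬ good t j), 1 / (j : ℝ) ≤ 2 * t * (1 + Real.log J)

/-- cell sums against logarithmic weights -/
def S_Conv : Prop := ∀ (ρ B : ℝ) (J : ℕ) (ψ : ℕ → ℝ), 1 ≤ ρ → 1 ≤ J → (∀ m, |ψ m| ≤ B) →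
  |ws ρ J (fun _ => ψ) - ∑ m ∈ Ico ⌈ρ⌉₊ ⌈(J : ℝ) * ρ⌉₊, ψ m / m| ≤ 4 * B

def S_Regrid : Prop := ∀ XX, Hull XX → ∀ (ρ ρ' t : ℝ) (Ψ : ℕ → ℂ) (X : ℕ), 1 ≤ ρ' → ρ' ≤ t * ρ →
  0 < t → t ≤ 1 / 2 → Gr XX ρ Ψ → ∃ Ψ', Gr XX ρ' Ψ' ∧ dst X Ψ Ψ' ≤ 8 * t * (1 + Real.log X) ∧
    ∀ g : ℕ → ℂ, (∀ n, ‖g n‖ ≤ 1) → dst X g Ψ' ≤ dst X g Ψ + 8 * t * (1 + Real.log X)

/-- from a global function to windows: the gain -/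
def S_W1 : Prop := ∀ XX, Hull XX → ∀ (f Ψ : ℕ → ℂ) (ρ ρ' t K : ℝ) (X J : ℕ), UCM f → Gr XX ρ Ψ →
  1 ≤ ρ' → ρ' ≤ t * ρ → 0 < t → t ≤ 1 / 2 → 1 ≤ J → J * ρ' ≤ X → X ≤ K * (J * ρ') →
  Real.log X - dst X f Ψ - 30 * (t * (1 + Real.log X) + Real.log ρ' + Real.log K + 1) ≤
    ws ρ' J fun j m => gn (f m) (loc XX Ψ ρ' j m)

/-- from global functions to windows: the influence -/
def S_W2 : Prop := ∀ XX, Hull XX → ∀ (f Ψ Ψ1 : ℕ → ℂ) (ρ ρ1 ρ' t : ℝ) (X J p : ℕ), UCM f →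
  Gr XX ρ Ψ → Gr XX ρ1 Ψ1 → 1 ≤ ρ' → ρ' ≤ t * ρ1 → p * ρ' ≤ t * ρ → 0 < t → t ≤ 1 / 2 → 0 < p →
  J * ρ' ≤ X →
  (ws ρ' J fun j m =>
      ‖loc XX Ψ1 ρ' j m - conj (f p) * loc XX Ψ (p * ρ') j (p * m)‖ ^ 2) ≤
    2 * dst X Ψ1 (Up f p Ψ) + 32 * t * (1 + Real.log X)

/-- from windows to a global function -/
def S_W3 : Prop := ∀ XX, Hull XX → ∀ (f : ℕ → ℂ) (u : ℕ → ℕ → ℂ) (ρ : ℝ) (X J : ℕ), UCM f →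
  (∀ j, u j ∈ XX) → 1 ≤ ρ → J * ρ ≤ X →
  App XX f X ρ (Real.log X + 13 - ws ρ J fun j m => gn (f m) (u j m))

/-! ### The cube -/

def S_Ew : Prop := ∀ (ι : Type) [Fintype ι] [DecidableEq ι] (P : ι → Finset ℕ),
  (∀ k, 0 < rs (P k)) →
  (∀ (E : Type) [AddCommGroup E] [Module ℝ E] (v : E), Ew P (fun _ => v) = v) ∧
  (∀ (E : Type) [AddCommGroup E] [Module ℝ E] (Φ : (ι → ℕ) → E) (S : Finset ι),
    Ew P Φ = Ew P fun a => Ew P fun a' => Φ (S.piecewise a a')) ∧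
  (∀ (k : ι) (φ : ℕ → ℝ), Ew P (fun a => φ (a k)) = Ep (P k) φ) ∧
  ((∀ k k', k ≠ k' → Disjoint (P k) (P k')) → (∀ k, ∀ p ∈ P k, p.Prime) →
    ∀ (S : Finset ι) (n : ℕ), Ew P (fun a => if pS S a ∣ n then (pS S a : ℝ) else 0) =
      ∏ k ∈ S, om (P k) n / rs (P k))

/-- Turan-Kubilius with logarithmic weights -/
def S_TKlog : Prop := ∀ (P : Finset ℕ) (Pm B : ℝ) (X : ℕ) (φ : ℕ → ℝ), 2 ≤ Pm →
  (∀ p ∈ P, p.Prime ∧ (p : ℝ) ≤ Pm) → 0 < rs P → (∀ n, 0 ≤ φ n ∧ φ n ≤ B) →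
  Ep P (fun p => ∑ m ∈ Icc 1 X, φ (p * m) / m) ≤ ∑ n ∈ Icc 1 X, φ n / n +
    20 * B * ((1 + Real.log X) / √(rs P) + Real.log Pm)

/-- choice of the window length by pigeonholing -/
def S_Pig : Prop := ∃ C : ℝ, 0 < C ∧ ∀ XX, Hull XX → ∀ f, UCM f →
  ∀ (P : Finset ℕ) (Pm H d : ℝ) (X r : ℕ), 2 ≤ Pm → (∀ p ∈ P, p.Prime ∧ (p : ℝ) ≤ Pm) → 0 < rs P →
    1 ≤ r → Pm ^ (2 * r) ≤ H → App XX f X H d →
    ∃ (ρ : ℝ) (Ψ Ψ1 : ℕ → ℂ), H ≤ ρ * Pm ^ (2 * r) ∧ ρ * Pm ^ 2 ≤ H ∧ Gr XX (ρ * Pm ^ 2) Ψ ∧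
      Gr XX ρ Ψ1 ∧ dst X f Ψ1 ≤ d + C * (r / Pm * (1 + Real.log X) + 1) ∧
      Ep P (fun p => dst X Ψ1 (Up f p Ψ)) ≤
        C * ((1 / r + 1 / √(rs P) + 1 / Pm) * (1 + Real.log X) + Real.log Pm)

/-- the mass of a group -/
def S_Grp : Prop := ∃ s0 : ℕ, ∀ s g : ℕ, s0 ≤ s → 1 ≤ g →
  1 / (2 * ((g : ℝ) + 1)) ≤ rs (grp s g) ∧ rs (grp s g) ≤ 2 / g

/-- choice of the groups -/
def S_Sel : Prop := ∃ s0 : ℕ, ∀ (s j0 L : ℕ) (e : ℕ → ℝ), s0 ≤ s → 1 ≤ j0 → 1 ≤ L →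
  (∀ p, 0 ≤ e p) → (L : ℝ) / 4 ≤ rs (PP (s * j0) (s * j0 * 2 ^ L)) ∧
  ∃ J : ℕ, j0 ≤ J ∧ 2 * J ≤ j0 * 2 ^ L ∧ ∀ l : ℕ, 2 * l ≤ J → ∃ g : Fin l → ℕ,
    Function.Injective g ∧ ∀ k, J ≤ g k ∧ g k < 2 * J ∧ 1 ≤ 4 * J * rs (grp s (g k)) ∧
      Ep (grp s (g k)) e ≤ 16 * Ep (PP (s * j0) (s * j0 * 2 ^ L)) e

/-- section 1 of the lifting argument -/
def S_Sec1 : Prop := ∃ (C : ℝ) (s0 : ℕ), 0 < C ∧ ∀ XX, Hull XX → ∀ f, UCM f →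
  ∀ (s j0 L r X : ℕ) (Pm H d : ℝ), s0 ≤ s → 1 ≤ s → 1 ≤ j0 → 1 ≤ L → 1 ≤ r →
    Pm = 2 ^ (s * j0 * 2 ^ L) → Pm ^ (2 * r) ≤ H → App XX f X H d →
    ∃ (ρ : ℝ) (Ψ Ψ1 : ℕ → ℂ) (J : ℕ), H ≤ ρ * Pm ^ (2 * r) ∧ ρ * Pm ^ 2 ≤ H ∧
      Gr XX (ρ * Pm ^ 2) Ψ ∧ Gr XX ρ Ψ1 ∧ dst X f Ψ1 ≤ d + C * (r / Pm * (1 + Real.log X) + 1) ∧
      j0 ≤ J ∧ 2 * J ≤ j0 * 2 ^ L ∧ ∀ l : ℕ, 2 * l ≤ J → ∃ g : Fin l → ℕ,
        Function.Injective g ∧ ∀ k, J ≤ g k ∧ g k < 2 * J ∧ 1 ≤ 4 * J * rs (grp s (g k)) ∧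
          Ep (grp s (g k)) (fun p => dst X Ψ1 (Up f p Ψ)) ≤
            C * ((1 / r + 1 / √L + 1 / Pm) * (1 + Real.log X) + Real.log Pm)

/-! ### First step and iteration -/

open Classical in
/-- if f is far from the structured functions then few windows correlate with an atom -/
def S_Init : Prop := ∀ (A : Set (ℕ → ℂ)) (c ε : ℝ), Ax.At A → 0 < c → 0 < ε →
  ∃ δ : ℝ, 0 < δ ∧ ∀ H1 : ℕ, ∃ H0 : ℕ, ∀ H : ℕ, H0 ≤ H → ∃ H' : ℕ, H1 ≤ H' ∧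
    ∀ᶠ X : ℕ in atTop, ∀ f, UCM f → (1 - δ) * Real.log X ≤ Ax.dst A f H' X →
      ∑ x ∈ (Icc 1 X).filter (fun x => ∃ a ∈ A, c * H ≤ ‖∑ n ∈ Ico x (x + H), Ax.pc f a n‖),
        1 / (x : ℝ) ≤ ε * Real.log X

def S_Iter : Prop := ∀ A : Set (ℕ → ℂ), Ax.Sys A → ∀ ε κ : ℝ, 0 < ε → 0 < κ →
  ∃ (κ0 : ℝ) (H0 : ℕ), 0 < κ0 ∧ κ0 ≤ κ ∧ ∀ H : ℕ, H0 ≤ H → ∀ᶠ X : ℕ in atTop, ∀ f, UCM f →
    Ax.dst A f ⌈(X : ℝ) ^ κ0⌉₊ X ≤ Ax.dst A f H X + ε * Real.log X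

/-! ### The last step -/

/-- the major part on a grid: ψ j is constant on classes between few break points -/
def S_Maj : Prop := ∀ (f : ℕ → ℂ) (l : Filter ℕ), l ≤ atTop → UCM f → RMRH f l →
  ∀ (ι : Type) [Fintype ι] [DecidableEq ι] (W : ℕ) (δ ε lam : ℝ), 0 < W → 0 < δ → 0 < ε → 0 < lam →
  ∀ᶠ X : ℕ in l, ∀ (P : ι → Finset ℕ) (S : Finset ι) (Λ : ℝ) (J : ℕ) (ψ : ℕ → ℤ → ℂ)
    (B : ℕ → Finset ℤ), (∀ k, ∀ p ∈ P k, p.Prime ∧ (X : ℝ) ^ δ < p) → (∀ k, lam ≤ rs (P k)) →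
    Λ ≤ (X : ℝ) ^ (1 / δ) → J ≤ X → (∀ j n, ‖ψ j n‖ ≤ 1) → (∀ j, Nil.Maj W (B j) (ψ j)) →
    (∀ j, ((B j).card + 1) * (X : ℝ) ≤ Λ) →
    ∑ j ∈ Ico 1 J, (1 / (j : ℝ)) * ‖wa Λ j fun n =>
      f n * ((∏ k ∈ S, om (P k) n / rs (P k) : ℝ) : ℂ) * conj (ψ j n)‖ ≤ ε * Real.log X

/-- atoms do not correlate with f on long windows against divisor weights -/
def End (AA : Set (ℤ → ℂ)) : Prop := ∃ C : ℕ, ∀ (f : ℕ → ℂ) (l : Filter ℕ), l ≤ atTop → UCM f →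
  RMRH f l → ∀ (ι : Type) [Fintype ι] [DecidableEq ι] (δ ε lam : ℝ), 0 < δ → 0 < ε → 0 < lam →
  ∀ᶠ X : ℕ in l, ∀ (P : ι → Finset ℕ) (S S2 : Finset ι) (Λ : ℝ) (J : ℕ) (ψ : ℕ → ℤ → ℂ),
    (∀ k k', k ≠ k' → Disjoint (P k) (P k')) → (∀ k, ∀ p ∈ P k, p.Prime ∧ (X : ℝ) ^ δ < p) →
    (∀ k, lam ≤ rs (P k)) → S2 ⊆ S →
    (∀ a ∈ Fintype.piFinset P, X ^ C ≤ pS S2 a ∧ pS S2 a * (X : ℝ) ^ C ≤ Λ) →
    Λ ≤ (X : ℝ) ^ (1 / δ) → J ≤ X → (∀ j, ψ j ∈ AA) →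
    ∑ j ∈ Ico 1 J, (1 / (j : ℝ)) * ‖Ew P fun a => wa (Λ / pS S a) j fun m =>
      f (pS S a * m) * conj (ψ j ((pS S a * m : ℕ) : ℤ))‖ ≤ ε * Real.log X

def S_End : Prop := ∀ AA, Nil.DecAx AA → End AA

/-- the low part of the decomposition does not correlate with f -/
def Low (XX : Set (ℕ → ℂ)) : Prop := ∃ C : ℕ, ∀ (f : ℕ → ℂ) (l : Filter ℕ), l ≤ atTop → UCM f →
  RMRH f l → ∀ (n : ℕ) (δ ε lam : ℝ), 0 < δ → 0 < ε → 0 < lam →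
  ∀ᶠ X : ℕ in l, ∀ (P : Fin (10 * n) → Finset ℕ) (y R : ℝ) (J : ℕ)
    (M : ℕ → Finset (Fin (10 * n)) → (Fin (10 * n) → ℕ) → ℕ → ℂ),
    (∀ k k', k ≠ k' → Disjoint (P k) (P k')) → (X : ℝ) ^ δ ≤ y → (X : ℝ) ^ C ≤ y ^ n →
    (∀ k, ∀ p ∈ P k, p.Prime ∧ y < p ∧ (p : ℝ) ≤ y ^ 2) → (∀ k, lam ≤ rs (P k)) →
    y ^ (10 * n) ≤ R → R ≤ (X : ℝ) ^ (1 / δ) → J ≤ X → (∀ j T a, M j T a ∈ XX) →
    (∀ j T a a', (∀ k ∈ T, a k = a' k) → M j T a = M j T a') →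
    ∑ j ∈ Ico 1 J, (1 / (j : ℝ)) * ‖Ew P fun a => wa (R / pS univ a) j fun m =>
      f (pS univ a * m) * conj (∑ T, (Nil.ES.cf (Nil.ES.lo _ n) T : ℂ) *
        M j T a (pS univ a * m))‖ ≤ ε * Real.log X

def S_Low : Prop := ∀ AA, Ax.At (Ax.res AA) → End AA → Low (Ax.hull (Ax.res AA))

/-- no gain is possible on windows of length a small power of X -/
def S_TiltA : Prop := ∀ XX, Hull XX → ESW XX → Low XX → ∀ (f : ℕ → ℂ) (l : Filter ℕ), l ≤ atTop →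
  UCM f → RMRH f l → ∀ c : ℝ, 0 < c → ∃ κ : ℝ, 0 < κ ∧ ∀ κ0 : ℝ, 0 < κ0 → κ0 ≤ κ →
    ∀ᶠ X : ℕ in l, ∀ H : ℝ, (X : ℝ) ^ κ0 ≤ H → H ≤ (X : ℝ) ^ (2 * κ0) →
      ¬ App XX f X H ((1 - c) * Real.log X)

/-! ### Small facts -/

theorem mem_cell {ρ : ℝ} {j n : ℕ} : n ∈ cell ρ j ↔ (j : ℝ) * ρ ≤ n ∧ (n : ℝ) < (j + 1) * ρ := by
  rw [cell, mem_Ico, Nat.ceil_le, Nat.lt_ceil]

theorem mem_cell_div {ρ : ℝ} {j p n : ℕ} (hp : 0 < p) : n ∈ cell (ρ / p) j ↔ p * n ∈ cell ρ j := by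
  have : (0 : ℝ) < p := by exact_mod_cast hp
  rw [mem_cell, mem_cell, ← mul_div_assoc, ← mul_div_assoc, div_le_iff₀' this, lt_div_iff₀' this]
  push_cast
  rfl

theorem mem_cell_floor {ρ : ℝ} (hρ : 0 < ρ) {j n : ℕ} : n ∈ cell ρ j ↔ ⌊(n : ℝ) / ρ⌋₊ = j := by
  rw [mem_cell, Nat.floor_eq_iff (by positivity), le_div_iff₀ hρ, div_lt_iff₀ hρ]

theorem card_cell_le {ρ : ℝ} (hρ : 0 ≤ ρ) (j : ℕ) : ((cell ρ j).card : ℝ) ≤ ρ + 1 := by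
  have h1 : (j : ℝ) * ρ ≤ (j + 1) * ρ := by nlinarith
  rw [cell, Nat.card_Ico, Nat.cast_sub (Nat.ceil_mono h1)]
  have h2 := Nat.le_ceil ((j : ℝ) * ρ)
  have h3 := Nat.ceil_lt_add_one (show 0 ≤ ((j : ℝ) + 1) * ρ by positivity)
  linarith

theorem le_card_cell {ρ : ℝ} (hρ : 0 ≤ ρ) (j : ℕ) : ρ - 1 ≤ ((cell ρ j).card : ℝ) := by
  have h1 : (j : ℝ) * ρ ≤ (j + 1) * ρ := by nlinarith
  rw [cell, Nat.card_Ico, Nat.cast_sub (Nat.ceil_mono h1)]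
  have h2 := Nat.le_ceil (((j : ℝ) + 1) * ρ)
  have h3 := Nat.ceil_lt_add_one (show 0 ≤ (j : ℝ) * ρ by positivity)
  linarith

theorem loc_mem {XX : Set (ℕ → ℂ)} (h : Hull XX) (Ψ : ℕ → ℂ) (ρ : ℝ) (j : ℕ) :
    loc XX Ψ ρ j ∈ XX := by
  unfold loc
  split_ifs with h1
  exacts [h1.choose_spec.1, h.zero]

theorem loc_eq {XX : Set (ℕ → ℂ)} {Ψ : ℕ → ℂ} {ρ ρ' : ℝ} (hρ : 0 < ρ) (hΨ : Gr XX ρ Ψ) {j : ℕ}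
    (hj : good (ρ' / ρ) j) {n : ℕ} (hn : n ∈ cell ρ' j) : loc XX Ψ ρ' j n = Ψ n := by
  have h1 : ∃ u ∈ XX, ∀ n ∈ cell ρ' j, Ψ n = u n := by
    obtain ⟨i, h1, h2⟩ := hj
    obtain ⟨u, hu, h⟩ := hΨ i
    refine ⟨u, hu, fun n hn => h n ?_⟩
    rw [mem_cell] at hn ⊢
    rw [← mul_div_assoc, le_div_iff₀ hρ] at h1
    rw [← mul_div_assoc, div_le_iff₀ hρ] at h2
    exact ⟨h1.trans hn.1, hn.2.trans_le h2⟩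
  rw [loc, dif_pos h1]
  exact (h1.choose_spec.2 n hn).symm

theorem Gr.bd {XX : Set (ℕ → ℂ)} (h : Hull XX) {ρ : ℝ} (hρ : 0 < ρ) {Ψ : ℕ → ℂ} (hΨ : Gr XX ρ Ψ)
    (n : ℕ) : ‖Ψ n‖ ≤ 1 := by
  obtain ⟨u, hu, h1⟩ := hΨ ⌊(n : ℝ) / ρ⌋₊
  rw [h1 n ((mem_cell_floor hρ).2 rfl)]
  exact h.bd u hu _

theorem Gr.up {XX : Set (ℕ → ℂ)} (h : Hull XX) {ρ : ℝ} {Ψ f : ℕ → ℂ} (hΨ : Gr XX ρ Ψ)
    (hf : ∀ n, ‖f n‖ ≤ 1) {p : ℕ} (hp : 0 < p) : Gr XX (ρ / p) (Up f p Ψ) := fun j => by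
  obtain ⟨u, hu, h1⟩ := hΨ j
  refine ⟨_, h.sc _ (h.dil u hu p hp) (conj (f p)) (by rw [RCLike.norm_conj]; exact hf p),
    fun n hn => ?_⟩
  rw [Up, h1 _ ((mem_cell_div hp).1 hn)]

theorem gr_zero {XX : Set (ℕ → ℂ)} (h : Hull XX) (ρ : ℝ) : Gr XX ρ 0 :=
  fun _ => ⟨0, h.zero, fun _ _ => rfl⟩

theorem App.mono {XX : Set (ℕ → ℂ)} {f : ℕ → ℂ} {X : ℕ} {ρ d d' : ℝ} (h : App XX f X ρ d)
    (hd : d ≤ d') : App XX f X ρ d' := by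
  obtain ⟨Ψ, h1, h2⟩ := h
  exact ⟨Ψ, h1, h2.trans hd⟩

theorem gr_iff_pw {A : Set (ℕ → ℂ)} {H : ℕ} (hH : 0 < H) {Ψ : ℕ → ℂ} :
    Gr (Ax.hull A) H Ψ ↔ Ψ ∈ Ax.Pw A 1 H := by
  have : ∀ n j : ℕ, n ∈ cell H j ↔ 1 * n / H = j := fun n j => by
    rw [mem_cell_floor (by exact_mod_cast hH), one_mul, Nat.floor_div_eq_div]
  simp only [Gr, Ax.Pw, Set.mem_ofPred_eq, this]

theorem App.dst_le {A : Set (ℕ → ℂ)} {H X : ℕ} (hH : 0 < H) {f : ℕ → ℂ} {d : ℝ}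
    (h : App (Ax.hull A) f X H d) : Ax.dst A f H X ≤ d := by
  obtain ⟨Ψ, h1, h2⟩ := h
  refine le_trans (csInf_le ⟨0, ?_⟩ ⟨Ψ, (gr_iff_pw hH).1 h1, rfl⟩) h2
  rintro _ ⟨Φ, -, rfl⟩
  exact sum_nonneg fun _ _ => by positivity

theorem app_of_lt {A : Set (ℕ → ℂ)} (hA : Hull (Ax.hull A)) {H X : ℕ} (hH : 0 < H) {f : ℕ → ℂ}
    {d : ℝ} (h : Ax.dst A f H X < d) : App (Ax.hull A) f X H d := by
  obtain ⟨_, ⟨Ψ, h1, rfl⟩, h2⟩ :=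
    exists_lt_of_csInf_lt (Set.Nonempty.image _ ⟨0, (gr_iff_pw hH).1 (gr_zero hA _)⟩) h
  exact ⟨Ψ, (gr_iff_pw hH).2 h1, h2.le⟩

theorem dst_nonneg (X : ℕ) (φ ψ : ℕ → ℂ) : 0 ≤ dst X φ ψ :=
  sum_nonneg fun _ _ => by positivity

theorem gn_eq (z u : ℂ) : gn z u = ‖z‖ ^ 2 - ‖z - u‖ ^ 2 := by
  simp only [gn, ← Complex.normSq_eq_norm_sq, Complex.normSq_sub]
  ring

theorem harm_le (X : ℕ) : ∑ n ∈ Icc 1 X, 1 / (n : ℝ) ≤ 1 + Real.log X := by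
  have := harmonic_le_one_add_log X
  rw [harmonic_eq_sum_Icc] at this
  simpa using this

theorem le_harm (X : ℕ) : Real.log X ≤ ∑ n ∈ Icc 1 X, 1 / (n : ℝ) := by
  have := log_add_one_le_harmonic X
  rw [harmonic_eq_sum_Icc] at this
  rcases Nat.eq_zero_or_pos X with rfl | hX
  · simp
  · refine (Real.log_le_log (by exact_mod_cast hX) (by push_cast; linarith)).trans
      (this.trans (by simp))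

theorem grp_disjoint (s : ℕ) {g g' : ℕ} (h : g ≠ g') : Disjoint (grp s g) (grp s g') := by
  rw [disjoint_left]
  intro p hp hq
  rw [grp, V.mem_PP] at hp hq
  rcases lt_or_gt_of_ne h with h | h
  · have : 2 ^ (s * (g + 1)) ≤ 2 ^ (s * g') :=
      Nat.pow_le_pow_right (by norm_num) (Nat.mul_le_mul_left s h)
    omega
  · have : 2 ^ (s * (g' + 1)) ≤ 2 ^ (s * g) :=
      Nat.pow_le_pow_right (by norm_num) (Nat.mul_le_mul_left s h)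
    omega

end Pool.Agent.P.MP_a14ce1_nt.IV
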