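import Pool.Agent.P.MP_a14ce1_nt.IV.St
import Pool.Agent.P.MP_a14ce1_nt.Nil.CoreSt

/-! Fair sampling and extension on one window, for the convex hull, at any base level. -/

open Finset

namespace Pool.Agent.P.MP_a14ce1_nt.IV

open Nil.ES

/-- the uniform weight on the window [j R, (j + 1) R) -/
noncomputable def wW (R : ℝ) (j : ℕ) : Wt ℕ where
  s := cell R j
  w := fun _ => 1 / |R|
  nn := fun _ => by positivity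

def S_FsW : Prop := ∀ A, Ax.At A → Ax.FS A → ∃ C : ℕ, ∀ Q : ℝ, 2 ≤ Q → ∀ (γ : Pr) (R : ℝ) (j c : ℕ),
  Ax.PW Q C γ.s γ.w → 0 < c → (∀ p ∈ γ.s, (c : ℝ) * p * Q ^ C ≤ R) →
  FsN (wW R j) (Ax.hull A) c γ (1 / Q)

def S_ExtW : Prop := ∀ A, Ax.At A → Ax.EXT A → ∃ C : ℕ, ∀ Q : ℝ, 2 ≤ Q →
  ∀ (γ γ' : Pr) (R : ℝ) (j b : ℕ), Ax.PW Q C γ.s γ.w → Ax.PW Q C γ'.s γ'.w → Disjoint γ.s γ'.s →
  0 < b → (∀ p ∈ γ.s, ∀ v ∈ γ'.s, (b : ℝ) * p * (v : ℝ) ^ C * Q ^ C ≤ R) →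
  ExtN (wW R j) (Ax.hull A) b γ γ' (1 / Q)

end Pool.Agent.P.MP_a14ce1_nt.IV
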